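import Pool.Agent.U476.NB.Rel2

/-! Density of the colours at which a polynomial relation fails. -/

set_option autoImplicit false

namespace Pool.Agent.U476.NB

open Finset
open Pool.Agent.U476.NB.Dn (Rough cc Bad rough_main rough_count QQ cc_pos rough_of_dvd)

section rel

variable {s : ℕ} {kn : Fin s → ℕ × List (ℕ × Bool)} (P : MvPolynomial (Option (Fin s)) ℤ)
  {rt : ℕ → ℂ} (hrt : ∀ N, 1 ≤ N → rt N ∈ primitiveRoots (2 * N) ℂ)

include hrt

open Classical in
theorem rel_rough (hw : Kn kn) {m₀ : ℕ} (hm₀ : 1 ≤ m₀) (hne : GC kn P m₀ (rt m₀) ≠ 0) {ε : ℝ}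
    (hε : 0 < ε) : ∃ y₀ : ℕ, ∀ y : ℕ, y₀ ≤ y → ∀ X : ℕ,
      (((Finset.Icc 1 X).filter fun n => Rough y n ∧ GC kn P (m₀ * n) (rt (m₀ * n)) = 0).card : ℝ) ≤
        ε * (cc y * X) := by
  obtain ⟨M, hM1, hM2⟩ := conj_prod' P (kn := kn) m₀ hm₀
  have hM : M ≠ 0 := hM2 _ (hrt m₀ hm₀) hne
  set B := max (max M.natAbs m₀) 2 with hB
  have hB1 : M.natAbs ≤ B := (le_max_left _ _).trans (le_max_left _ _)
  have hB2 : m₀ ≤ B := (le_max_right _ _).trans (le_max_left _ _)
  have hB3 : 2 ≤ B := le_max_right _ _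
  set Z : ℕ → Prop := fun n => Rough B n ∧ GC kn P (m₀ * n) (rt (m₀ * n)) = 0 with hZ
  set E : ℕ → ℕ → Prop := fun n p => Rough B n ∧ ExcR kn P (m₀ * n) p with hE
  have hbig : ∀ p : ℕ, p.Prime → B < p → Nat.Coprime p m₀ ∧ p ≠ 2 := by
    intro p hp hBp
    refine ⟨(Nat.Prime.coprime_iff_not_dvd hp).2 fun h => ?_, by omega⟩
    have := Nat.le_of_dvd hm₀ h
    omega
  have hpp : ∀ p a : ℕ, p.Prime → ¬ Z (p ^ a) := by
    rintro p a hp ⟨h1, h2⟩
    rcases Nat.eq_zero_or_pos a with rfl | ha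
    · rw [pow_zero, mul_one] at h2
      exact hne h2
    · have hBp := h1 p hp (dvd_pow_self p ha.ne')
      obtain ⟨hc, hp2⟩ := hbig p hp hBp
      have h3 : ExcR kn P m₀ p := fun μ hμ =>
        div_int' P hw hp hp2 hm₀ hc _ (hrt _ (Nat.mul_pos hm₀ (pow_pos hp.pos a))) h2 μ hμ
      have h4 := pow_dvd' kn P hp.pos M hM1 h3
      have h5 : (p : ℤ) ∣ M :=
        (dvd_pow_self (p : ℤ) (Nat.totient_pos.2 (by omega)).ne').trans h4
      have h6 := Nat.le_of_dvd (Int.natAbs_pos.2 hM) (Int.natCast_dvd.1 h5)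
      omega
  have h2 : ∀ m p a : ℕ, p.Prime → p ≠ 2 → 0 < m → Nat.Coprime p m → Z (m * p ^ a) → E m p := by
    rintro m p a hp hp2 hm hpm ⟨h1, h3⟩
    refine ⟨rough_of_dvd h1 (Dvd.intro _ rfl), ?_⟩
    have hmm : 0 < m₀ * m := Nat.mul_pos hm₀ hm
    rcases Nat.eq_zero_or_pos a with rfl | ha
    · rw [pow_zero, mul_one] at h3
      obtain ⟨M', hM1', hM2'⟩ := conj_prod' P (kn := kn) (m₀ * m) hmm
      have h0 : M' = 0 := by
        have : (M' : ℂ) = 0 := by
          rw [hM1']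
          exact Finset.prod_eq_zero (hrt _ hmm) h3
        exact_mod_cast this
      intro μ hμ
      have h4 : GC kn P (m₀ * m) μ = 0 := by
        by_contra h5
        exact hM2' μ hμ h5 h0
      rw [h4, zero_div]
      exact isIntegral_zero
    · have hBp := h1 p hp ((dvd_pow_self p ha.ne').mul_left m)
      obtain ⟨hc, -⟩ := hbig p hp hBp
      intro μ hμ
      have h4 : GC kn P (m₀ * m * p ^ a) (rt (m₀ * m * p ^ a)) = 0 := by
        rw [mul_assoc]; exact h3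
      exact div_int' P hw hp hp2 hmm (Nat.Coprime.mul_right hc hpm) _
        (hrt _ (Nat.mul_pos hmm (pow_pos hp.pos a))) h4 μ hμ
  have hG0 := G0_nonneg kn P
  have hlog0 : 0 ≤ Real.log m₀ := Real.log_natCast_nonneg _
  set G : ℝ := G0 kn P * (m₀ * (1 + 2 * Real.log m₀) ^ 2) with hG
  have hGn : 0 ≤ G := by positivity
  have h3 : ∀ m : ℕ, 2 ≤ m → Odd m → ¬ Z m → ∀ F : Finset ℕ,
      (∀ p ∈ F, p.Prime ∧ E m p) → (m.totient : ℝ) * ∑ p ∈ F, Real.log p ≤
        G * (m * Real.log m ^ 2) := by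
    intro m hm _ hz F hF
    rcases F.eq_empty_or_nonempty with rfl | ⟨p, hp⟩
    · rw [Finset.sum_empty, mul_zero]
      positivity
    · have hr : Rough B m := (hF p hp).2.1
      have hmm : 2 ≤ m₀ * m := by nlinarith
      have h4 : GC kn P (m₀ * m) (rt (m₀ * m)) ≠ 0 := fun h => hz ⟨hr, h⟩
      have h5 := excR_primes kn P hmm (hrt _ (by omega)) h4 F
        fun p hp => ⟨(hF p hp).1, (hF p hp).2.2⟩
      have h6 : m.totient ≤ (2 * (m₀ * m)).totient :=
        Nat.le_of_dvd (Nat.totient_pos.2 (by omega))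
          (Nat.totient_dvd_of_dvd ⟨2 * m₀, by ring⟩)
      have h7 : 0 ≤ ∑ p ∈ F, Real.log p := Finset.sum_nonneg fun p _ => Real.log_natCast_nonneg p
      have h8 : (m.totient : ℝ) * ∑ p ∈ F, Real.log p ≤
          ((2 * (m₀ * m)).totient : ℝ) * ∑ p ∈ F, Real.log p :=
        mul_le_mul_of_nonneg_right (by exact_mod_cast h6) h7
      refine h8.trans (h5.trans ?_)
      have hm0 : (0 : ℝ) < m := by
        have : 0 < m := by omega
        exact_mod_cast this
      have hm00 : (0 : ℝ) < m₀ := by exact_mod_cast hm₀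
      have hlm : (0.6931471803 : ℝ) < Real.log m :=
        Real.log_two_gt_d9.trans_le (Real.log_le_log (by norm_num) (by exact_mod_cast hm))
      have h9 : Real.log ((m₀ * m : ℕ) : ℝ) ≤ (1 + 2 * Real.log m₀) * Real.log m := by
        push_cast
        rw [Real.log_mul hm00.ne' hm0.ne']
        nlinarith
      have h10 : 0 ≤ Real.log ((m₀ * m : ℕ) : ℝ) := Real.log_natCast_nonneg _
      have h11 := pow_le_pow_left₀ h10 h9 2
      have h12 : (((m₀ * m : ℕ) : ℝ)) * Real.log ((m₀ * m : ℕ) : ℝ) ^ 2 ≤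
          (m₀ * (1 + 2 * Real.log m₀) ^ 2) * (m * Real.log m ^ 2) := by
        calc (((m₀ * m : ℕ) : ℝ)) * Real.log ((m₀ * m : ℕ) : ℝ) ^ 2 ≤
            (((m₀ * m : ℕ) : ℝ)) * ((1 + 2 * Real.log m₀) * Real.log m) ^ 2 :=
              mul_le_mul_of_nonneg_left h11 (Nat.cast_nonneg _)
          _ = _ := by push_cast; ring
      calc G0 kn P * (((m₀ * m : ℕ) : ℝ) * Real.log ((m₀ * m : ℕ) : ℝ) ^ 2) ≤
          G0 kn P * ((m₀ * (1 + 2 * Real.log m₀) ^ 2) * (m * Real.log m ^ 2)) :=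
            mul_le_mul_of_nonneg_left h12 hG0
        _ = _ := by rw [hG]; ring
  obtain ⟨y₀, hy₀⟩ := rough_main Z E hGn hpp h2 h3 hε
  refine ⟨max y₀ B, fun y hy X => ?_⟩
  have hy1 : y₀ ≤ y := (le_max_left _ _).trans hy
  have hy2 : B ≤ y := (le_max_right _ _).trans hy
  refine le_trans ?_ (hy₀ y hy1 X)
  have hsub : ((Finset.Icc 1 X).filter fun n => Rough y n ∧
      GC kn P (m₀ * n) (rt (m₀ * n)) = 0) ⊆ Bad Z y X := by
    intro n hn
    obtain ⟨h4, h5, h6⟩ := Finset.mem_filter.1 hn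
    unfold Bad
    simp only [Finset.mem_filter]
    exact ⟨h4, h5, fun p hp hpd => hy2.trans_lt (h5 p hp hpd), h6⟩
  exact_mod_cast Finset.card_le_card hsub

open Classical in
theorem rel_pos (hw : Kn kn) {m₀ : ℕ} (hm₀ : 1 ≤ m₀) (hne : GC kn P m₀ (rt m₀) ≠ 0) :
    ∃ c : ℝ, 0 < c ∧ ∃ X₀ : ℕ, ∀ X : ℕ, X₀ ≤ X → c * X ≤
      (((Finset.Icc 2 X).filter fun N : ℕ =>
        Real.exp (-(G0 kn P * (N * Real.log N ^ 2))) ≤ ‖GC kn P N (rt N)‖).card : ℝ) := by
  obtain ⟨y, hy⟩ := rel_rough P hrt hw hm₀ hne (ε := 1 / 2) (by norm_num)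
  have h4 := hy y le_rfl
  have hc := cc_pos y
  have hm00 : (0 : ℝ) < m₀ := by exact_mod_cast hm₀
  obtain ⟨X₀, hX₀⟩ := exists_nat_ge (((QQ y : ℝ) + 1 + cc y) / (cc y / (4 * m₀)))
  refine ⟨cc y / (4 * m₀), by positivity, X₀, fun X hX => ?_⟩
  have h5 := rough_count y (X / m₀)
  have h6 := h4 (X / m₀)
  set good := (Finset.Icc 2 X).filter fun N : ℕ =>
        Real.exp (-(G0 kn P * (N * Real.log N ^ 2))) ≤ ‖GC kn P N (rt N)‖ with hgood
  have h7 : (((Finset.Icc 1 (X / m₀)).filter fun N => Rough y N).card : ℝ) ≤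
      (((Finset.Icc 1 (X / m₀)).filter fun n => Rough y n ∧
        GC kn P (m₀ * n) (rt (m₀ * n)) = 0).card : ℝ) + (1 + (good.card : ℝ)) := by
    have h8 : ((Finset.Icc 1 (X / m₀)).filter fun N => Rough y N) ⊆
        ((Finset.Icc 1 (X / m₀)).filter fun n => Rough y n ∧
          GC kn P (m₀ * n) (rt (m₀ * n)) = 0) ∪
        ({1} ∪ ((Finset.Icc 2 (X / m₀)).filter fun n =>
          GC kn P (m₀ * n) (rt (m₀ * n)) ≠ 0)) := by
      intro N hN
      obtain ⟨h9, h10⟩ := Finset.mem_filter.1 hN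
      rw [Finset.mem_Icc] at h9
      rw [Finset.mem_union, Finset.mem_union]
      by_cases hz : GC kn P (m₀ * N) (rt (m₀ * N)) = 0
      · left
        exact Finset.mem_filter.2 ⟨Finset.mem_Icc.2 h9, h10, hz⟩
      · right
        rcases Nat.lt_or_ge N 2 with h11 | h11
        · left
          rw [Finset.mem_singleton]; omega
        · right
          exact Finset.mem_filter.2 ⟨Finset.mem_Icc.2 ⟨h11, h9.2⟩, hz⟩
    have h9 : ((Finset.Icc 2 (X / m₀)).filter fun n =>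
        GC kn P (m₀ * n) (rt (m₀ * n)) ≠ 0).card ≤ good.card := by
      refine Finset.card_le_card_of_injOn (fun n => m₀ * n) ?_ ?_
      · intro n hn
        have hn' := Finset.mem_filter.1 (Finset.mem_coe.1 hn)
        obtain ⟨h10, h11⟩ := hn'
        rw [Finset.mem_Icc] at h10
        have h12 : 2 ≤ m₀ * n := by nlinarith
        have h13 : m₀ * n ≤ X :=
          (Nat.mul_le_mul_left m₀ h10.2).trans (Nat.mul_div_le X m₀)
        apply Finset.mem_coe.2
        rw [hgood, Finset.mem_filter, Finset.mem_Icc]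
        exact ⟨⟨h12, h13⟩, (rel_main kn P h12 (hrt _ (by omega)) h11).2.2 _ (hrt _ (by omega))⟩
      · intro a _ b _ hab
        exact Nat.eq_of_mul_eq_mul_left hm₀ hab
    have h10 := (Finset.card_le_card h8).trans ((Finset.card_union_le _ _).trans
      (Nat.add_le_add_left (Finset.card_union_le _ _) _))
    rw [Finset.card_singleton] at h10
    have h11 := h10.trans (Nat.add_le_add_left (Nat.add_le_add_left h9 1) _)
    exact_mod_cast h11
  have h8 : (X : ℝ) / m₀ - 1 ≤ ((X / m₀ : ℕ) : ℝ) := by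
    have := Nat.lt_div_mul_add hm₀ (a := X)
    have h9 : (X : ℝ) < ((X / m₀ : ℕ) : ℝ) * m₀ + m₀ := by exact_mod_cast this
    rw [sub_le_iff_le_add, div_le_iff₀ hm00]
    linarith
  have h9 : (QQ y : ℝ) + 1 + cc y ≤ cc y / (4 * m₀) * X := by
    rw [div_le_iff₀ (by positivity)] at hX₀
    have h10 : (X₀ : ℝ) ≤ X := by exact_mod_cast hX
    have h11 : 0 ≤ cc y / (4 * m₀) := by positivity
    nlinarith
  have e : cc y / (4 * m₀) * X = cc y * (X / m₀) / 4 := by
    field_simp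
  rw [e] at h9 ⊢
  have h10 := mul_le_mul_of_nonneg_left h8 hc.le
  nlinarith

end rel

end Pool.Agent.U476.NB
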