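import Pool.Agent.U476.NB.Norm

/-! Coloured Jones polynomials of knots do not vanish at roots of unity of prime power order. -/

set_option autoImplicit false

namespace Pool.Agent.U476.NB

open Finset NumberField
open Pool.Agent.H550R3.Jones (cjones br brf crossP crossN gen rep)


/-- The transposition of a generator. -/
def tau (n k : ℕ) : Equiv.Perm (Fin n) :=
  if h : k + 1 < n then Equiv.swap ⟨k, by omega⟩ ⟨k + 1, h⟩ else 1

/-- The permutation of a braid word on `n` strands. -/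
def perm (n : ℕ) (w : List (ℕ × Bool)) : Equiv.Perm (Fin n) := (w.map fun g => tau n g.1).prod

lemma perm_cons (n : ℕ) (g : ℕ × Bool) (w : List (ℕ × Bool)) :
    perm n (g :: w) = tau n g.1 * perm n w := by
  simp [perm]

variable {A : Type} [CommRing A] {ι : Type} [DecidableEq ι]

/-- Matrices which only exchange the two labels. -/
def Flip (M : Matrix (ι × ι) (ι × ι) A) : Prop := ∀ p q, M p q ≠ 0 → p.1 = q.2 ∧ p.2 = q.1

lemma ggen_flip (M : Matrix (ι × ι) (ι × ι) A) (hM : Flip M) (n k : ℕ) (s t : Fin n → ι)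
    (h : ggen M n k s t ≠ 0) (j : Fin n) : s (tau n k j) = t j := by
  rw [ggen] at h
  rw [tau]
  split_ifs at h with h1 h2 h2
  · rw [dif_pos h1]
    obtain ⟨h3, h4⟩ := hM _ _ h
    simp only at h3 h4
    by_cases j1 : (j : ℕ) = k
    · have : j = ⟨k, by omega⟩ := Fin.ext j1
      rw [this, Equiv.swap_apply_left]; exact h4
    · by_cases j2 : (j : ℕ) = k + 1
      · have : j = ⟨k + 1, h1⟩ := Fin.ext j2
        rw [this, Equiv.swap_apply_right]; exact h3
      · rw [Equiv.swap_apply_of_ne_of_ne (fun h => j1 (congrArg Fin.val h))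
          (fun h => j2 (congrArg Fin.val h))]
        exact h2 j j1 j2
  · exact absurd rfl h
  · rw [dif_neg h1, h2]; rfl
  · exact absurd rfl h

lemma grep_cons [Fintype ι] (P Q : Matrix (ι × ι) (ι × ι) A) (n : ℕ) (g : ℕ × Bool)
    (w : List (ℕ × Bool)) : grep P Q n (g :: w) =
      ggen (if g.2 then P else Q) n g.1 * grep P Q n w := by
  simp [grep]

lemma grep_flip [Fintype ι] (P Q : Matrix (ι × ι) (ι × ι) A) (hP : Flip P) (hQ : Flip Q) (n : ℕ)
    (w : List (ℕ × Bool)) : ∀ s t : Fin n → ι, grep P Q n w s t ≠ 0 →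
      ∀ j, s (perm n w j) = t j := by
  induction w with
  | nil =>
    intro s t h j
    rw [grep, List.map_nil, List.prod_nil, Matrix.one_apply] at h
    split_ifs at h with h1
    · rw [h1]; rfl
    · exact absurd rfl h
  | cons g w ih =>
    intro s t h j
    rw [grep_cons, Matrix.mul_apply] at h
    obtain ⟨u, _, hu⟩ := Finset.exists_ne_zero_of_sum_ne_zero h
    have h1 := left_ne_zero_of_mul hu
    have h2 := right_ne_zero_of_mul hu
    have h3 := ih u t h2 j
    have h4 := ggen_flip _ (by split_ifs; exacts [hP, hQ]) n g.1 s u h1 (perm n w j)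
    rw [perm_cons, Equiv.Perm.mul_apply, h4, h3]

lemma grep_unit [Fintype ι] (P Q : Matrix (ι × ι) (ι × ι) A) (hP : Flip P) (hQ : Flip Q) (a : ι)
    (hPu : IsUnit (P (a, a) (a, a))) (hQu : IsUnit (Q (a, a) (a, a))) (n : ℕ)
    (w : List (ℕ × Bool)) : IsUnit (grep P Q n w (fun _ => a) fun _ => a) := by
  induction w with
  | nil => rw [grep, List.map_nil, List.prod_nil, Matrix.one_apply_eq]; exact isUnit_one
  | cons g w ih =>
    rw [grep_cons, Matrix.mul_apply, Finset.sum_eq_single (fun _ => a)]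
    · refine IsUnit.mul ?_ ih
      rw [ggen]
      by_cases h1 : g.1 + 1 < n
      · rw [dif_pos h1, if_pos (fun _ _ _ => rfl)]
        split_ifs
        · exact hPu
        · exact hQu
      · rw [dif_neg h1, if_pos rfl]
        exact isUnit_one
    · intro u _ hu
      by_contra h
      apply hu
      have h1 := left_ne_zero_of_mul h
      funext j
      exact (ggen_flip _ (by split_ifs; exacts [hP, hQ]) n g.1 _ u h1 j).symm
    · intro h; exact absurd (mem_univ _) h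

section eps

variable (β : Aˣ) (hβ : β ^ 2 = 1)

include hβ

lemma gbr_eps (k : ℤ) : gbr β k = 0 := by
  have h1 : β ^ (-k) = β ^ k := by
    have : β ^ (2 * k) = 1 := by rw [zpow_mul]; rw [zpow_ofNat, hβ, one_zpow]
    calc β ^ (-k) = β ^ (-k) * β ^ (2 * k) := by rw [this, mul_one]
      _ = β ^ k := by rw [← zpow_add]; congr 1; ring
  rw [gbr, h1, sub_self]

lemma prod_eps (m : ℕ) (f : ℕ → ℤ) (hm : m ≠ 0) : ∏ t ∈ range m, gbr β (f t) = 0 :=
  Finset.prod_eq_zero (i := 0) (mem_range.2 (Nat.pos_of_ne_zero hm)) (gbr_eps β hβ _)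

lemma gP_flip (N : ℕ) : Flip (gP N β) := by
  intro p q h
  rw [gP] at h
  split_ifs at h with hc
  · have h1 : (p.1 : ℕ) - q.2 = 0 := by
      by_contra h2
      apply h
      rw [prod_eps β hβ _ _ h2, mul_zero]
    exact ⟨Fin.ext (by omega), Fin.ext (by omega)⟩
  · exact absurd rfl h

lemma gN_flip (N : ℕ) : Flip (gN N β) := by
  intro p q h
  rw [gN] at h
  split_ifs at h with hc
  · have h1 : (p.2 : ℕ) - q.1 = 0 := by
      by_contra h2
      apply h
      rw [prod_eps β hβ _ _ h2, mul_zero]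
    exact ⟨Fin.ext (by omega), Fin.ext (by omega)⟩
  · exact absurd rfl h

omit hβ in
lemma gP_unit (N : ℕ) (h : 0 < N) : IsUnit (gP N β (⟨0, h⟩, ⟨0, h⟩) (⟨0, h⟩, ⟨0, h⟩)) := by
  rw [gP, if_pos ⟨rfl, le_refl _⟩]
  simp only [Nat.sub_self, zero_mul, Nat.zero_div, pow_zero, mul_one, gb, range_zero,
    Finset.prod_empty]
  exact Units.isUnit _

omit hβ in
lemma gN_unit (N : ℕ) (h : 0 < N) : IsUnit (gN N β (⟨0, h⟩, ⟨0, h⟩) (⟨0, h⟩, ⟨0, h⟩)) := by
  rw [gN, if_pos ⟨rfl, le_refl _⟩]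
  simp only [Nat.sub_self, zero_mul, Nat.zero_div, pow_zero, mul_one, one_mul, gb, range_zero,
    Finset.prod_empty]
  exact Units.isUnit _

/-- At `v = ±1` the coloured Jones polynomial of a knot is a unit. -/
theorem cj_unit (N n : ℕ) (hN : 0 < N) (w : List (ℕ × Bool))
    (hw : ∀ k : Fin (n + 1), ∃ i : ℕ, (perm (n + 1) w ^ i) 0 = k) : IsUnit (cj N n w β) := by
  rw [cj, dif_pos hN, gtail]
  have hcons : (Fin.cons ⟨0, hN⟩ (fun _ => ⟨0, hN⟩) : Fin (n + 1) → Fin N) =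
      fun _ => ⟨0, hN⟩ := by
    funext j
    refine Fin.cases ?_ (fun i => ?_) j <;> simp
  rw [Finset.sum_eq_single (fun _ => ⟨0, hN⟩)]
  · rw [hcons]
    refine IsUnit.mul ?_ (grep_unit _ _ (gP_flip β hβ N) (gN_flip β hβ N) _ (gP_unit β N hN)
      (gN_unit β N hN) _ _)
    rw [Finset.prod_const]
    exact (Units.isUnit _).pow _
  · intro s _ hs
    by_contra h
    apply hs
    have h1 := right_ne_zero_of_mul h
    have h2 := grep_flip _ _ (gP_flip β hβ N) (gN_flip β hβ N) _ w _ _ h1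
    have h3 : ∀ (i : ℕ), (Fin.cons ⟨0, hN⟩ s : Fin (n + 1) → Fin N)
        ((perm (n + 1) w ^ i) 0) = ⟨0, hN⟩ := by
      intro i
      induction i with
      | zero => simp
      | succ i ih => rw [pow_succ', Equiv.Perm.mul_apply, h2, ih]
    funext j
    obtain ⟨i, hi⟩ := hw j.succ
    have h4 := h3 i
    rw [hi, Fin.cons_succ] at h4
    exact h4
  · intro h; exact absurd (mem_univ _) h

end eps

theorem ne_zero_aux (p a : ℕ) (hp : p.Prime) (N n : ℕ) (w : List (ℕ × Bool)) (hN0 : 0 < N)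
    (hN : N ≤ p ^ a) (hw : ∀ k : Fin (n + 1), ∃ i : ℕ, (perm (n + 1) w ^ i) 0 = k)
    (K : Type) [Field K] [NumberField K] [NeZero (2 * p ^ a)]
    [IsCyclotomicExtension {2 * p ^ a} ℚ K] (μ : ℂ)
    (hμ : μ ∈ primitiveRoots (2 * p ^ a) ℂ) : cjones N n w μ ≠ 0 := by
  have hζ : IsPrimitiveRoot (IsCyclotomicExtension.zeta (2 * p ^ a) ℚ K) (2 * p ^ a) :=
    IsCyclotomicExtension.zeta_spec (2 * p ^ a) ℚ K
  set ζ := IsCyclotomicExtension.zeta (2 * p ^ a) ℚ K with hζd
  have hirr : Irreducible (Polynomial.cyclotomic (2 * p ^ a) ℚ) :=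
    Polynomial.cyclotomic.irreducible_rat (Nat.pos_of_neZero _)
  obtain ⟨σ, hs⟩ := (hζ.embeddingsEquivPrimitiveRoots ℂ hirr).surjective ⟨μ, hμ⟩
  have h3 : σ ζ = μ := by
    have := congrArg Subtype.val hs
    rwa [IsPrimitiveRoot.embeddingsEquivPrimitiveRoots_apply_coe] at this
  rw [← h3, ← emb hζ N n hN w σ]
  -- a maximal ideal over `p`
  have hpI : (Ideal.span {(p : ℤ)}).IsMaximal :=
    PrincipalIdealRing.isMaximal_of_irreducible (Nat.prime_iff_prime_int.1 hp).irreducible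
  obtain ⟨P, hP, hPl⟩ := Ideal.exists_maximal_ideal_liesOver_of_isIntegral
    (Ideal.span {(p : ℤ)}) (S := 𝓞 K)
  have hp0 : ((p : ℕ) : 𝓞 K) ∈ P := by
    have h4 : (p : ℤ) ∈ P.under ℤ := by
      rw [← hPl.over]
      exact Ideal.mem_span_singleton_self _
    have h5 : algebraMap ℤ (𝓞 K) (p : ℤ) ∈ P := h4
    simpa using h5
  letI : Field (𝓞 K ⧸ P) := Ideal.Quotient.field P
  have hpB : ((p : ℕ) : 𝓞 K ⧸ P) = 0 := by
    rw [← map_natCast (Ideal.Quotient.mk P), Ideal.Quotient.eq_zero_iff_mem]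
    exact hp0
  have : Fact p.Prime := ⟨hp⟩
  have hchar : CharP (𝓞 K ⧸ P) p := (CharP.charP_iff_prime_eq_zero hp).2 hpB
  set β : (𝓞 K ⧸ P)ˣ := Units.map ((Ideal.Quotient.mk P : 𝓞 K →+* 𝓞 K ⧸ P) : 𝓞 K →* 𝓞 K ⧸ P)
    (uu hζ) with hβd
  have hu : uu hζ ^ (2 * p ^ a) = 1 := by
    apply Units.ext
    have hu : ((uu hζ : (𝓞 K)ˣ) : 𝓞 K) = hζ.toInteger := IsUnit.unit_spec _
    rw [Units.val_pow_eq_pow_val, hu, Units.val_one]
    exact hζ.toInteger_isPrimitiveRoot.pow_eq_one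
  have hβ1 : β ^ (2 * p ^ a) = 1 := by
    rw [hβd, ← map_pow, hu, map_one]
  have hβ : β ^ 2 = 1 := by
    apply Units.ext
    rw [Units.val_pow_eq_pow_val, Units.val_one, ← sub_eq_zero]
    have h6 : (((β : 𝓞 K ⧸ P) ^ 2) - 1) ^ p ^ a = 0 := by
      rw [sub_pow_char_pow, one_pow, ← pow_mul, ← Units.val_pow_eq_pow_val, hβ1, Units.val_one,
        sub_self]
    exact pow_eq_zero_iff (pow_ne_zero a hp.ne_zero) |>.1 h6
  have h7 := cj_unit β hβ N n hN0 w hw
  intro h8
  have h9 : (cj N n w (uu hζ) : 𝓞 K) = 0 := by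
    have h10 : ((cj N n w (uu hζ) : 𝓞 K) : K) = 0 := by
      have := (map_eq_zero_iff σ.toRingHom σ.toRingHom.injective).1 h8
      exact this
    exact_mod_cast h10
  have h11 := map_cj (Ideal.Quotient.mk P) N n w (uu hζ)
  rw [h9, map_zero, ← hβd] at h11
  rw [← h11] at h7
  exact not_isUnit_zero h7

/-- Knots: no zeros at roots of unity of prime power order. -/
theorem knot_ne_zero (p a : ℕ) (hp : p.Prime) (N n : ℕ) (w : List (ℕ × Bool)) (hN0 : 0 < N)
    (hN : N ≤ p ^ a) (hw : ∀ k : Fin (n + 1), ∃ i : ℕ, (perm (n + 1) w ^ i) 0 = k) (μ : ℂ)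
    (hμ : μ ∈ primitiveRoots (2 * p ^ a) ℂ) : cjones N n w μ ≠ 0 := by
  have h0 : 0 < p ^ a := pow_pos hp.pos a
  have : NeZero (2 * p ^ a) := ⟨by omega⟩
  exact @ne_zero_aux p a hp N n w hN0 hN hw (CyclotomicField (2 * p ^ a) ℚ) _ _ _
    (cyc_inst (p ^ a) h0) μ hμ

end Pool.Agent.U476.NB
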