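import Pool.Agent.U476.NB.Knot

/-! Classes of labels modulo `m`: the coloured Jones polynomial of colour `N = m M`, `M` odd, over a
ring in which `v ^ m = -1` and `{1}, …, {m - 1}` are units, is that of colour `m`. -/

set_option autoImplicit false

namespace Pool.Agent.U476.NB

open Finset

variable {A : Type} [CommRing A]

section flip

variable {ι : Type} [DecidableEq ι]

/-- Matrices which exchange the classes of the two labels. -/
def FlipC (c : ι → ℕ) (M : Matrix (ι × ι) (ι × ι) A) : Prop :=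
  ∀ p q, M p q ≠ 0 → c p.1 = c q.2 ∧ c p.2 = c q.1

lemma ggen_flipC (c : ι → ℕ) (M : Matrix (ι × ι) (ι × ι) A) (hM : FlipC c M) (n k : ℕ)
    (s t : Fin n → ι) (h : ggen M n k s t ≠ 0) (j : Fin n) : c (s (tau n k j)) = c (t j) := by
  rw [ggen] at h
  rw [tau]
  split_ifs at h with h1 h2 h2
  · rw [dif_pos h1]
    obtain ⟨h3, h4⟩ := hM _ _ h
    simp only at h3 h4
    by_cases j1 : (j : ℕ) = k
    · have : j = ⟨k, by omega⟩ := Fin.ext j1
      rw [this, Equiv.swap_apply_left]; exact h4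
    · by_cases j2 : (j : ℕ) = k + 1
      · have : j = ⟨k + 1, h1⟩ := Fin.ext j2
        rw [this, Equiv.swap_apply_right]; exact h3
      · rw [Equiv.swap_apply_of_ne_of_ne (fun h => j1 (congrArg Fin.val h))
          (fun h => j2 (congrArg Fin.val h))]
        rw [h2 j j1 j2]
  · exact absurd rfl h
  · rw [dif_neg h1, h2]; rfl
  · exact absurd rfl h

lemma tau_tau (n k : ℕ) (j : Fin n) : tau n k (tau n k j) = j := by
  rw [tau]
  split_ifs
  · exact Equiv.swap_apply_self _ _ _
  · rfl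

lemma grep_flipC [Fintype ι] (c : ι → ℕ) (P Q : Matrix (ι × ι) (ι × ι) A) (hP : FlipC c P)
    (hQ : FlipC c Q) (n : ℕ) (w : List (ℕ × Bool)) : ∀ s t : Fin n → ι, grep P Q n w s t ≠ 0 →
      ∀ j, c (s (perm n w j)) = c (t j) := by
  induction w with
  | nil =>
    intro s t h j
    rw [grep, List.map_nil, List.prod_nil, Matrix.one_apply] at h
    split_ifs at h with h1
    · rw [h1]; rfl
    · exact absurd rfl h
  | cons g w ih =>
    intro s t h j
    rw [grep_cons, Matrix.mul_apply] at h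
    obtain ⟨u, _, hu⟩ := Finset.exists_ne_zero_of_sum_ne_zero h
    have h1 := left_ne_zero_of_mul hu
    have h2 := right_ne_zero_of_mul hu
    have h3 := ih u t h2 j
    have h4 := ggen_flipC c _ (by split_ifs; exacts [hP, hQ]) n g.1 s u h1 (perm n w j)
    rw [perm_cons, Equiv.Perm.mul_apply, h4, h3]

end flip

/-! ### colours `N` and `m` -/

/-- The inclusion of labels. -/
def inc (m N : ℕ) (hmN : m ≤ N) (x : Fin m) : Fin N := ⟨x, lt_of_lt_of_le x.2 hmN⟩

section col

variable (m N : ℕ) (hm : 0 < m) (hmN : m ≤ N) (β : Aˣ) (hN : β ^ N = -1) (hβ : β ^ m = -1)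
  (hpar : β ^ (N - m) = 1) (hdvd : m ∣ N)
  (hu : ∀ k : ℕ, 0 < k → k < m → IsUnit (gbr β k))

include hβ in
lemma gbr_mul (k : ℤ) : gbr β (m * k) = 0 := by
  have h1 : (β ^ (m : ℤ)) = -1 := by rw [zpow_natCast]; exact hβ
  rw [gbr, ← mul_neg, zpow_mul, zpow_mul, h1, zpow_neg]
  have h2 : ((-1 : Aˣ) ^ k)⁻¹ = (-1 : Aˣ) ^ k := by
    rw [← inv_zpow]; congr 1
  rw [h2, sub_self]

include hβ in
/-- `{x} = 0` if `m` divides `x` -/
lemma gbr_zero_of_dvd (x : ℤ) (h : (m : ℤ) ∣ x) : gbr β x = 0 := by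
  obtain ⟨k, rfl⟩ := h
  exact gbr_mul m β hβ k

include hN hβ in
lemma gbr_sub (x : ℤ) : gbr β ((N : ℤ) - x) = gbr β ((m : ℤ) - x) := by
  have h1 : (β ^ (m : ℤ)) = -1 := by rw [zpow_natCast]; exact hβ
  have h2 : (β ^ (N : ℤ)) = -1 := by rw [zpow_natCast]; exact hN
  rw [gbr, gbr, neg_sub, neg_sub, zpow_sub, zpow_sub, zpow_sub, zpow_sub, h1, h2]

/-- A product of consecutive brackets without zero factors. -/
lemma cls_of_prod {f : ℕ → ℤ} (hβ : β ^ m = -1) (hm : 0 < m) {a n : ℕ} (hn : n ≤ a)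
    (hf : ∀ t < n, (m ∣ (a - t)) → gbr β (f t) = 0) (h : ∏ t ∈ range n, gbr β (f t) ≠ 0) :
    (a - n) / m = a / m ∧ n < m := by
  have h1 : ∀ t < n, ¬ m ∣ (a - t) := by
    intro t ht hd
    exact h (Finset.prod_eq_zero (mem_range.2 ht) (hf t ht hd))
  have h2 : a % m ≥ n := by
    by_contra h3
    push Not at h3
    apply h1 (a % m) h3
    exact ⟨a / m, by have := Nat.div_add_mod a m; omega⟩
  have h4 : a % m < m := Nat.mod_lt a hm
  refine ⟨?_, by omega⟩
  have h5 : a - n = m * (a / m) + (a % m - n) := by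
    have := Nat.div_add_mod a m; omega
  rw [h5, Nat.mul_add_div hm, Nat.div_eq_of_lt (by omega : a % m - n < m), add_zero]

include hm hβ hdvd hu in
/-- The factor of a crossing. -/
lemma fac_cls {p1 q2 q1 p2 : ℕ} (hs : p1 + p2 = q1 + q2) (hle : q2 ≤ p1)
    (h : gb β p1 (p1 - q2) * ∏ t ∈ range (p1 - q2), gbr β ((N : ℤ) - q1 + t) ≠ 0) :
    p1 / m = q2 / m ∧ p2 / m = q1 / m := by
  have h1 := left_ne_zero_of_mul h
  have h2 := right_ne_zero_of_mul h
  have h3 := cls_of_prod (f := fun t => (N : ℤ) - q1 + t) m β hβ hm (a := q1) (n := p1 - q2)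
    (by omega) (fun t ht hd => by
      apply gbr_zero_of_dvd m β hβ
      have e : (N : ℤ) - q1 + t = N - ((q1 - t : ℕ) : ℤ) := by
        have : t ≤ q1 := by omega
        push_cast [Nat.cast_sub this]; ring
      rw [e]
      exact dvd_sub (Int.natCast_dvd_natCast.2 hdvd) (Int.natCast_dvd_natCast.2 hd)) h2
  have h4 : ∏ t ∈ range (p1 - q2), gbr β ((p1 : ℤ) - t) ≠ 0 := by
    rw [← gb_fac]
    intro h5
    apply h1
    have h6 : IsUnit (∏ j ∈ range (p1 - q2), gbr β ((j : ℤ) + 1)) := by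
      refine IsUnit.prod_iff.2 fun j hj => ?_
      have hj' := mem_range.1 hj
      have := hu (j + 1) (by omega) (by omega)
      exact_mod_cast this
    exact (h6.mul_left_eq_zero).1 h5
  have h5 := cls_of_prod (f := fun t => (p1 : ℤ) - t) m β hβ hm (a := p1) (n := p1 - q2)
    (by omega) (fun t ht hd => by
      apply gbr_zero_of_dvd m β hβ
      have e : (p1 : ℤ) - t = ((p1 - t : ℕ) : ℤ) := by
        have : t ≤ p1 := by omega
        push_cast [Nat.cast_sub this]; ring
      rw [e]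
      exact Int.natCast_dvd_natCast.2 hd) h4
  have e1 : p1 - (p1 - q2) = q2 := by omega
  have e2 : q1 - (p1 - q2) = p2 := by omega
  rw [e1] at h5
  rw [e2] at h3
  exact ⟨h5.1.symm, h3.1⟩

include hm hβ hdvd hu in
lemma gP_flipC : FlipC (fun x : Fin N => (x : ℕ) / m) (gP N β) := by
  intro p q h
  rw [gP] at h
  split_ifs at h with hc
  · rw [mul_assoc] at h
    exact fac_cls m N hm β hβ hdvd hu hc.1 hc.2 (right_ne_zero_of_mul h)
  · exact absurd rfl h

include hm hβ hdvd hu in
lemma gN_flipC : FlipC (fun x : Fin N => (x : ℕ) / m) (gN N β) := by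
  intro p q h
  rw [gN] at h
  split_ifs at h with hc
  · rw [mul_assoc] at h
    have := fac_cls m N hm β hβ hdvd hu (p1 := p.2) (p2 := p.1) (q1 := q.2) (q2 := q.1)
      (by omega) hc.2 (right_ne_zero_of_mul h)
    exact ⟨this.2, this.1⟩
  · exact absurd rfl h

lemma inc_inj : Function.Injective (inc m N hmN) := by
  intro x y h
  have := congrArg Fin.val h
  exact Fin.ext this

include hpar hmN in
lemma zp_one (k : ℤ) : β ^ (((N : ℤ) - m) * k) = 1 := by
  have h1 : β ^ ((N : ℤ) - m) = 1 := by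
    rw [← Nat.cast_sub hmN, zpow_natCast]; exact hpar
  rw [zpow_mul, h1, one_zpow]

include hpar hmN in
lemma zp_eq (k e : ℤ) : β ^ (-((N : ℤ) - 1) * k + e) = β ^ (-((m : ℤ) - 1) * k + e) := by
  have h1 := zp_one m N hmN β hpar (-k)
  have h2 : -((N : ℤ) - 1) * k + e = (-((m : ℤ) - 1) * k + e) + ((N : ℤ) - m) * (-k) := by ring
  rw [h2, zpow_add, h1, mul_one]

include hpar hmN in
lemma zp_eq' (k e : ℤ) : β ^ (((N : ℤ) - 1) * k - e) = β ^ (((m : ℤ) - 1) * k - e) := by
  have h1 := zp_one m N hmN β hpar k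
  have h2 : ((N : ℤ) - 1) * k - e = (((m : ℤ) - 1) * k - e) + ((N : ℤ) - m) * k := by ring
  rw [h2, zpow_add, h1, mul_one]

include hN hβ in
lemma prod_eq (a b : ℕ) : ∏ t ∈ range a, gbr β ((N : ℤ) - b + t) =
    ∏ t ∈ range a, gbr β ((m : ℤ) - b + t) := by
  refine Finset.prod_congr rfl fun t _ => ?_
  have := gbr_sub m N β hN hβ ((b : ℤ) - t)
  rw [show (N : ℤ) - b + t = N - (b - t) by ring, this]
  congr 1; ring

include hN hβ hpar in
lemma gP_inc (p q : Fin m × Fin m) :
    gP N β (inc m N hmN p.1, inc m N hmN p.2) (inc m N hmN q.1, inc m N hmN q.2) =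
      gP m β p q := by
  rw [gP, gP]
  split_ifs with h1 h2 h2
  · rw [zp_eq m N hmN β hpar, prod_eq m N β hN hβ]
    rfl
  · exact absurd h1 h2
  · exact absurd h2 h1
  · rfl

include hN hβ hpar in
lemma gN_inc (p q : Fin m × Fin m) :
    gN N β (inc m N hmN p.1, inc m N hmN p.2) (inc m N hmN q.1, inc m N hmN q.2) =
      gN m β p q := by
  rw [gN, gN]
  split_ifs with h1 h2 h2
  · rw [zp_eq' m N hmN β hpar, prod_eq m N β hN hβ]
    rfl
  · exact absurd h1 h2
  · exact absurd h2 h1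
  · rfl

lemma ggen_inc (M : Matrix (Fin N × Fin N) (Fin N × Fin N) A)
    (M' : Matrix (Fin m × Fin m) (Fin m × Fin m) A)
    (h : ∀ p q : Fin m × Fin m,
      M (inc m N hmN p.1, inc m N hmN p.2) (inc m N hmN q.1, inc m N hmN q.2) = M' p q)
    (n k : ℕ) (s t : Fin n → Fin m) :
    ggen M n k (fun j => inc m N hmN (s j)) (fun j => inc m N hmN (t j)) = ggen M' n k s t := by
  rw [ggen, ggen]
  by_cases h1 : k + 1 < n
  · rw [dif_pos h1, dif_pos h1]
    have h2 : (∀ j : Fin n, (j : ℕ) ≠ k → (j : ℕ) ≠ k + 1 → inc m N hmN (s j) = inc m N hmN (t j)) ↔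
        ∀ j : Fin n, (j : ℕ) ≠ k → (j : ℕ) ≠ k + 1 → s j = t j :=
      ⟨fun h j a b => inc_inj m N hmN (h j a b), fun h j a b => by rw [h j a b]⟩
    by_cases h3 : ∀ j : Fin n, (j : ℕ) ≠ k → (j : ℕ) ≠ k + 1 → s j = t j
    · rw [if_pos (h2.2 h3), if_pos h3]
      exact h (s ⟨k, by omega⟩, s ⟨k + 1, h1⟩) (t ⟨k, by omega⟩, t ⟨k + 1, h1⟩)
    · rw [if_neg (fun h => h3 (h2.1 h)), if_neg h3]
  · rw [dif_neg h1, dif_neg h1]
    have h2 : (fun j => inc m N hmN (s j)) = (fun j => inc m N hmN (t j)) ↔ s = t := by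
      constructor
      · intro h; funext j; exact inc_inj m N hmN (congrFun h j)
      · rintro rfl; rfl
    by_cases h3 : s = t
    · rw [if_pos (h2.2 h3), if_pos h3]
    · rw [if_neg (fun h => h3 (h2.1 h)), if_neg h3]

include hm in
lemma inc_of_cls {n : ℕ} (u : Fin n → Fin N) (h : ∀ j, (u j : ℕ) / m = 0) :
    ∃ u' : Fin n → Fin m, (fun j => inc m N hmN (u' j)) = u := by
  refine ⟨fun j => ⟨u j, ?_⟩, ?_⟩
  · have := h j
    rw [Nat.div_eq_zero_iff] at this
    rcases this with h1 | h1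
    · omega
    · exact h1
  · funext j; rfl

lemma inc_cls (x : Fin m) : ((inc m N hmN x : Fin N) : ℕ) / m = 0 :=
  Nat.div_eq_of_lt x.2

include hm hN hβ hpar hdvd hu in
lemma grep_inc (n : ℕ) (w : List (ℕ × Bool)) : ∀ s t : Fin n → Fin m,
    grep (gP N β) (gN N β) n w (fun j => inc m N hmN (s j)) (fun j => inc m N hmN (t j)) =
      grep (gP m β) (gN m β) n w s t := by
  induction w with
  | nil =>
    intro s t
    rw [grep, grep, List.map_nil, List.map_nil, List.prod_nil, List.prod_nil, Matrix.one_apply,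
      Matrix.one_apply]
    have h2 : (fun j => inc m N hmN (s j)) = (fun j => inc m N hmN (t j)) ↔ s = t := by
      constructor
      · intro h; funext j; exact inc_inj m N hmN (congrFun h j)
      · rintro rfl; rfl
    by_cases h3 : s = t
    · rw [if_pos (h2.2 h3), if_pos h3]
    · rw [if_neg (fun h => h3 (h2.1 h)), if_neg h3]
  | cons g w ih =>
    intro s t
    rw [grep_cons, grep_cons, Matrix.mul_apply, Matrix.mul_apply]
    symm
    refine Fintype.sum_of_injective (fun (u : Fin n → Fin m) => fun j => inc m N hmN (u j)) ?_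
      _ _ ?_ ?_
    · intro a b h
      funext j
      exact inc_inj m N hmN (congrFun h j)
    · intro u hu'
      by_contra h
      apply hu'
      have h1 := left_ne_zero_of_mul h
      have hfl : FlipC (fun x : Fin N => (x : ℕ) / m) (if g.2 then gP N β else gN N β) := by
        split_ifs
        · exact gP_flipC m N hm β hβ hdvd hu
        · exact gN_flipC m N hm β hβ hdvd hu
      obtain ⟨u', hu''⟩ := inc_of_cls m N hm hmN u fun j => by
        have := ggen_flipC _ _ hfl n g.1 _ u h1 j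
        rw [← this]
        exact inc_cls m N hmN _
      exact ⟨u', hu''⟩
    · intro u
      rw [ih u t]
      congr 1
      symm
      apply ggen_inc m N hmN
      intro p q
      split_ifs
      · exact gP_inc m N hmN β hN hβ hpar p q
      · exact gN_inc m N hmN β hN hβ hpar p q

include hm hmN hN hβ hpar hdvd hu in
/-- The coloured Jones polynomial of a knot of colour `N` is that of colour `m`. -/
theorem cj_cls (n : ℕ) (w : List (ℕ × Bool))
    (hw : ∀ k : Fin (n + 1), ∃ i : ℕ, (perm (n + 1) w ^ i) 0 = k) :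
    cj N n w β = cj m n w β := by
  have hN0 : 0 < N := by omega
  rw [cj, cj, dif_pos hN0, dif_pos hm, gtail, gtail]
  symm
  have hcons : ∀ u : Fin n → Fin m, (Fin.cons ⟨0, hN0⟩ (fun j => inc m N hmN (u j)) :
      Fin (n + 1) → Fin N) = fun j => inc m N hmN ((Fin.cons ⟨0, hm⟩ u : Fin (n + 1) → Fin m) j) := by
    intro u
    funext j
    refine Fin.cases ?_ (fun i => ?_) j
    · rfl
    · simp
  refine Fintype.sum_of_injective (fun (u : Fin n → Fin m) => fun j => inc m N hmN (u j)) ?_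
    _ _ ?_ ?_
  · intro a b h
    funext j
    exact inc_inj m N hmN (congrFun h j)
  · intro s hs
    by_contra h
    apply hs
    have h1 := right_ne_zero_of_mul h
    have h2 := grep_flipC _ _ _ (gP_flipC m N hm β hβ hdvd hu) (gN_flipC m N hm β hβ hdvd hu) _ w
      _ _ h1
    have h3 : ∀ (i : ℕ), (((Fin.cons ⟨0, hN0⟩ s : Fin (n + 1) → Fin N)
        ((perm (n + 1) w ^ i) 0) : Fin N) : ℕ) / m = 0 := by
      intro i
      induction i with
      | zero => simp
      | succ i ih => rw [pow_succ', Equiv.Perm.mul_apply, h2, ih]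
    obtain ⟨s', hs'⟩ := inc_of_cls m N hm hmN s fun j => by
      obtain ⟨i, hi⟩ := hw j.succ
      have h4 := h3 i
      rw [hi, Fin.cons_succ] at h4
      exact h4
    exact ⟨s', hs'⟩
  · intro u
    rw [hcons, grep_inc m N hm hmN β hN hβ hpar hdvd hu]
    congr 1
    refine Finset.prod_congr rfl fun x _ => ?_
    congr 1
    have := zp_eq' m N hmN β hpar 1 (2 * (u x : ℕ))
    rw [mul_one, mul_one] at this
    exact this.symm

end col

end Pool.Agent.U476.NB
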