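import Mathlib

/-! Sums over rough integers, by elementary means. -/

set_option autoImplicit false

namespace Pool.Agent.U476.NB.Dn

open Finset

/-- All prime factors are greater than `y`. -/
def Rough (y N : ℕ) : Prop := ∀ p : ℕ, p.Prime → p ∣ N → y < p

open Classical in
/-- Integers up to `X` with all prime factors in `(y, k]`. -/
noncomputable def DD (X y k : ℕ) : Finset ℕ :=
  (Finset.Icc 1 X).filter fun D => ∀ p : ℕ, p.Prime → p ∣ D → y < p ∧ p ≤ k

/-- The weight. -/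
noncomputable def wt (δ : ℝ) (D : ℕ) : ℝ := (D : ℝ) ^ δ / D.totient

noncomputable def SS (δ : ℝ) (X y k : ℕ) : ℝ := ∑ D ∈ DD X y k, wt δ D

lemma wt_nonneg (δ : ℝ) (D : ℕ) : 0 ≤ wt δ D := by
  rw [wt]; positivity

open Classical in
lemma mem_DD {X y k D : ℕ} : D ∈ DD X y k ↔
    (1 ≤ D ∧ D ≤ X) ∧ ∀ p : ℕ, p.Prime → p ∣ D → y < p ∧ p ≤ k := by
  rw [DD, Finset.mem_filter, Finset.mem_Icc]

lemma wt_mul {δ : ℝ} {k D : ℕ} (hk : k.Prime) (hD : 0 < D) :
    wt δ (k * D) ≤ (k : ℝ) ^ δ / ((k : ℝ) - 1) * wt δ D := by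
  have h1 : k.totient * D.totient ≤ (k * D).totient := Nat.totient_super_multiplicative k D
  rw [Nat.totient_prime hk] at h1
  have h2 : ((k - 1 : ℕ) : ℝ) = (k : ℝ) - 1 := by
    rw [Nat.cast_sub hk.one_lt.le]; simp
  have h3 : ((k : ℝ) - 1) * (D.totient : ℝ) ≤ ((k * D).totient : ℝ) := by
    rw [← h2]; exact_mod_cast h1
  have h4 : (1 : ℝ) < k := by exact_mod_cast hk.one_lt
  have h5 : (0 : ℝ) < D.totient := by exact_mod_cast Nat.totient_pos.2 hD
  rw [wt, wt]
  have h6 : ((k * D : ℕ) : ℝ) ^ δ = (k : ℝ) ^ δ * (D : ℝ) ^ δ := by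
    push_cast
    exact Real.mul_rpow (by positivity) (by positivity)
  rw [h6, div_mul_div_comm]
  apply div_le_div_of_nonneg_left (by positivity) (mul_pos (by linarith) h5) h3

lemma sum_div_le {δ : ℝ} {X y k : ℕ} (hk : k.Prime) :
    ∑ D ∈ (DD X y k).filter (fun D => k ∣ D), wt δ D ≤
      (k : ℝ) ^ δ / ((k : ℝ) - 1) * SS δ X y k := by
  have h4 : (1 : ℝ) < k := by exact_mod_cast hk.one_lt
  have hc : 0 ≤ (k : ℝ) ^ δ / ((k : ℝ) - 1) := div_nonneg (by positivity) (by linarith)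
  have h1 : ∀ D ∈ (DD X y k).filter (fun D => k ∣ D), wt δ D ≤
      (k : ℝ) ^ δ / ((k : ℝ) - 1) * wt δ (D / k) := by
    intro D hD
    obtain ⟨h2, h3⟩ := Finset.mem_filter.1 hD
    have h5 := (mem_DD.1 h2).1.1
    obtain ⟨E, rfl⟩ := h3
    rw [Nat.mul_div_cancel_left E hk.pos]
    exact wt_mul hk (Nat.pos_of_mul_pos_left h5 |> fun h => by
      rcases Nat.eq_zero_or_pos E with h0 | h0
      · rw [h0, mul_zero] at h5; omega
      · exact h0)
  refine (Finset.sum_le_sum h1).trans ?_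
  rw [← Finset.mul_sum]
  refine mul_le_mul_of_nonneg_left ?_ hc
  rw [← Finset.sum_image (f := wt δ) (g := fun D => D / k)]
  · refine Finset.sum_le_sum_of_subset_of_nonneg ?_ fun _ _ _ => wt_nonneg _ _
    intro E hE
    obtain ⟨D, hD, rfl⟩ := Finset.mem_image.1 hE
    obtain ⟨h2, h3⟩ := Finset.mem_filter.1 hD
    obtain ⟨⟨h5, h6⟩, h7⟩ := mem_DD.1 h2
    refine mem_DD.2 ⟨⟨?_, (Nat.div_le_self _ _).trans h6⟩, ?_⟩
    · exact Nat.div_pos (Nat.le_of_dvd (by omega) h3) hk.pos
    · intro p hp hpd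
      exact h7 p hp (hpd.trans (Nat.div_dvd_of_dvd h3))
  · intro a ha b hb hab
    have ha' := (Finset.mem_filter.1 ha).2
    have hb' := (Finset.mem_filter.1 hb).2
    simp only at hab
    rw [← Nat.mul_div_cancel' ha', ← Nat.mul_div_cancel' hb', hab]

lemma DD_succ_of_not_prime {X y k : ℕ} (hk : ¬ (k + 1).Prime) : DD X y (k + 1) = DD X y k := by
  ext D
  rw [mem_DD, mem_DD]
  constructor
  · rintro ⟨h1, h2⟩
    refine ⟨h1, fun p hp hpd => ?_⟩
    obtain ⟨h3, h4⟩ := h2 p hp hpd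
    refine ⟨h3, ?_⟩
    by_contra h5
    have : p = k + 1 := by omega
    exact hk (this ▸ hp)
  · rintro ⟨h1, h2⟩
    refine ⟨h1, fun p hp hpd => ?_⟩
    obtain ⟨h3, h4⟩ := h2 p hp hpd
    exact ⟨h3, by omega⟩

lemma SS_le_succ {δ : ℝ} {X y k : ℕ} (hk : (k + 1).Prime) :
    SS δ X y (k + 1) ≤ SS δ X y k +
      ((k + 1 : ℕ) : ℝ) ^ δ / (((k + 1 : ℕ) : ℝ) - 1) * SS δ X y (k + 1) := by
  have h1 : SS δ X y (k + 1) = ∑ D ∈ (DD X y (k + 1)).filter (fun D => (k + 1) ∣ D), wt δ D +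
      ∑ D ∈ (DD X y (k + 1)).filter (fun D => ¬ (k + 1) ∣ D), wt δ D := by
    rw [SS, Finset.sum_filter_add_sum_filter_not]
  have h2 : ∑ D ∈ (DD X y (k + 1)).filter (fun D => ¬ (k + 1) ∣ D), wt δ D ≤ SS δ X y k := by
    refine Finset.sum_le_sum_of_subset_of_nonneg ?_ fun _ _ _ => wt_nonneg _ _
    intro D hD
    obtain ⟨h3, h4⟩ := Finset.mem_filter.1 hD
    obtain ⟨h5, h6⟩ := mem_DD.1 h3
    refine mem_DD.2 ⟨h5, fun p hp hpd => ?_⟩
    obtain ⟨h7, h8⟩ := h6 p hp hpd
    refine ⟨h7, ?_⟩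
    by_contra h9
    have : p = k + 1 := by omega
    exact h4 (this ▸ hpd)
  have h3 := sum_div_le (δ := δ) (X := X) (y := y) hk
  linarith

lemma SS_nonneg (δ : ℝ) (X y k : ℕ) : 0 ≤ SS δ X y k :=
  Finset.sum_nonneg fun _ _ => wt_nonneg _ _

lemma SS_base {δ : ℝ} {X y k : ℕ} (hk : k ≤ y) : SS δ X y k ≤ 1 := by
  have h1 : DD X y k ⊆ {1} := by
    intro D hD
    obtain ⟨h5, h6⟩ := mem_DD.1 hD
    rw [Finset.mem_singleton]
    by_contra h
    obtain ⟨p, hp, hpd⟩ := Nat.exists_prime_and_dvd h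
    have := h6 p hp hpd
    omega
  refine (Finset.sum_le_sum_of_subset_of_nonneg h1 fun _ _ _ => wt_nonneg _ _).trans ?_
  rw [Finset.sum_singleton, wt]
  simp

/-- The growth of the sums over integers with prime factors in `(y, k]`. -/
lemma SS_le {δ : ℝ} {X y P : ℕ} (hy : 100 ≤ y) (hδ : ∀ k : ℕ, k ≤ P → (k : ℝ) ^ δ ≤ 1.2841) :
    ∀ k : ℕ, y - 1 ≤ k → k ≤ P → SS δ X y k ^ 4 ≤ ((k : ℝ) / (y - 1)) ^ 3 := by
  have hy1 : (99 : ℝ) ≤ (y : ℝ) - 1 := by
    have : (100 : ℝ) ≤ y := by exact_mod_cast hy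
    linarith
  intro k
  induction k using Nat.strong_induction_on with
  | _ k ih =>
    intro h1 h2
    have hk1 : ((y : ℝ) - 1) ≤ k := by
      have : ((y - 1 : ℕ) : ℝ) ≤ k := by exact_mod_cast h1
      rw [Nat.cast_sub (by omega)] at this
      simpa using this
    have hkpos : (0 : ℝ) < k := by linarith
    rcases Nat.lt_or_ge y k with h3 | h3
    · obtain ⟨l, rfl⟩ : ∃ l, k = l + 1 := ⟨k - 1, by omega⟩
      by_cases hp : (l + 1).Prime
      · -- prime step
        have hodd : ¬ l.Prime := by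
          intro hl
          rcases hl.eq_two_or_odd with h | h
          · omega
          · rcases hp.eq_two_or_odd with h' | h' <;> omega
        obtain ⟨m, rfl⟩ : ∃ m, l = m + 1 := ⟨l - 1, by omega⟩
        have hSl : SS δ X y (m + 1) = SS δ X y m := by
          rw [SS, SS, DD_succ_of_not_prime hodd]
        have hrec := SS_le_succ (δ := δ) (X := X) (y := y) hp
        rw [hSl] at hrec
        have hih := ih m (by omega) (by omega) (by omega)
        set K : ℝ := ((m + 1 + 1 : ℕ) : ℝ) with hK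
        have hKm : (m : ℝ) = K - 2 := by rw [hK]; push_cast; ring
        have hK100 : (101 : ℝ) ≤ K := by
          have : 101 ≤ m + 1 + 1 := by omega
          rw [hK]; exact_mod_cast this
        have hKδ := hδ _ h2
        rw [← hK] at hKδ
        have ha : K ^ δ / (K - 1) ≤ 1.3 / K := by
          rw [div_le_div_iff₀ (by linarith) (by linarith)]
          nlinarith
        have hS0 := SS_nonneg δ X y (m + 1 + 1)
        have hS1 := SS_nonneg δ X y m
        have h5 : SS δ X y (m + 1 + 1) * (1 - 1.3 / K) ≤ SS δ X y m := by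
          have := mul_le_mul_of_nonneg_right ha hS0
          nlinarith
        have h6 : SS δ X y (m + 1 + 1) ≤ (1 + 1.4 / K) * SS δ X y m := by
          have h7 : 1 ≤ (1 + 1.4 / K) * (1 - 1.3 / K) := by
            have : (1 + 1.4 / K) * (1 - 1.3 / K) = 1 + (0.1 * K - 1.82) / K ^ 2 := by
              field_simp; ring
            rw [this]
            have : 0 ≤ (0.1 * K - 1.82) / K ^ 2 := div_nonneg (by linarith) (by positivity)
            linarith
          have h8 : 0 ≤ 1 + 1.4 / K := by positivity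
          calc SS δ X y (m + 1 + 1) ≤ SS δ X y (m + 1 + 1) * ((1 + 1.4 / K) * (1 - 1.3 / K)) := by
                nlinarith
            _ = (1 + 1.4 / K) * (SS δ X y (m + 1 + 1) * (1 - 1.3 / K)) := by ring
            _ ≤ (1 + 1.4 / K) * SS δ X y m := mul_le_mul_of_nonneg_left h5 h8
        have h9 : SS δ X y (m + 1 + 1) ^ 4 ≤ ((1 + 1.4 / K) * SS δ X y m) ^ 4 :=
          pow_le_pow_left₀ hS0 h6 4
        rw [mul_pow] at h9
        refine h9.trans ((mul_le_mul_of_nonneg_left hih (by positivity)).trans ?_)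
        rw [hKm, div_pow, div_pow, ← mul_div_assoc]
        refine div_le_div_of_nonneg_right ?_ (by positivity)
        -- polynomial inequality
        have h10 : (1 + 1.4 / K) ^ 4 * (K - 2) ^ 3 = ((K + 1.4) ^ 4 * (K - 2) ^ 3) / K ^ 4 := by
          field_simp
        rw [h10, div_le_iff₀ (by positivity)]
        have h11 : 0 ≤ K - 101 := by linarith
        have h12 : K = (K - 101) + 101 := by ring
        set u := K - 101 with hu
        rw [h12]
        have h13 : 0 ≤ (u + 101) ^ 3 * (u + 101) ^ 4 - (u + 101 + 1.4) ^ 4 * (u + 101 - 2) ^ 3 := by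
          ring_nf
          positivity
        linarith
      · rw [SS, DD_succ_of_not_prime hp, ← SS]
        refine (ih l (by omega) (by omega) (by omega)).trans ?_
        refine pow_le_pow_left₀ (by positivity) ?_ 3
        refine div_le_div_of_nonneg_right ?_ (by linarith)
        push_cast; linarith
    · have h4 := SS_base (δ := δ) (X := X) h3
      have h5 := SS_nonneg δ X y k
      have h6 : SS δ X y k ^ 4 ≤ 1 := pow_le_one₀ h5 h4
      have h7 : (1 : ℝ) ≤ (k : ℝ) / (y - 1) := by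
        rw [le_div_iff₀ (by linarith)]; linarith
      exact h6.trans (one_le_pow₀ h7)

end Pool.Agent.U476.NB.Dn
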