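import Pool.Agent.U476.NB.Dens

/-! Counting integers with a zero among the rough integers. -/

set_option autoImplicit false

namespace Pool.Agent.U476.NB.Dn

open Finset

/-- eighth root -/
noncomputable def r8 (x : ℝ) : ℝ := x ^ (1 / 8 : ℝ)

lemma r8_pow {x : ℝ} (hx : 0 ≤ x) : r8 x ^ 8 = x := by
  rw [r8, ← Real.rpow_natCast, ← Real.rpow_mul hx]
  norm_num

lemma r8_nonneg {x : ℝ} (hx : 0 ≤ x) : 0 ≤ r8 x := Real.rpow_nonneg hx _

lemma r8_pos {x : ℝ} (hx : 0 < x) : 0 < r8 x := Real.rpow_pos_of_pos hx _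

lemma r8_mono {x y : ℝ} (hx : 0 ≤ x) (h : x ≤ y) : r8 x ≤ r8 y :=
  Real.rpow_le_rpow hx h (by norm_num)

lemma r8_ge_one {x : ℝ} (hx : 1 ≤ x) : 1 ≤ r8 x := Real.one_le_rpow hx (by norm_num)

lemma tail (y : ℕ) (hy : 1 ≤ y) (X : ℕ) (hX : y ≤ X) :
    ∑ k ∈ Finset.Ioc y X, (r8 k ^ 9)⁻¹ ≤ 8 * ((r8 y)⁻¹ - (r8 X)⁻¹) := by
  induction X, hX using Nat.le_induction with
  | base => simp
  | succ X hX ih =>
    rw [Finset.sum_Ioc_succ_top (by omega)]
    have hX0 : (0 : ℝ) < X := by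
      have : 0 < X := by omega
      exact_mod_cast this
    set u := r8 ((X + 1 : ℕ) : ℝ) with hu
    set v := r8 (X : ℝ) with hv
    have hv0 : 0 < v := r8_pos hX0
    have hu0 : 0 < u := r8_pos (by positivity)
    have hvu : v ≤ u := r8_mono hX0.le (by push_cast; linarith)
    have h1 : u ^ 8 - v ^ 8 = 1 := by
      rw [hu, hv, r8_pow (by positivity), r8_pow hX0.le]
      push_cast; ring
    have h2 : 1 ≤ 8 * (u - v) * u ^ 7 := by
      have h3 : u ^ 8 - v ^ 8 = (u - v) * (u ^ 7 + u ^ 6 * v + u ^ 5 * v ^ 2 + u ^ 4 * v ^ 3 +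
        u ^ 3 * v ^ 4 + u ^ 2 * v ^ 5 + u * v ^ 6 + v ^ 7) := by ring
      rw [h3] at h1
      have h4 : u ^ 7 + u ^ 6 * v + u ^ 5 * v ^ 2 + u ^ 4 * v ^ 3 +
        u ^ 3 * v ^ 4 + u ^ 2 * v ^ 5 + u * v ^ 6 + v ^ 7 ≤ 8 * u ^ 7 := by
        have e : 8 * u ^ 7 = u ^ 7 + u ^ 6 * u + u ^ 5 * u ^ 2 + u ^ 4 * u ^ 3 +
          u ^ 3 * u ^ 4 + u ^ 2 * u ^ 5 + u * u ^ 6 + u ^ 7 := by ring
        rw [e]
        gcongr
      have h5 : 0 ≤ u - v := by linarith
      nlinarith [mul_le_mul_of_nonneg_left h4 h5]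
    have h6 : (u ^ 9)⁻¹ ≤ 8 * (v⁻¹ - u⁻¹) := by
      have h7 : 8 * (v⁻¹ - u⁻¹) = 8 * (u - v) / (u * v) := by
        field_simp
      rw [h7, inv_eq_one_div, div_le_div_iff₀ (by positivity) (by positivity)]
      calc 1 * (u * v) ≤ 1 * (u * u) := by gcongr
        _ ≤ (8 * (u - v) * u ^ 7) * (u * u) := by
          refine mul_le_mul_of_nonneg_right h2 (by positivity)
        _ = 8 * (u - v) * u ^ 9 := by ring
    linarith

lemma exp_quarter : Real.exp (1 / 4) ≤ 1.2841 := by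
  have h1 : Real.exp (1 / 4) ^ 4 = Real.exp 1 := by
    rw [← Real.exp_nat_mul]; norm_num
  have h2 := Real.exp_one_lt_d9
  by_contra h
  push Not at h
  have h3 : (1.2841 : ℝ) ^ 4 < Real.exp (1 / 4) ^ 4 := by
    exact pow_lt_pow_left₀ h (by norm_num) (by norm_num)
  rw [h1] at h3
  norm_num at h3 h2
  linarith

/-- The contribution of the integers with largest prime factor `P`. -/
lemma per_prime {X y P : ℕ} (hy : 100 ≤ y) (hP : P.Prime) (hyP : y < P) :
    ((P : ℝ) * Real.log P)⁻¹ * ∑ D ∈ (DD X y P).filter (fun D => P ∣ D),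
      Real.log D ^ 2 / D.totient ≤ 333 / (r8 ((y : ℝ) - 1) ^ 6 * r8 P ^ 9) := by
  have hP101 : (101 : ℝ) ≤ P := by
    have : 101 ≤ P := by omega
    exact_mod_cast this
  have hy1 : (99 : ℝ) ≤ (y : ℝ) - 1 := by
    have : (100 : ℝ) ≤ y := by exact_mod_cast hy
    linarith
  have hlogP : 0 < Real.log P := Real.log_pos (by linarith)
  set δ : ℝ := 1 / (4 * Real.log P) with hδ
  have hδ0 : 0 < δ := by positivity
  have hPδ : (P : ℝ) ^ δ ≤ 1.2841 := by
    rw [Real.rpow_def_of_pos (by linarith)]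
    have : Real.log P * δ = 1 / 4 := by rw [hδ]; field_simp
    rw [this]
    exact exp_quarter
  have hkδ : ∀ k : ℕ, k ≤ P → (k : ℝ) ^ δ ≤ 1.2841 := fun k hk =>
    (Real.rpow_le_rpow (by positivity) (by exact_mod_cast hk) hδ0.le).trans hPδ
  have hS := SS_le (δ := δ) (X := X) hy hkδ P (by omega) le_rfl
  have hS0 := SS_nonneg δ X y P
  set S := SS δ X y P with hSd
  set u := r8 (P : ℝ) with hu
  set b := r8 ((y : ℝ) - 1) with hb
  have hu0 : 0 < u := r8_pos (by linarith)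
  have hb0 : 0 < b := r8_pos (by linarith)
  have hu8 : u ^ 8 = P := r8_pow (by linarith)
  have hb8 : b ^ 8 = (y : ℝ) - 1 := r8_pow (by linarith)
  have hS2 : S ≤ u ^ 6 / b ^ 6 := by
    rw [← hu8, ← hb8] at hS
    have h1 : (u ^ 8 / b ^ 8) ^ 3 = (u ^ 6 / b ^ 6) ^ 4 := by
      rw [div_pow, div_pow, ← pow_mul, ← pow_mul, ← pow_mul, ← pow_mul]
    rw [h1] at hS
    exact le_of_pow_le_pow_left₀ (by norm_num) (by positivity) hS
  have hlog8 : Real.log P ≤ 8 * u := by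
    have := Real.log_le_rpow_div (x := (P : ℝ)) (by linarith) (by norm_num : (0 : ℝ) < 1 / 8)
    rw [hu, r8]
    linarith
  -- the sum
  have hsum : ∑ D ∈ (DD X y P).filter (fun D => P ∣ D), Real.log D ^ 2 / D.totient ≤
      32 * Real.log P ^ 2 * ((1.3 / P) * S) := by
    have h1 : ∀ D ∈ (DD X y P).filter (fun D => P ∣ D), Real.log D ^ 2 / D.totient ≤
        32 * Real.log P ^ 2 * wt δ D := by
      intro D hD
      have hD1 := (mem_DD.1 (Finset.mem_filter.1 hD).1).1.1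
      have hDpos : (0 : ℝ) < D := by exact_mod_cast hD1
      have hlogD : 0 ≤ Real.log D := Real.log_nonneg (by exact_mod_cast hD1)
      have hx : 0 ≤ δ * Real.log D := by positivity
      have h2 := Real.quadratic_le_exp_of_nonneg hx
      have h3 : (D : ℝ) ^ δ = Real.exp (δ * Real.log D) := by
        rw [Real.rpow_def_of_pos hDpos, mul_comm]
      have h4 : Real.log D ^ 2 ≤ 32 * Real.log P ^ 2 * (D : ℝ) ^ δ := by
        rw [h3]
        have h5 : (δ * Real.log D) ^ 2 / 2 ≤ Real.exp (δ * Real.log D) := by linarith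
        have h6 : Real.log D ^ 2 = 32 * Real.log P ^ 2 * ((δ * Real.log D) ^ 2 / 2) := by
          rw [hδ]; field_simp; ring
        rw [h6]
        exact mul_le_mul_of_nonneg_left h5 (by positivity)
      rw [wt, ← mul_div_assoc]
      exact div_le_div_of_nonneg_right h4 (by positivity)
    refine (Finset.sum_le_sum h1).trans ?_
    rw [← Finset.mul_sum]
    refine mul_le_mul_of_nonneg_left ?_ (by positivity)
    refine (sum_div_le hP).trans ?_
    refine mul_le_mul_of_nonneg_right ?_ hS0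
    rw [div_le_div_iff₀ (by linarith) (by linarith)]
    nlinarith
  have h5 : 0 < (P : ℝ) * Real.log P := by positivity
  rw [inv_mul_le_iff₀ h5]
  refine hsum.trans ?_
  have h6 : 32 * Real.log P ^ 2 * (1.3 / P * S) ≤
      32 * (Real.log P * (8 * u)) * (1.3 / P * (u ^ 6 / b ^ 6)) := by
    have : Real.log P ^ 2 ≤ Real.log P * (8 * u) := by
      rw [pow_two]; exact mul_le_mul_of_nonneg_left hlog8 hlogP.le
    gcongr
  refine h6.trans ?_
  have h7 : (P : ℝ) * Real.log P * (333 / (b ^ 6 * u ^ 9)) =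
      333 * Real.log P * ((P : ℝ) / (b ^ 6 * u ^ 9)) := by ring
  rw [h7, ← hu8]
  have h8 : 32 * (Real.log (u ^ 8) * (8 * u)) * (1.3 / u ^ 8 * (u ^ 6 / b ^ 6)) =
      332.8 * Real.log (u ^ 8) * (u ^ 8 / (b ^ 6 * u ^ 9)) := by
    field_simp
    ring
  rw [h8]
  have h9 : 0 ≤ Real.log (u ^ 8) := by rw [hu8]; exact hlogP.le
  have h10 : 0 ≤ u ^ 8 / (b ^ 6 * u ^ 9) := by positivity
  nlinarith [mul_nonneg h9 h10]

/-- The largest prime factor. -/
def mp (D : ℕ) : ℕ := D.primeFactors.sup id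

lemma mp_spec {D : ℕ} (hD : 2 ≤ D) : (mp D).Prime ∧ mp D ∣ D ∧
    ∀ q : ℕ, q.Prime → q ∣ D → q ≤ mp D := by
  have h1 : D.primeFactors.Nonempty := Nat.nonempty_primeFactors.2 (by omega)
  obtain ⟨p, hp, he⟩ := Finset.exists_mem_eq_sup _ h1 id
  have h2 : mp D = p := he
  refine ⟨by rw [h2]; exact Nat.prime_of_mem_primeFactors hp,
    by rw [h2]; exact Nat.dvd_of_mem_primeFactors hp, fun q hq hqd => ?_⟩
  exact Finset.le_sup (f := id) (Nat.mem_primeFactors.2 ⟨hq, hqd, by omega⟩)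

end Pool.Agent.U476.NB.Dn
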