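import Pool.Agent.U476.NB.Dens2

/-! The number of zeros among the rough integers. -/

set_option autoImplicit false

namespace Pool.Agent.U476.NB.Dn

open Finset

lemma rough_of_dvd {y N D : ℕ} (h : Rough y N) (hd : D ∣ N) : Rough y D :=
  fun p hp hpd => h p hp (hpd.trans hd)

/-- A zero has a witness. -/
lemma witness (Z : ℕ → Prop) (E : ℕ → ℕ → Prop) (hpp : ∀ p a : ℕ, p.Prime → ¬ Z (p ^ a))
    (h2 : ∀ m p a : ℕ, p.Prime → p ≠ 2 → 0 < m → Nat.Coprime p m → Z (m * p ^ a) → E m p)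
    {y : ℕ} (hy : 2 ≤ y) (N : ℕ) : 1 ≤ N → Rough y N → Z N → ∃ D p : ℕ, 2 ≤ D ∧ Rough y D ∧
      ¬ Z D ∧ p.Prime ∧ E D p ∧ (∀ q : ℕ, q.Prime → q ∣ D → q < p) ∧ D * p ∣ N := by
  induction N using Nat.strong_induction_on with
  | _ N ih =>
    intro h1 hr hz
    have hN1 : N ≠ 1 := by
      rintro rfl
      exact hpp 2 0 Nat.prime_two (by simpa using hz)
    obtain ⟨hp, hpd, hmax⟩ := mp_spec (D := N) (by omega)
    set p := mp N with hpdef
    obtain ⟨a, m, hpm, hN⟩ := Nat.exists_eq_pow_mul_and_not_dvd (n := N) (by omega) p hp.ne_one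
    have hp2 : p ≠ 2 := by
      have := hr p hp hpd
      omega
    have hm0 : 0 < m := by
      rcases Nat.eq_zero_or_pos m with h | h
      · rw [h, mul_zero] at hN; omega
      · exact h
    have ha : a ≠ 0 := by
      rintro rfl
      rw [pow_zero, one_mul] at hN
      exact hpm (hN ▸ hpd)
    have hmN : m ∣ N := Dvd.intro_left _ hN.symm
    by_cases hZm : Z m
    · have hlt : m < N := by
        rw [hN]
        have : 1 < p ^ a := Nat.one_lt_pow ha hp.one_lt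
        nlinarith
      obtain ⟨D, q, d1, d2, d3, d4, d5, d6, d7⟩ := ih m hlt hm0 (rough_of_dvd hr hmN) hZm
      exact ⟨D, q, d1, d2, d3, d4, d5, d6, d7.trans hmN⟩
    · have hcop : Nat.Coprime p m := (Nat.Prime.coprime_iff_not_dvd hp).2 hpm
      have hm2 : 2 ≤ m := by
        by_contra h
        have : m = 1 := by omega
        rw [this, mul_one] at hN
        exact hpp p a hp (hN ▸ hz)
      refine ⟨m, p, hm2, rough_of_dvd hr hmN, hZm, hp,
        h2 m p a hp hp2 hm0 hcop (by rw [mul_comm, ← hN]; exact hz), ?_, ?_⟩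
      · intro q hq hqm
        have h3 := hmax q hq (hqm.trans hmN)
        rcases h3.lt_or_eq with h4 | h4
        · exact h4
        · rw [h4] at hqm
          exact absurd hqm hpm
      · rw [hN, mul_comm]
        exact Nat.mul_dvd_mul_right (dvd_pow_self p ha) m

section count

variable (Z : ℕ → Prop) (E : ℕ → ℕ → Prop)

open Classical in
/-- The relevant `D`. -/
noncomputable def DSet (y X : ℕ) : Finset ℕ :=
  (Finset.Icc 2 X).filter fun D => Rough y D ∧ ¬ Z D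

open Classical in
/-- The relevant primes. -/
noncomputable def FSet (X D : ℕ) : Finset ℕ :=
  (Finset.Icc 1 X).filter fun p => p.Prime ∧ E D p ∧ ∀ q : ℕ, q.Prime → q ∣ D → q < p

open Classical in
noncomputable def Bad (y X : ℕ) : Finset ℕ := (Finset.Icc 1 X).filter fun N => Rough y N ∧ Z N

open Classical in
lemma bad_le (hpp : ∀ p a : ℕ, p.Prime → ¬ Z (p ^ a))
    (h2 : ∀ m p a : ℕ, p.Prime → p ≠ 2 → 0 < m → Nat.Coprime p m → Z (m * p ^ a) → E m p)
    {y : ℕ} (hy : 2 ≤ y) (X : ℕ) : ((Bad Z y X).card : ℝ) ≤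
      X * ∑ D ∈ DSet Z y X, (D : ℝ)⁻¹ * ∑ p ∈ FSet E X D, (p : ℝ)⁻¹ := by
  have hsub : Bad Z y X ⊆ (DSet Z y X).biUnion fun D => (FSet E X D).biUnion fun p =>
      (Finset.Ioc 0 X).filter fun N => D * p ∣ N := by
    intro N hN
    rw [Bad, Finset.mem_filter, Finset.mem_Icc] at hN
    obtain ⟨⟨n1, n2⟩, n3, n4⟩ := hN
    obtain ⟨D, p, d1, d2, d3, d4, d5, d6, d7⟩ := witness Z E hpp h2 hy N n1 n3 n4
    have hle : D * p ≤ N := Nat.le_of_dvd n1 d7
    have hp0 := d4.pos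
    rw [Finset.mem_biUnion]
    refine ⟨D, ?_, ?_⟩
    · rw [DSet, Finset.mem_filter, Finset.mem_Icc]
      exact ⟨⟨d1, by nlinarith⟩, d2, d3⟩
    · rw [Finset.mem_biUnion]
      refine ⟨p, ?_, ?_⟩
      · rw [FSet, Finset.mem_filter, Finset.mem_Icc]
        exact ⟨⟨hp0, by nlinarith⟩, d4, d5, d6⟩
      · rw [Finset.mem_filter, Finset.mem_Ioc]
        exact ⟨⟨n1, n2⟩, d7⟩
  have h3 : ((Bad Z y X).card : ℝ) ≤ ∑ D ∈ DSet Z y X, ∑ p ∈ FSet E X D,
      ((((Finset.Ioc 0 X).filter fun N => D * p ∣ N).card : ℕ) : ℝ) := by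
    have h4 := (Finset.card_le_card hsub).trans Finset.card_biUnion_le
    have h5 : ∑ D ∈ DSet Z y X, ((FSet E X D).biUnion fun p =>
        (Finset.Ioc 0 X).filter fun N => D * p ∣ N).card ≤
        ∑ D ∈ DSet Z y X, ∑ p ∈ FSet E X D, ((Finset.Ioc 0 X).filter fun N => D * p ∣ N).card :=
      Finset.sum_le_sum fun D _ => Finset.card_biUnion_le
    exact_mod_cast h4.trans h5
  refine h3.trans ?_
  rw [Finset.mul_sum]
  refine Finset.sum_le_sum fun D _ => ?_
  rw [← mul_assoc, Finset.mul_sum]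
  refine Finset.sum_le_sum fun p _ => ?_
  rw [Nat.Ioc_filter_dvd_card_eq_div]
  have h6 : ((X / (D * p) : ℕ) : ℝ) ≤ (X : ℝ) / ((D * p : ℕ) : ℝ) := Nat.cast_div_le
  refine h6.trans (le_of_eq ?_)
  push_cast
  rw [div_eq_mul_inv, mul_inv]
  ring

/-- The inner sum. -/
lemma inner_le {G : ℝ} (h3 : ∀ m : ℕ, 2 ≤ m → Odd m → ¬ Z m → ∀ F : Finset ℕ,
      (∀ p ∈ F, p.Prime ∧ E m p) → (m.totient : ℝ) * ∑ p ∈ F, Real.log p ≤ G * (m * Real.log m ^ 2))
    {y X D : ℕ} (hy : 2 ≤ y) (hD : D ∈ DSet Z y X) :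
    (D : ℝ)⁻¹ * ∑ p ∈ FSet E X D, (p : ℝ)⁻¹ ≤
      ((mp D : ℝ) * Real.log (mp D))⁻¹ * (G * (Real.log D ^ 2 / D.totient)) := by
  classical
  rw [DSet, Finset.mem_filter, Finset.mem_Icc] at hD
  obtain ⟨⟨d1, d2⟩, d3, d4⟩ := hD
  obtain ⟨hP, hPd, hmax⟩ := mp_spec d1
  set P := mp D with hPdef
  have hP2 : (2 : ℝ) ≤ P := by exact_mod_cast hP.two_le
  have hlogP : 0 < Real.log P := Real.log_pos (by linarith)
  have hDpos : (0 : ℝ) < D := by
    have : 0 < D := by omega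
    exact_mod_cast this
  have htot : (0 : ℝ) < D.totient := by
    exact_mod_cast Nat.totient_pos.2 (by omega)
  have hodd : Odd D := by
    rw [← Nat.not_even_iff_odd]
    intro he
    have := d3 2 Nat.prime_two he.two_dvd
    omega
  have hF := h3 D d1 hodd d4 (FSet E X D) (fun p hp => by
    rw [FSet, Finset.mem_filter] at hp
    exact ⟨hp.2.1, hp.2.2.1⟩)
  have h4 : ∀ p ∈ FSet E X D, (p : ℝ)⁻¹ ≤ ((P : ℝ) * Real.log P)⁻¹ * Real.log p := by
    intro p hp
    rw [FSet, Finset.mem_filter] at hp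
    have h5 : P < p := hp.2.2.2 P hP hPd
    have h6 : (P : ℝ) < p := by exact_mod_cast h5
    have h7 : Real.log P ≤ Real.log p := Real.log_le_log (by linarith) h6.le
    rw [inv_mul_eq_div, inv_eq_one_div, div_le_div_iff₀ (by linarith) (by positivity)]
    nlinarith [mul_le_mul h6.le h7 hlogP.le (by linarith : (0:ℝ) ≤ p)]
  have h5 : ∑ p ∈ FSet E X D, (p : ℝ)⁻¹ ≤
      ((P : ℝ) * Real.log P)⁻¹ * ∑ p ∈ FSet E X D, Real.log p := by
    rw [Finset.mul_sum]
    exact Finset.sum_le_sum h4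
  have h6 : ∑ p ∈ FSet E X D, Real.log p ≤ G * (D * Real.log D ^ 2) / D.totient := by
    rw [le_div_iff₀ htot, mul_comm]; exact hF
  have h7 : 0 < ((P : ℝ) * Real.log P)⁻¹ := by positivity
  calc (D : ℝ)⁻¹ * ∑ p ∈ FSet E X D, (p : ℝ)⁻¹
      ≤ (D : ℝ)⁻¹ * (((P : ℝ) * Real.log P)⁻¹ * (G * (D * Real.log D ^ 2) / D.totient)) := by
        refine mul_le_mul_of_nonneg_left (h5.trans ?_) (by positivity)
        exact mul_le_mul_of_nonneg_left h6 h7.le
    _ = _ := by field_simp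

theorem bad_count {G : ℝ} (hG : 0 ≤ G) (hpp : ∀ p a : ℕ, p.Prime → ¬ Z (p ^ a))
    (h2 : ∀ m p a : ℕ, p.Prime → p ≠ 2 → 0 < m → Nat.Coprime p m → Z (m * p ^ a) → E m p)
    (h3 : ∀ m : ℕ, 2 ≤ m → Odd m → ¬ Z m → ∀ F : Finset ℕ,
      (∀ p ∈ F, p.Prime ∧ E m p) → (m.totient : ℝ) * ∑ p ∈ F, Real.log p ≤ G * (m * Real.log m ^ 2))
    {y : ℕ} (hy : 100 ≤ y) (X : ℕ) :
    ((Bad Z y X).card : ℝ) ≤ X * (G * (2700 / r8 y ^ 7)) := by
  classical
  rcases Nat.lt_or_ge X y with hXy | hXy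
  · -- no rough numbers at all except `1`
    have : Bad Z y X = ∅ := by
      rw [Finset.eq_empty_iff_forall_notMem]
      intro N hN
      rw [Bad, Finset.mem_filter, Finset.mem_Icc] at hN
      obtain ⟨⟨n1, n2⟩, n3, n4⟩ := hN
      have hN1 : N ≠ 1 := by
        rintro rfl
        exact hpp 2 0 Nat.prime_two (by simpa using n4)
      obtain ⟨p, hp, hpd⟩ := Nat.exists_prime_and_dvd hN1
      have := n3 p hp hpd
      have := Nat.le_of_dvd n1 hpd
      omega
    rw [this, Finset.card_empty]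
    have hy0 : (0 : ℝ) < y := by
      have : 0 < y := by omega
      exact_mod_cast this
    have := r8_pos hy0
    push_cast
    positivity
  have h4 := bad_le Z E hpp h2 (by omega : 2 ≤ y) X
  refine h4.trans (mul_le_mul_of_nonneg_left ?_ (Nat.cast_nonneg X))
  refine (Finset.sum_le_sum fun D hD => inner_le Z E h3 (by omega) hD).trans ?_
  have hmaps : ∀ D ∈ DSet Z y X, mp D ∈ Finset.Ioc y X := by
    intro D hD
    rw [DSet, Finset.mem_filter, Finset.mem_Icc] at hD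
    obtain ⟨⟨d1, d2⟩, d3, d4⟩ := hD
    obtain ⟨hP, hPd, hmax⟩ := mp_spec d1
    rw [Finset.mem_Ioc]
    exact ⟨d3 _ hP hPd, (Nat.le_of_dvd (by omega) hPd).trans d2⟩
  rw [← Finset.sum_fiberwise_of_maps_to hmaps]
  have hy1 : (99 : ℝ) ≤ (y : ℝ) - 1 := by
    have : (100 : ℝ) ≤ y := by exact_mod_cast hy
    linarith
  have hyr : (0 : ℝ) < y := by linarith
  set b := r8 ((y : ℝ) - 1) with hb
  set ry := r8 (y : ℝ) with hry
  have hb0 : 0 < b := r8_pos (by linarith)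
  have hry0 : 0 < ry := r8_pos hyr
  have h5 : ∀ P ∈ Finset.Ioc y X,
      ∑ D ∈ (DSet Z y X).filter (fun D => mp D = P),
        ((mp D : ℝ) * Real.log (mp D))⁻¹ * (G * (Real.log D ^ 2 / D.totient)) ≤
      G * (333 / b ^ 6) * (r8 P ^ 9)⁻¹ := by
    intro P hP
    rw [Finset.mem_Ioc] at hP
    have hPr : 0 < r8 (P : ℝ) := r8_pos (by
      have : 0 < P := by omega
      exact_mod_cast this)
    by_cases hPp : P.Prime
    · have h6 : ∑ D ∈ (DSet Z y X).filter (fun D => mp D = P),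
          ((mp D : ℝ) * Real.log (mp D))⁻¹ * (G * (Real.log D ^ 2 / D.totient)) =
          G * (((P : ℝ) * Real.log P)⁻¹ * ∑ D ∈ (DSet Z y X).filter (fun D => mp D = P),
            Real.log D ^ 2 / D.totient) := by
        rw [Finset.mul_sum, Finset.mul_sum]
        refine Finset.sum_congr rfl fun D hD => ?_
        rw [(Finset.mem_filter.1 hD).2]
        ring
      rw [h6]
      have h7 : ∑ D ∈ (DSet Z y X).filter (fun D => mp D = P), Real.log D ^ 2 / D.totient ≤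
          ∑ D ∈ (DD X y P).filter (fun D => P ∣ D), Real.log D ^ 2 / (D.totient : ℝ) := by
        refine Finset.sum_le_sum_of_subset_of_nonneg ?_ fun _ _ _ => by positivity
        intro D hD
        obtain ⟨h8, h9⟩ := Finset.mem_filter.1 hD
        rw [DSet, Finset.mem_filter, Finset.mem_Icc] at h8
        obtain ⟨⟨d1, d2⟩, d3, d4⟩ := h8
        obtain ⟨hP', hPd, hmax⟩ := mp_spec d1
        rw [Finset.mem_filter]
        refine ⟨mem_DD.2 ⟨⟨by omega, d2⟩, fun q hq hqd => ⟨d3 q hq hqd, ?_⟩⟩, h9 ▸ hPd⟩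
        rw [← h9]; exact hmax q hq hqd
      have hlogP : 0 ≤ Real.log P := Real.log_natCast_nonneg P
      have h8 := per_prime (X := X) hy hPp hP.1
      have h9 : ((P : ℝ) * Real.log P)⁻¹ * ∑ D ∈ (DSet Z y X).filter (fun D => mp D = P),
          Real.log D ^ 2 / D.totient ≤ 333 / (b ^ 6 * r8 P ^ 9) :=
        (mul_le_mul_of_nonneg_left h7 (by positivity)).trans h8
      refine (mul_le_mul_of_nonneg_left h9 hG).trans (le_of_eq ?_)
      field_simp
    · have h6 : (DSet Z y X).filter (fun D => mp D = P) = ∅ := by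
        rw [Finset.eq_empty_iff_forall_notMem]
        intro D hD
        obtain ⟨h8, h9⟩ := Finset.mem_filter.1 hD
        rw [DSet, Finset.mem_filter, Finset.mem_Icc] at h8
        exact hPp (h9 ▸ (mp_spec h8.1.1).1)
      rw [h6, Finset.sum_empty]
      positivity
  refine (Finset.sum_le_sum h5).trans ?_
  rw [← Finset.mul_sum]
  have h6 := tail y (by omega) X hXy
  have hX0 : 0 ≤ (r8 (X : ℝ))⁻¹ := inv_nonneg.2 (r8_nonneg (Nat.cast_nonneg X))
  have h7 : ∑ k ∈ Finset.Ioc y X, (r8 (k : ℝ) ^ 9)⁻¹ ≤ 8 * ry⁻¹ := by linarith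
  have h8 : 0 ≤ G * (333 / b ^ 6) := by positivity
  refine (mul_le_mul_of_nonneg_left h7 h8).trans ?_
  -- compare `b` and `ry`
  have hb8 : b ^ 8 = (y : ℝ) - 1 := r8_pow (by linarith)
  have hry8 : ry ^ 8 = y := r8_pow hyr.le
  have hbry : b ≤ ry := r8_mono (by linarith) (by linarith)
  have h9 : 0.99 * ry ^ 6 ≤ b ^ 6 := by
    have h10 : 0.99 * ry ^ 8 ≤ b ^ 8 := by
      rw [hb8, hry8]; linarith
    have h11 : b ^ 8 ≤ b ^ 6 * ry ^ 2 := by
      have : b ^ 8 = b ^ 6 * b ^ 2 := by ring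
      rw [this]
      exact mul_le_mul_of_nonneg_left (pow_le_pow_left₀ hb0.le hbry 2) (by positivity)
    have h12 : 0.99 * ry ^ 6 * ry ^ 2 ≤ b ^ 6 * ry ^ 2 := by
      calc 0.99 * ry ^ 6 * ry ^ 2 = 0.99 * ry ^ 8 := by ring
        _ ≤ _ := h10.trans h11
    exact le_of_mul_le_mul_right h12 (by positivity)
  have h10 : G * (333 / b ^ 6) * (8 * ry⁻¹) = G * (2664 / (b ^ 6 * ry)) := by
    field_simp; ring
  rw [h10]
  refine mul_le_mul_of_nonneg_left ?_ hG
  rw [div_le_div_iff₀ (by positivity) (by positivity)]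
  have h11 : 0 < ry ^ 7 := by positivity
  have h12 : 0.99 * ry ^ 7 ≤ b ^ 6 * ry := by
    calc 0.99 * ry ^ 7 = 0.99 * ry ^ 6 * ry := by ring
      _ ≤ _ := mul_le_mul_of_nonneg_right h9 hry0.le
  nlinarith

end count

end Pool.Agent.U476.NB.Dn
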