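import Pool.Agent.U476.NB.Dens3

/-! The density of rough integers, and the positive proportion theorem. -/

set_option autoImplicit false

namespace Pool.Agent.U476.NB.Dn

open Finset

/-- The product of `1 - 1 / p` over the primes up to `y`. -/
noncomputable def cc (y : ℕ) : ℝ := ∏ p ∈ (range (y + 1)).filter Nat.Prime, (1 - (p : ℝ)⁻¹)

lemma cc_succ (y : ℕ) : cc (y + 1) = (if (y + 1).Prime then 1 - ((y + 1 : ℕ) : ℝ)⁻¹ else 1) * cc y := by
  rw [cc, cc, Finset.range_add_one, Finset.filter_insert]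
  split_ifs with h
  · rw [Finset.prod_insert (by simp)]
  · rw [one_mul]

lemma cc_one : cc 1 = 1 := by
  rw [cc]
  have : (range (1 + 1)).filter Nat.Prime = ∅ := by decide
  rw [this, Finset.prod_empty]

lemma cc_sq (y : ℕ) : 1 ≤ y → 1 / (4 * (y : ℝ)) ≤ cc y ^ 2 := by
  induction y using Nat.strong_induction_on with
  | _ y ih =>
    intro hy
    have c2 : cc 2 = 1 / 2 := by
      rw [cc_succ 1, cc_one, if_pos Nat.prime_two]; norm_num
    have c3 : cc 3 = 1 / 3 := by
      rw [cc_succ 2, c2, if_pos Nat.prime_three]; norm_num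
    rcases Nat.lt_or_ge y 4 with h | h
    · interval_cases y
      · rw [cc_one]; norm_num
      · rw [c2]; norm_num
      · rw [c3]; norm_num
    · obtain ⟨l, rfl⟩ : ∃ l, y = l + 1 := ⟨y - 1, by omega⟩
      by_cases hp : (l + 1).Prime
      · have hl : ¬ l.Prime := by
          intro hl
          rcases hl.eq_two_or_odd with h' | h'
          · omega
          · rcases hp.eq_two_or_odd with h'' | h'' <;> omega
        obtain ⟨m, rfl⟩ : ∃ m, l = m + 1 := ⟨l - 1, by omega⟩
        rw [cc_succ (m + 1), if_pos hp, cc_succ m, if_neg hl, one_mul, mul_pow]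
        have h1 := ih m (by omega) (by omega)
        set K : ℝ := ((m + 1 + 1 : ℕ) : ℝ) with hK
        have hKm : (m : ℝ) = K - 2 := by rw [hK]; push_cast; ring
        have hK4 : (4 : ℝ) ≤ K := by rw [hK]; exact_mod_cast h
        rw [hKm] at h1
        refine le_trans ?_ (mul_le_mul_of_nonneg_left h1 (by positivity))
        have e : (1 - K⁻¹) ^ 2 * (1 / (4 * (K - 2))) = (K - 1) ^ 2 / (K ^ 2 * (4 * (K - 2))) := by
          field_simp
        rw [e, div_le_div_iff₀ (by linarith) (by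
          have : 0 < K - 2 := by linarith
          positivity)]
        nlinarith
      · rw [cc_succ l, if_neg hp, one_mul]
        refine le_trans ?_ (ih l (by omega) (by omega))
        have hl0 : (0 : ℝ) < l := by
          have : 0 < l := by omega
          exact_mod_cast this
        apply div_le_div_of_nonneg_left (by norm_num) (by positivity)
        push_cast; linarith

lemma cc_pos (y : ℕ) : 0 < cc y := by
  rw [cc]
  refine Finset.prod_pos fun p hp => ?_
  have := (Finset.mem_filter.1 hp).2.two_le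
  have h1 : (2 : ℝ) ≤ p := by exact_mod_cast this
  have h2 : (p : ℝ)⁻¹ ≤ 2⁻¹ := inv_anti₀ (by norm_num) h1
  norm_num at h2
  linarith

lemma cc_ge {y : ℕ} (hy : 1 ≤ y) : 1 / (2 * r8 y ^ 4) ≤ cc y := by
  have hy0 : (0 : ℝ) < y := by exact_mod_cast hy
  have h1 := cc_sq y hy
  have h2 : 1 / (4 * (y : ℝ)) = (1 / (2 * r8 y ^ 4)) ^ 2 := by
    nth_rewrite 1 [← r8_pow hy0.le]
    rw [div_pow, mul_pow, ← pow_mul]
    norm_num
  rw [h2] at h1
  exact le_of_sq_le_sq h1 (cc_pos y).le |> fun h => h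

/-- The primorial. -/
def QQ (y : ℕ) : ℕ := ∏ p ∈ (range (y + 1)).filter Nat.Prime, p

lemma QQ_succ (y : ℕ) : QQ (y + 1) = (if (y + 1).Prime then y + 1 else 1) * QQ y := by
  rw [QQ, QQ, Finset.range_add_one, Finset.filter_insert]
  split_ifs with h
  · rw [Finset.prod_insert (by simp)]
  · rw [one_mul]

lemma QQ_pos (y : ℕ) : 0 < QQ y :=
  Finset.prod_pos fun p hp => (Finset.mem_filter.1 hp).2.pos

lemma prime_dvd_QQ {p y : ℕ} (hp : p.Prime) : p ∣ QQ y ↔ p ≤ y := by
  rw [QQ, hp.prime.dvd_finset_prod_iff]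
  constructor
  · rintro ⟨q, hq, hpq⟩
    obtain ⟨h1, h2⟩ := Finset.mem_filter.1 hq
    rw [(Nat.prime_dvd_prime_iff_eq hp h2).1 hpq]
    have := Finset.mem_range.1 h1
    omega
  · intro h
    exact ⟨p, Finset.mem_filter.2 ⟨Finset.mem_range.2 (by omega), hp⟩, dvd_refl p⟩

lemma totient_QQ (y : ℕ) : ((QQ y).totient : ℝ) = QQ y * cc y := by
  induction y with
  | zero =>
    have h1 : QQ 0 = 1 := by
      rw [QQ]
      have : (range (0 + 1)).filter Nat.Prime = ∅ := by decide
      rw [this, Finset.prod_empty]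
    have h2 : cc 0 = 1 := by
      rw [cc]
      have : (range (0 + 1)).filter Nat.Prime = ∅ := by decide
      rw [this, Finset.prod_empty]
    rw [h1, h2]; simp
  | succ y ih =>
    rw [QQ_succ, cc_succ]
    split_ifs with h
    · have hcop : Nat.Coprime (y + 1) (QQ y) := by
        rw [Nat.Prime.coprime_iff_not_dvd h, prime_dvd_QQ h]
        omega
      rw [Nat.totient_mul hcop, Nat.totient_prime h]
      push_cast
      rw [ih]
      have : (y + 1 : ℝ) ≠ 0 := by positivity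
      field_simp
      push_cast
      ring
    · rw [one_mul, one_mul, ih]

lemma rough_iff {y N : ℕ} : Rough y N ↔ Nat.Coprime (QQ y) N := by
  constructor
  · intro h
    rw [Nat.coprime_iff_gcd_eq_one]
    by_contra h1
    obtain ⟨p, hp, hpd⟩ := Nat.exists_prime_and_dvd h1
    have h2 := hpd.trans (Nat.gcd_dvd_left _ _)
    have h3 := hpd.trans (Nat.gcd_dvd_right _ _)
    rw [prime_dvd_QQ hp] at h2
    have := h p hp h3
    omega
  · intro h p hp hpd
    by_contra h1
    have h2 : p ∣ QQ y := (prime_dvd_QQ hp).2 (by omega)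
    have h3 := Nat.dvd_gcd h2 hpd
    rw [h] at h3
    exact hp.one_lt.ne' (Nat.dvd_one.1 h3)

open Classical in
lemma rough_count (y X : ℕ) : (X : ℝ) * cc y - QQ y ≤
    (((Finset.Icc 1 X).filter fun N => Rough y N).card : ℝ) := by
  have hblock : ∀ j : ℕ, ((Finset.Ico 1 (1 + j * QQ y)).filter
      fun N => Nat.Coprime (QQ y) N).card = j * (QQ y).totient := by
    intro j
    induction j with
    | zero => simp
    | succ j ih =>
      have h1 : Finset.Ico 1 (1 + (j + 1) * QQ y) = Finset.Ico 1 (1 + j * QQ y) ∪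
          Finset.Ico (1 + j * QQ y) (1 + j * QQ y + QQ y) := by
        rw [Finset.Ico_union_Ico_eq_Ico (by omega) (by omega)]
        congr 1; ring
      have h2 : Disjoint ((Finset.Ico 1 (1 + j * QQ y)).filter fun N => Nat.Coprime (QQ y) N)
          ((Finset.Ico (1 + j * QQ y) (1 + j * QQ y + QQ y)).filter
            fun N => Nat.Coprime (QQ y) N) :=
        Finset.disjoint_filter_filter (Finset.Ico_disjoint_Ico_consecutive _ _ _)
      rw [h1, Finset.filter_union, Finset.card_union_of_disjoint h2, ih,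
        Nat.filter_coprime_Ico_eq_totient]
      ring
  have hQ := QQ_pos y
  have hsub : ((Finset.Ico 1 (1 + X / QQ y * QQ y)).filter fun N => Nat.Coprime (QQ y) N) ⊆
      (Finset.Icc 1 X).filter fun N => Rough y N := by
    intro N hN
    obtain ⟨h1, h2⟩ := Finset.mem_filter.1 hN
    rw [Finset.mem_Ico] at h1
    have := Nat.div_mul_le_self X (QQ y)
    exact Finset.mem_filter.2 ⟨Finset.mem_Icc.2 ⟨h1.1, by omega⟩, rough_iff.2 h2⟩
  have h3 := Finset.card_le_card hsub
  rw [hblock] at h3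
  have h4 : (((X / QQ y) * (QQ y).totient : ℕ) : ℝ) ≤
      (((Finset.Icc 1 X).filter fun N => Rough y N).card : ℝ) := by exact_mod_cast h3
  refine le_trans ?_ h4
  push_cast
  rw [totient_QQ]
  have hQr : (0 : ℝ) < QQ y := by exact_mod_cast hQ
  have h5 : (X : ℝ) - QQ y ≤ ((X / QQ y : ℕ) : ℝ) * QQ y := by
    have := Nat.lt_div_mul_add hQ (a := X)
    have h6 : (X : ℝ) < ((X / QQ y : ℕ) : ℝ) * QQ y + QQ y := by exact_mod_cast this
    linarith
  have hc1 : cc y ≤ 1 := by
    have h7 := totient_QQ y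
    have h8 : ((QQ y).totient : ℝ) ≤ QQ y := by exact_mod_cast Nat.totient_le _
    rw [h7] at h8
    exact (mul_le_iff_le_one_right hQr).1 h8
  have hc0 := cc_pos y
  calc (X : ℝ) * cc y - QQ y ≤ (X - QQ y) * cc y := by nlinarith
    _ ≤ (((X / QQ y : ℕ) : ℝ) * QQ y) * cc y := mul_le_mul_of_nonneg_right h5 hc0.le
    _ = _ := by ring

section main

variable (Z : ℕ → Prop) (E : ℕ → ℕ → Prop)

/-- Among the rough integers almost all are no zeros. -/
theorem rough_main {G : ℝ} (hG : 0 ≤ G) (hpp : ∀ p a : ℕ, p.Prime → ¬ Z (p ^ a))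
    (h2 : ∀ m p a : ℕ, p.Prime → p ≠ 2 → 0 < m → Nat.Coprime p m → Z (m * p ^ a) → E m p)
    (h3 : ∀ m : ℕ, 2 ≤ m → Odd m → ¬ Z m → ∀ F : Finset ℕ,
      (∀ p ∈ F, p.Prime ∧ E m p) → (m.totient : ℝ) * ∑ p ∈ F, Real.log p ≤ G * (m * Real.log m ^ 2))
    {ε : ℝ} (hε : 0 < ε) : ∃ y₀ : ℕ, ∀ y : ℕ, y₀ ≤ y → ∀ X : ℕ,
      ((Bad Z y X).card : ℝ) ≤ ε * (cc y * X) := by
  obtain ⟨k, hk⟩ := exists_nat_ge ((5400 * G / ε) ^ 8)
  refine ⟨max 100 k, fun y hy X => ?_⟩
  have hy100 : 100 ≤ y := (le_max_left _ _).trans hy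
  have hyk : k ≤ y := (le_max_right _ _).trans hy
  have hy1 : (1 : ℝ) ≤ y := by
    have : 1 ≤ y := by omega
    exact_mod_cast this
  have h4 := bad_count Z E hG hpp h2 h3 hy100 X
  have hr1 : 1 ≤ r8 (y : ℝ) := r8_ge_one hy1
  have hr : 5400 * G / ε ≤ r8 (y : ℝ) := by
    have h5 : (5400 * G / ε) ^ 8 ≤ r8 (y : ℝ) ^ 8 := by
      rw [r8_pow (by linarith)]
      exact hk.trans (by exact_mod_cast hyk)
    exact le_of_pow_le_pow_left₀ (by norm_num) (by linarith) h5
  have hc := cc_ge (y := y) (by omega)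
  set r := r8 (y : ℝ) with hrd
  have hr0 : 0 < r := by linarith
  have h5 : G * (2700 / r ^ 7) ≤ ε * cc y := by
    refine le_trans ?_ (mul_le_mul_of_nonneg_left hc hε.le)
    rw [div_le_iff₀ hε] at hr
    rw [← mul_div_assoc, mul_one_div, div_le_div_iff₀ (by positivity) (by positivity)]
    have h6 : r ≤ r ^ 3 := by nlinarith [sq_nonneg (r - 1), sq_nonneg r]
    have h7 : 0 < r ^ 4 := by positivity
    calc G * 2700 * (2 * r ^ 4) = (5400 * G) * r ^ 4 := by ring
      _ ≤ (r * ε) * r ^ 4 := mul_le_mul_of_nonneg_right hr h7.le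
      _ ≤ (r ^ 3 * ε) * r ^ 4 :=
        mul_le_mul_of_nonneg_right (mul_le_mul_of_nonneg_right h6 hε.le) h7.le
      _ = ε * r ^ 7 := by ring
  have hX : (0 : ℝ) ≤ X := Nat.cast_nonneg X
  calc ((Bad Z y X).card : ℝ) ≤ X * (G * (2700 / r ^ 7)) := h4
    _ ≤ X * (ε * cc y) := mul_le_mul_of_nonneg_left h5 hX
    _ = _ := by ring

open Classical in
/-- A positive proportion of the integers are no zeros. -/
theorem positive_main {G : ℝ} (hG : 0 ≤ G) (hpp : ∀ p a : ℕ, p.Prime → ¬ Z (p ^ a))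
    (h2 : ∀ m p a : ℕ, p.Prime → p ≠ 2 → 0 < m → Nat.Coprime p m → Z (m * p ^ a) → E m p)
    (h3 : ∀ m : ℕ, 2 ≤ m → Odd m → ¬ Z m → ∀ F : Finset ℕ,
      (∀ p ∈ F, p.Prime ∧ E m p) → (m.totient : ℝ) * ∑ p ∈ F, Real.log p ≤ G * (m * Real.log m ^ 2)) :
    ∃ c : ℝ, 0 < c ∧ ∃ X₀ : ℕ, ∀ X : ℕ, X₀ ≤ X →
      c * X ≤ (((Finset.Icc 1 X).filter fun N => ¬ Z N).card : ℝ) := by
  obtain ⟨y, hy⟩ := rough_main Z E hG hpp h2 h3 (ε := 1 / 2) (by norm_num)
  have h4 := hy y le_rfl
  have hc := cc_pos y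
  obtain ⟨X₀, hX₀⟩ := exists_nat_ge ((QQ y : ℝ) / (cc y / 4))
  refine ⟨cc y / 4, by positivity, X₀, fun X hX => ?_⟩
  have h5 := rough_count y X
  have h6 := h4 X
  have h7 : (((Finset.Icc 1 X).filter fun N => Rough y N).card : ℝ) ≤
      ((Bad Z y X).card : ℝ) + (((Finset.Icc 1 X).filter fun N => ¬ Z N).card : ℝ) := by
    have h8 : ((Finset.Icc 1 X).filter fun N => Rough y N) ⊆
        Bad Z y X ∪ ((Finset.Icc 1 X).filter fun N => ¬ Z N) := by
      intro N hN
      obtain ⟨h9, h10⟩ := Finset.mem_filter.1 hN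
      rw [Finset.mem_union]
      by_cases hz : Z N
      · left
        rw [Bad, Finset.mem_filter]
        exact ⟨h9, h10, hz⟩
      · right
        exact Finset.mem_filter.2 ⟨h9, hz⟩
    have h9 := (Finset.card_le_card h8).trans (Finset.card_union_le _ _)
    exact_mod_cast h9
  have h8 : (QQ y : ℝ) ≤ cc y / 4 * X := by
    rw [div_le_iff₀ (by positivity)] at hX₀
    have : (X₀ : ℝ) ≤ X := by exact_mod_cast hX
    nlinarith
  nlinarith

end main

end Pool.Agent.U476.NB.Dn
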