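import Pool.Agent.U476.NB.Cls

/-! If the invariant of colour `m p ^ a` vanishes then `p` divides the invariant of colour `m`. -/

set_option autoImplicit false

namespace Pool.Agent.U476.NB

open Finset NumberField
open Pool.Agent.H550R3.Jones (cjones br brf crossP crossN gen rep)

section ring

variable {O : Type} [CommRing O]

lemma nilp_one {p : ℕ} (hp : p.Prime) (hp2 : p ≠ 2) (a : ℕ) (η : O) (h : η ^ p ^ a = 1) :
    η - 1 ∈ (Ideal.span {(p : O)}).radical := by
  obtain ⟨r, hr⟩ := exists_add_pow_prime_pow_eq hp η (-1 : O) a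
  have hodd : Odd (p ^ a) := (hp.odd_of_ne_two hp2).pow
  rw [h, hodd.neg_one_pow] at hr
  refine Ideal.mem_radical_iff.2 ⟨p ^ a, ?_⟩
  rw [sub_eq_add_neg, hr]
  refine Ideal.mem_span_singleton.2 ⟨η * -1 * r, ?_⟩
  ring

lemma isUnit_natCast_of_coprime {p m : ℕ} (h : Nat.Coprime p m) {B : Type} [CommRing B]
    (hB : (p : B) = 0) : IsUnit (m : B) := by
  have h1 := Nat.gcd_eq_gcd_ab p m
  rw [h.gcd_eq_one] at h1
  have h2 := congrArg (fun z : ℤ => (z : B)) h1
  push_cast at h2
  rw [hB, zero_mul, zero_add] at h2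
  exact IsUnit.of_mul_eq_one _ h2.symm

theorem key {p m a n : ℕ} (hp : p.Prime) (hp2 : p ≠ 2) (hm : 0 < m) (hpm : Nat.Coprime p m)
    (w : List (ℕ × Bool)) (hw : ∀ k : Fin (n + 1), ∃ i : ℕ, (perm (n + 1) w ^ i) 0 = k)
    (u ω η : Oˣ) (hu : u ^ (m * p ^ a) = -1) (hω : ω ^ m = -1) (hη : η ^ p ^ a = 1)
    (huω : ω = u * η)
    (hdvd : ∀ k : ℕ, 0 < k → k < m → ∃ c : O, (1 - (ω : O) ^ (2 * k)) * c = m)
    (h0 : cj (m * p ^ a) n w u = 0) : (p : O) ∣ cj m n w ω := by
  -- nilpotent modulo `p`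
  have hrad : cj m n w ω ∈ (Ideal.span {(p : O)}).radical := by
    set I := (Ideal.span {(p : O)}).radical with hI
    set π := Ideal.Quotient.mk I with hπ
    have hp0 : ((p : ℕ) : O ⧸ I) = 0 := by
      rw [← map_natCast π, Ideal.Quotient.eq_zero_iff_mem]
      exact Ideal.le_radical (Ideal.mem_span_singleton_self _)
    set β : (O ⧸ I)ˣ := Units.map (π : O →* O ⧸ I) ω with hβ
    have hη1 : Units.map (π : O →* O ⧸ I) η = 1 := by
      apply Units.ext
      rw [Units.coe_map, Units.val_one]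
      have h1 : (η : O) ^ p ^ a = 1 := by
        rw [← Units.val_pow_eq_pow_val, hη, Units.val_one]
      have h2 := nilp_one hp hp2 a (η : O) h1
      have h3 : π (η : O) - 1 = 0 := by
        rw [← map_one π, ← map_sub, Ideal.Quotient.eq_zero_iff_mem]
        exact h2
      exact sub_eq_zero.1 h3
    have hβu : Units.map (π : O →* O ⧸ I) u = β := by
      rw [hβ, huω, map_mul, hη1, mul_one]
    have hβm : β ^ m = -1 := by
      rw [hβ, ← map_pow, hω]
      apply Units.ext
      simp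
    have hβN : β ^ (m * p ^ a) = -1 := by
      rw [← hβu, ← map_pow, hu]
      apply Units.ext
      simp
    have hle : m ≤ m * p ^ a := Nat.le_mul_of_pos_right m (pow_pos hp.pos a)
    have hpar : β ^ (m * p ^ a - m) = 1 := by
      have h1 : β ^ (m * p ^ a - m) * β ^ m = β ^ (m * p ^ a) := by
        rw [← pow_add]; congr 1; omega
      rw [hβm, hβN] at h1
      calc β ^ (m * p ^ a - m) = β ^ (m * p ^ a - m) * -1 * -1 := by
            rw [mul_assoc]; simp
        _ = 1 := by rw [h1]; simp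
    have hmu : IsUnit ((m : ℕ) : O ⧸ I) := isUnit_natCast_of_coprime hpm hp0
    have hun : ∀ k : ℕ, 0 < k → k < m → IsUnit (gbr β k) := by
      intro k hk hkm
      obtain ⟨c, hc⟩ := hdvd k hk hkm
      have h1 : (1 - (β : O ⧸ I) ^ (2 * k)) * π c = m := by
        have h2 := congrArg π hc
        rw [map_mul, map_sub, map_one, map_pow, map_natCast] at h2
        exact h2
      have h2 : IsUnit (1 - (β : O ⧸ I) ^ (2 * k)) := by
        rw [← h1] at hmu
        exact isUnit_of_mul_isUnit_left hmu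
      have h3 : gbr β k = -((β ^ (-(k : ℤ)) : (O ⧸ I)ˣ) : O ⧸ I) *
          (1 - (β : O ⧸ I) ^ (2 * k)) := by
        rw [gbr]
        have h4 : (β : O ⧸ I) ^ (2 * k) = ((β ^ (2 * (k : ℤ)) : (O ⧸ I)ˣ) : O ⧸ I) := by
          rw [← Units.val_pow_eq_pow_val]
          congr 1
        rw [h4, mul_sub, mul_one, neg_mul, ← Units.val_mul, ← zpow_add]
        have h5 : -(k : ℤ) + 2 * k = k := by ring
        rw [h5]
        ring
      rw [h3]
      exact ((Units.isUnit _).neg).mul h2
    have h1 := cj_cls m (m * p ^ a) hm hle β hβN hβm hpar (Dvd.intro _ rfl) hun n w hw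
    have h2 := map_cj π (m * p ^ a) n w u
    have h3 := map_cj π m n w ω
    rw [hβu, h0, map_zero] at h2
    rw [← hβ, ← h1, ← h2] at h3
    exact Ideal.Quotient.eq_zero_iff_mem.1 h3
  -- reduced modulo `p`
  obtain ⟨s, hs⟩ := Ideal.mem_radical_iff.1 hrad
  rw [← Ideal.mem_span_singleton]
  set J := Ideal.span {(p : O)} with hJ
  rcases subsingleton_or_nontrivial (O ⧸ J) with hsub | hnt
  · exact Ideal.Quotient.eq_zero_iff_mem.1 (Subsingleton.elim _ _)
  have hp0 : ((p : ℕ) : O ⧸ J) = 0 := by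
    rw [← map_natCast (Ideal.Quotient.mk J), Ideal.Quotient.eq_zero_iff_mem]
    exact Ideal.mem_span_singleton_self _
  have : Fact p.Prime := ⟨hp⟩
  have hchar : CharP (O ⧸ J) p := (CharP.charP_iff_prime_eq_zero hp).2 hp0
  set f := (2 * m).totient with hf
  have hf0 : 0 < f := Nat.totient_pos.2 (by omega)
  have hcop : Nat.Coprime p (2 * m) := by
    refine Nat.Coprime.mul_right ?_ hpm
    exact (Nat.coprime_primes hp Nat.prime_two).2 hp2
  have hmod : p ^ f ≡ 1 [MOD 2 * m] := Nat.ModEq.pow_totient hcop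
  have hω2 : ω ^ (2 * m) = 1 := by
    rw [mul_comm, pow_mul, hω]; simp
  have hωf : ω ^ p ^ f = ω := by
    have h1 : 1 ≤ p ^ f := Nat.one_le_pow _ _ hp.pos
    obtain ⟨c, hc⟩ := (Nat.modEq_iff_dvd' h1).1 hmod.symm
    have h2 : p ^ f = 2 * m * c + 1 := by omega
    rw [h2, pow_succ, pow_mul, hω2, one_pow, one_mul]
  set π := Ideal.Quotient.mk J with hπ
  set F : O →+* O ⧸ J := (iterateFrobenius (O ⧸ J) p f).comp π with hF
  have hFω : Units.map (F : O →* O ⧸ J) ω = Units.map (π : O →* O ⧸ J) ω := by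
    apply Units.ext
    rw [Units.coe_map, Units.coe_map]
    change (π (ω : O)) ^ p ^ f = π (ω : O)
    rw [← map_pow, ← Units.val_pow_eq_pow_val, hωf]
  have h1 : F (cj m n w ω) = π (cj m n w ω) := by
    rw [map_cj, map_cj, hFω]
  have h2 : (π (cj m n w ω)) ^ p ^ f = π (cj m n w ω) := h1
  have h3 : ∀ k : ℕ, (π (cj m n w ω)) ^ (p ^ f) ^ k = π (cj m n w ω) := by
    intro k
    induction k with
    | zero => rw [pow_zero, pow_one]
    | succ k ih => rw [pow_succ, pow_mul, ih, h2]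
  have h4 : (π (cj m n w ω)) ^ s = 0 := by
    rw [← map_pow, Ideal.Quotient.eq_zero_iff_mem]
    exact hs
  have h5 : s ≤ (p ^ f) ^ s := by
    have : 1 < p ^ f := Nat.one_lt_pow (by omega) hp.one_lt
    exact (Nat.lt_pow_self this).le
  have h6 : π (cj m n w ω) = 0 := by
    rw [← h3 s]
    obtain ⟨d, hd⟩ := Nat.exists_eq_add_of_le h5
    rw [hd, pow_add, h4, zero_mul]
  exact Ideal.Quotient.eq_zero_iff_mem.1 h6

end ring

end Pool.Agent.U476.NB
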