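import Pool.Agent.U476.NB.Div

/-! Divisibility of the invariants over the complex numbers. -/

set_option autoImplicit false

namespace Pool.Agent.U476.NB

open Finset NumberField
open Pool.Agent.H550R3.Jones (cjones br brf crossP crossN gen rep)

lemma emb2 {K : Type} [Field K] [NumberField K] (ω : (𝓞 K)ˣ) (m n : ℕ) (w : List (ℕ × Bool))
    (σ : K →ₐ[ℚ] ℂ) (h2 : IsPrimitiveRoot (σ ((ω : 𝓞 K) : K)) (2 * m)) :
    σ ((cj m n w ω : 𝓞 K) : K) = cjones m n w (σ ((ω : 𝓞 K) : K)) := by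
  have h1 : σ ((cj m n w ω : 𝓞 K) : K) =
    ((σ : K →+* ℂ).comp (algebraMap (𝓞 K) K)) (cj m n w ω) := rfl
  rw [h1, map_cj]
  have h3 : ((Units.map (((σ : K →+* ℂ).comp (algebraMap (𝓞 K) K) : 𝓞 K →+* ℂ) :
      𝓞 K →* ℂ) ω : ℂˣ) : ℂ) = σ ((ω : 𝓞 K) : K) := rfl
  rw [cj_eq _ (N := m) (by rw [h3]; exact fun k h0 hk => br_ne_prim h2 k h0 hk), h3]

lemma coprime_of_mod {x n : ℕ} (h : x % n = 1) : Nat.Coprime x n := by
  rw [Nat.Coprime, Nat.gcd_comm, Nat.gcd_rec, h, Nat.gcd_one_left]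

theorem div_aux {p m a n : ℕ} (hp : p.Prime) (hp2 : p ≠ 2) (hm : 0 < m) (hpm : Nat.Coprime p m)
    (w : List (ℕ × Bool)) (hw : ∀ k : Fin (n + 1), ∃ i : ℕ, (perm (n + 1) w ^ i) 0 = k)
    (K : Type) [Field K] [NumberField K] [NeZero (2 * (m * p ^ a))]
    [IsCyclotomicExtension {2 * (m * p ^ a)} ℚ K] (μ₀ : ℂ)
    (hμ₀ : μ₀ ∈ primitiveRoots (2 * (m * p ^ a)) ℂ) (h0 : cjones (m * p ^ a) n w μ₀ = 0) (μ : ℂ)
    (hμ : μ ∈ primitiveRoots (2 * m) ℂ) : IsIntegral ℤ (cjones m n w μ / p) := by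
  have hζ : IsPrimitiveRoot (IsCyclotomicExtension.zeta (2 * (m * p ^ a)) ℚ K)
      (2 * (m * p ^ a)) := IsCyclotomicExtension.zeta_spec (2 * (m * p ^ a)) ℚ K
  set ζ := IsCyclotomicExtension.zeta (2 * (m * p ^ a)) ℚ K with hζd
  have hirr : Irreducible (Polynomial.cyclotomic (2 * (m * p ^ a)) ℚ) :=
    Polynomial.cyclotomic.irreducible_rat (Nat.pos_of_neZero _)
  have hpa : 0 < p ^ a := pow_pos hp.pos a
  have hemb : ∀ ξ ∈ primitiveRoots (2 * (m * p ^ a)) ℂ, ∃ σ : K →ₐ[ℚ] ℂ, σ ζ = ξ := by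
    intro ξ hξ
    obtain ⟨σ, hs⟩ := (hζ.embeddingsEquivPrimitiveRoots ℂ hirr).surjective ⟨ξ, hξ⟩
    refine ⟨σ, ?_⟩
    have := congrArg Subtype.val hs
    rwa [IsPrimitiveRoot.embeddingsEquivPrimitiveRoots_apply_coe] at this
  set u : (𝓞 K)ˣ := uu hζ with hud
  have hu1 : ((u : (𝓞 K)ˣ) : 𝓞 K) = hζ.toInteger := IsUnit.unit_spec _
  have hup : IsPrimitiveRoot ((u : (𝓞 K)ˣ) : 𝓞 K) (2 * (m * p ^ a)) := by
    rw [hu1]; exact hζ.toInteger_isPrimitiveRoot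
  have hup' : IsPrimitiveRoot u (2 * (m * p ^ a)) := IsPrimitiveRoot.coe_units_iff.1 hup
  -- the zero in the ring of integers
  have hz : cj (m * p ^ a) n w u = 0 := by
    obtain ⟨σ, hσ⟩ := hemb μ₀ hμ₀
    have h1 := emb hζ (m * p ^ a) n le_rfl w σ
    rw [hσ, h0] at h1
    have h2 := (map_eq_zero_iff σ.toRingHom σ.toRingHom.injective).1 h1
    exact_mod_cast h2
  have hcop : Nat.Coprime (p ^ a) (2 * m) := by
    refine Nat.Coprime.pow_left a (Nat.Coprime.mul_right ?_ hpm)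
    exact (Nat.coprime_primes hp Nat.prime_two).2 hp2
  obtain ⟨x, -, hx⟩ := Nat.exists_mul_mod_eq_one_of_coprime hcop (by omega : 1 < 2 * m)
  have hxc : Nat.Coprime x (2 * m) := (coprime_of_mod hx).coprime_mul_left
  have hxodd : Odd x := by
    exact Nat.coprime_two_right.1 hxc.coprime_mul_right_right
  have h2r : 2 * (m * p ^ a) = p ^ a * (2 * m) := by ring
  have hωp : IsPrimitiveRoot (u ^ (p ^ a * x)) (2 * m) := by
    rw [pow_mul]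
    exact (hup'.pow (Nat.pos_of_neZero _) h2r).pow_of_coprime x hxc
  have hur : u ^ (m * p ^ a) = -1 := by
    have h1 : ((u : 𝓞 K)) ^ (m * p ^ a) = -1 := by
      have h2 : ((u : 𝓞 K) ^ (m * p ^ a) - 1) * ((u : 𝓞 K) ^ (m * p ^ a) + 1) = 0 := by
        have := hup.pow_eq_one
        rw [two_mul, pow_add] at this
        linear_combination this
      rcases mul_eq_zero.1 h2 with h | h
      · have h3 : 0 < m * p ^ a := Nat.mul_pos hm hpa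
        exact absurd (sub_eq_zero.1 h) (hup.pow_ne_one_of_pos_of_lt (by omega) (by omega))
      · exact eq_neg_of_add_eq_zero_left h
    apply Units.ext
    rw [Units.val_pow_eq_pow_val, h1]
    simp
  have hω : (u ^ (p ^ a * x)) ^ m = -1 := by
    rw [← pow_mul, show p ^ a * x * m = (m * p ^ a) * x by ring, pow_mul, hur]
    exact hxodd.neg_one_pow
  obtain ⟨c, hc⟩ : ∃ c, p ^ a * x = 2 * m * c + 1 :=
    ⟨p ^ a * x / (2 * m), by have := Nat.div_add_mod (p ^ a * x) (2 * m); omega⟩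
  have hη : (u ^ (2 * m * c)) ^ p ^ a = 1 := by
    rw [← pow_mul, show 2 * m * c * p ^ a = 2 * (m * p ^ a) * c by ring, pow_mul,
      hup'.pow_eq_one, one_pow]
  have huω : u ^ (p ^ a * x) = u * u ^ (2 * m * c) := by
    rw [hc, pow_succ']
  have hdvd : ∀ k : ℕ, 0 < k → k < m → ∃ c : 𝓞 K,
      (1 - ((u ^ (p ^ a * x) : (𝓞 K)ˣ) : 𝓞 K) ^ (2 * k)) * c = m := by
    intro k hk hkm
    obtain ⟨l, rfl⟩ : ∃ l, m = l + 1 := ⟨m - 1, by omega⟩
    have h1 : IsPrimitiveRoot (((u ^ (p ^ a * x) : (𝓞 K)ˣ) : 𝓞 K) ^ 2) (l + 1) :=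
      (IsPrimitiveRoot.coe_units_iff.2 hωp).pow (by omega) rfl
    have h2 := IsPrimitiveRoot.prod_one_sub_pow_eq_order h1
    have h3 : (1 - (((u ^ (p ^ a * x) : (𝓞 K)ˣ) : 𝓞 K) ^ 2) ^ (k - 1 + 1)) ∣
        ∏ k ∈ range l, (1 - (((u ^ (p ^ a * x) : (𝓞 K)ˣ) : 𝓞 K) ^ 2) ^ (k + 1)) :=
      Finset.dvd_prod_of_mem _ (mem_range.2 (by omega))
    obtain ⟨c, hc⟩ := h3
    refine ⟨c, ?_⟩
    rw [h2, show k - 1 + 1 = k by omega, ← pow_mul] at hc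
    rw [← hc]
    push_cast
    rfl
  obtain ⟨z, hz2⟩ := key hp hp2 hm hpm w hw u (u ^ (p ^ a * x)) (u ^ (2 * m * c)) hur hω hη huω
    hdvd hz
  -- the embedding
  have hξ := Complex.isPrimitiveRoot_exp (2 * (m * p ^ a)) (NeZero.ne _)
  set ξ := Complex.exp (2 * Real.pi * Complex.I / ((2 * (m * p ^ a) : ℕ) : ℂ)) with hξd
  have hρ : IsPrimitiveRoot (ξ ^ (p ^ a * x)) (2 * m) := by
    rw [pow_mul]
    exact (hξ.pow (Nat.pos_of_neZero _) h2r).pow_of_coprime x hxc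
  have hμ' := isPrimitiveRoot_of_mem_primitiveRoots hμ
  have : NeZero (2 * m) := ⟨by omega⟩
  obtain ⟨j, hj, hjc, hjμ⟩ := hρ.isPrimitiveRoot_iff.1 hμ'
  obtain ⟨j', hj'1, hj'2⟩ := Nat.chineseRemainder hcop.symm j 1
  have hj'c : Nat.Coprime j' (2 * (m * p ^ a)) := by
    rw [h2r]
    refine Nat.Coprime.mul_right ?_ ?_
    · have : Nat.gcd j' (p ^ a) = Nat.gcd 1 (p ^ a) := hj'2.gcd_eq
      rw [Nat.Coprime, this, Nat.gcd_one_left]
    · have : Nat.gcd j' (2 * m) = Nat.gcd j (2 * m) := hj'1.gcd_eq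
      rw [Nat.Coprime, this, hjc.gcd_eq_one]
  have hξ' : ξ ^ j' ∈ primitiveRoots (2 * (m * p ^ a)) ℂ := by
    rw [mem_primitiveRoots (Nat.pos_of_neZero _)]
    exact hξ.pow_of_coprime j' hj'c
  obtain ⟨σ, hσ⟩ := hemb _ hξ'
  have hσω : σ (((u ^ (p ^ a * x) : (𝓞 K)ˣ) : 𝓞 K) : K) = μ := by
    have h1 : (((u ^ (p ^ a * x) : (𝓞 K)ˣ) : 𝓞 K) : K) = ζ ^ (p ^ a * x) := by
      rw [Units.val_pow_eq_pow_val, hu1]
      change (algebraMap (𝓞 K) K) (hζ.toInteger ^ (p ^ a * x)) = ζ ^ (p ^ a * x)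
      rw [map_pow]
      rfl
    rw [h1, map_pow, hσ, ← pow_mul, mul_comm, pow_mul, ← hjμ]
    have h2 := (hρ.pow_eq_one)
    have h3 : ∀ i : ℕ, (ξ ^ (p ^ a * x)) ^ i = (ξ ^ (p ^ a * x)) ^ (i % (2 * m)) := by
      intro i
      conv_lhs => rw [← Nat.div_add_mod i (2 * m), pow_add, pow_mul, h2, one_pow, one_mul]
    rw [h3 j', h3 j, hj'1]
  have h4 := emb2 (u ^ (p ^ a * x)) m n w σ (by rw [hσω]; exact hμ')
  rw [hσω, hz2] at h4
  rw [← h4]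
  have hp0 : (p : ℂ) ≠ 0 := by exact_mod_cast hp.ne_zero
  have h5 : σ ((((p : 𝓞 K) * z : 𝓞 K)) : K) / p = σ (z : K) := by
    have e : (((p : 𝓞 K) * z : 𝓞 K) : K) = (p : K) * (z : K) := by
      change (algebraMap (𝓞 K) K) ((p : 𝓞 K) * z) = (p : K) * (z : K)
      rw [map_mul, map_natCast]
    rw [e, map_mul, map_natCast]
    field_simp
  rw [h5]
  exact (RingOfIntegers.isIntegral_coe z).map (σ.restrictScalars ℤ)

/-- If the invariant of colour `m p ^ a` vanishes then `p` divides the invariant of colour `m`. -/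
theorem div_int {p m a n : ℕ} (hp : p.Prime) (hp2 : p ≠ 2) (hm : 0 < m) (hpm : Nat.Coprime p m)
    (w : List (ℕ × Bool)) (hw : ∀ k : Fin (n + 1), ∃ i : ℕ, (perm (n + 1) w ^ i) 0 = k)
    (μ₀ : ℂ) (hμ₀ : μ₀ ∈ primitiveRoots (2 * (m * p ^ a)) ℂ)
    (h0 : cjones (m * p ^ a) n w μ₀ = 0) (μ : ℂ)
    (hμ : μ ∈ primitiveRoots (2 * m) ℂ) : IsIntegral ℤ (cjones m n w μ / p) := by
  have h1 : 0 < m * p ^ a := Nat.mul_pos hm (pow_pos hp.pos a)
  have : NeZero (2 * (m * p ^ a)) := ⟨by omega⟩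
  exact @div_aux p m a n hp hp2 hm hpm w hw (CyclotomicField (2 * (m * p ^ a)) ℚ) _ _ _
    (cyc_inst (m * p ^ a) h1) μ₀ hμ₀ h0 μ hμ

end Pool.Agent.U476.NB
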