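import Pool.Agent.U476.NB.Four

/-! Averages of the maxima of `|log |(1 - q) ⋯ (1 - q ^ k)||`. -/

set_option autoImplicit false

namespace Pool.Agent.U476.NB

open Finset ZMod

noncomputable section

def WW (N : ℕ) [NeZero N] (q : ℂ) : ℝ :=
  (N : ℝ)⁻¹ * ∑ h : ZMod N, |FF h| * (2 / ‖1 - q ^ h.val‖)

lemma geom_le (z : ℂ) (hz : ‖z‖ = 1) (h1 : z ≠ 1) (k : ℕ) :
    ‖∑ t ∈ range k, z ^ (t + 1)‖ ≤ 2 / ‖1 - z‖ := by
  have h2 : 0 < ‖1 - z‖ := norm_pos_iff.2 (sub_ne_zero.2 h1.symm)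
  rw [le_div_iff₀ h2, ← norm_mul]
  have h3 : (∑ t ∈ range k, z ^ (t + 1)) * (1 - z) = z * (1 - z ^ k) := by
    have := geom_sum_mul z k
    have e : ∑ t ∈ range k, z ^ (t + 1) = z * ∑ t ∈ range k, z ^ t := by
      rw [Finset.mul_sum]
      exact Finset.sum_congr rfl fun t _ => by ring
    rw [e]
    linear_combination (-z) * this
  rw [h3, norm_mul, hz, one_mul]
  refine (norm_sub_le _ _).trans ?_
  rw [norm_pow, hz, one_pow, norm_one]
  norm_num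

theorem sudler (N : ℕ) [NeZero N] (hN2 : 2 ≤ N) (q : ℂ) (hq : IsPrimitiveRoot q N) (k : ℕ)
    (hk : k < N) : |∑ t ∈ range k, Real.log ‖1 - q ^ (t + 1)‖| ≤ WW N q := by
  have hN : (0 : ℝ) < N := by exact_mod_cast Nat.pos_of_neZero N
  obtain ⟨i, hi, hiq⟩ := (prim_one (N := N)).eq_pow_of_pow_eq_one hq.pow_eq_one
  have hqa : q = stdAddChar (i : ZMod N) := by
    rw [← hiq, ← char_nat, mul_one]
  set a : ZMod N := (i : ZMod N) with ha
  have hqn : ‖q‖ = 1 := by rw [hqa]; exact char_norm a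
  have hpow : ∀ n : ℕ, q ^ n = stdAddChar ((n : ZMod N) * a) := by
    intro n; rw [char_nat, hqa]
  have h1 : ∀ t ∈ range k, Real.log ‖1 - q ^ (t + 1)‖ = ff (((t + 1 : ℕ) : ZMod N) * a) := by
    intro t ht
    have ht' := mem_range.1 ht
    have h2 : q ^ (t + 1) ≠ 1 := hq.pow_ne_one_of_pos_of_lt (by omega) (by omega)
    rw [ff, if_neg, ss, ← hpow]
    intro h3
    apply h2
    rw [hpow, h3, AddChar.map_zero_eq_one]
  rw [Finset.sum_congr rfl h1]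
  have h4 : ∀ (h : ZMod N) (t : ℕ), CC (h * (((t + 1 : ℕ) : ZMod N) * a)) =
      ((q ^ h.val) ^ (t + 1)).re := by
    intro h t
    rw [CC, hpow, ← char_nat]
    congr 2
    rw [ZMod.natCast_zmod_val]
    ring
  have h5 : N * ∑ t ∈ range k, ff (((t + 1 : ℕ) : ZMod N) * a) =
      ∑ h : ZMod N, FF h * (∑ t ∈ range k, (q ^ h.val) ^ (t + 1)).re := by
    rw [Finset.mul_sum]
    simp only [← FF_inv, h4, Complex.re_sum, Finset.mul_sum]
    rw [Finset.sum_comm]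
  have h6 : ∑ t ∈ range k, ff (((t + 1 : ℕ) : ZMod N) * a) =
      (N : ℝ)⁻¹ * ∑ h : ZMod N, FF h * (∑ t ∈ range k, (q ^ h.val) ^ (t + 1)).re := by
    rw [← h5]
    field_simp
  rw [h6, WW, abs_mul, abs_of_pos (inv_pos.2 hN)]
  refine mul_le_mul_of_nonneg_left ?_ (inv_pos.2 hN).le
  refine (Finset.abs_sum_le_sum_abs _ _).trans (Finset.sum_le_sum fun h _ => ?_)
  rw [abs_mul]
  rcases eq_or_ne h 0 with rfl | hh
  · rw [FF_zero hN2, abs_zero, zero_mul, zero_mul]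
  · refine mul_le_mul_of_nonneg_left ?_ (abs_nonneg _)
    refine (Complex.abs_re_le_norm _).trans (geom_le _ (by rw [norm_pow, hqn, one_pow]) ?_ _)
    have h0 : 0 < h.val := Nat.pos_of_ne_zero fun h1 => hh ((ZMod.val_eq_zero h).1 h1)
    exact hq.pow_ne_one_of_pos_of_lt (by omega) (ZMod.val_lt h)

lemma sum_prim {M : ℕ} (hM : 0 < M) {z : ℂ} (hz : IsPrimitiveRoot z M) (G : ℂ → ℝ) :
    ∑ k ∈ range M, G (z ^ k) = ∑ ω ∈ Polynomial.nthRootsFinset M (1 : ℂ), G ω := by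
  have : NeZero M := ⟨hM.ne'⟩
  refine Finset.sum_nbij (fun k => z ^ k) ?_ ?_ ?_ ?_
  · intro k _
    rw [Polynomial.mem_nthRootsFinset hM, ← pow_mul, mul_comm, pow_mul, hz.pow_eq_one, one_pow]
  · intro k hk l hl h
    exact hz.pow_inj (mem_range.1 hk) (mem_range.1 hl) h
  · intro ω hω
    obtain ⟨i, hi, h⟩ := hz.eq_pow_of_pow_eq_one ((Polynomial.mem_nthRootsFinset hM _).1 hω)
    exact ⟨i, by simpa using hi, h⟩
  · intro k _; rfl

lemma T1 {M : ℕ} (hM : 0 < M) {z : ℂ} (hz : IsPrimitiveRoot z M) :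
    ∑ k ∈ range M, 2 / ‖1 - z ^ k‖ ≤ M * (1 + Real.log M) := by
  obtain ⟨m, rfl⟩ : ∃ m, M = m + 1 := ⟨M - 1, by omega⟩
  have hm : (0 : ℝ) < (m + 1 : ℕ) := by positivity
  rw [sum_prim hM hz (fun w => 2 / ‖1 - w‖), ← sum_prim hM (prim_one (N := m + 1))
    (fun w => 2 / ‖1 - w‖), Finset.sum_range_succ']
  simp only [pow_zero, sub_self, norm_zero, div_zero, add_zero]
  have h1 : ∀ k ∈ range m, 2 / ‖1 - stdAddChar (1 : ZMod (m + 1)) ^ (k + 1)‖ ≤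
      ((m + 1 : ℕ) : ℝ) / 2 * (((k + 1 : ℕ) : ℝ)⁻¹ + ((m - k : ℕ) : ℝ)⁻¹) := by
    intro k hk
    have hk' := mem_range.1 hk
    have h2 : ‖1 - stdAddChar (1 : ZMod (m + 1)) ^ (k + 1)‖ =
        2 * Real.sin (Real.pi * ((k + 1 : ℕ) : ℝ) / ((m + 1 : ℕ) : ℝ)) := by
      have h3 := ss_eq (N := m + 1) ((k + 1 : ℕ) : ZMod (m + 1))
      rw [ss, ZMod.val_cast_of_lt (by omega), ← mul_one (((k + 1 : ℕ) : ZMod (m + 1))),
        char_nat] at h3
      exact h3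
    have h4 := sin_ge (m + 1) (k + 1) (by omega) (by omega)
    have h5 : ((m + 1 : ℕ) : ℝ) - ((k + 1 : ℕ) : ℝ) = ((m - k : ℕ) : ℝ) := by
      rw [Nat.cast_sub hk'.le]; push_cast; ring
    rw [h5] at h4
    have p1 : (0 : ℝ) < ((k + 1 : ℕ) : ℝ) := by positivity
    have p2 : (0 : ℝ) < ((m - k : ℕ) : ℝ) := by
      have : 0 < m - k := by omega
      exact_mod_cast this
    have p3 : 0 < min ((k + 1 : ℕ) : ℝ) ((m - k : ℕ) : ℝ) := lt_min p1 p2
    rw [h2]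
    have h6 : 2 / (2 * Real.sin (Real.pi * ((k + 1 : ℕ) : ℝ) / ((m + 1 : ℕ) : ℝ))) ≤
        2 / (2 * (2 * min ((k + 1 : ℕ) : ℝ) ((m - k : ℕ) : ℝ) / ((m + 1 : ℕ) : ℝ))) := by
      apply div_le_div_of_nonneg_left (by norm_num) (by positivity)
      linarith
    refine h6.trans ?_
    have h7 : 2 / (2 * (2 * min ((k + 1 : ℕ) : ℝ) ((m - k : ℕ) : ℝ) / ((m + 1 : ℕ) : ℝ))) =
        ((m + 1 : ℕ) : ℝ) / 2 * (min ((k + 1 : ℕ) : ℝ) ((m - k : ℕ) : ℝ))⁻¹ := by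
      field_simp
    rw [h7]
    refine mul_le_mul_of_nonneg_left ?_ (by positivity)
    rcases min_choice ((k + 1 : ℕ) : ℝ) ((m - k : ℕ) : ℝ) with h | h <;> rw [h]
    · have := inv_pos.2 p2; linarith
    · have := inv_pos.2 p1; linarith
  refine (Finset.sum_le_sum h1).trans ?_
  rw [← Finset.mul_sum, Finset.sum_add_distrib]
  have h8 : ∑ k ∈ range m, ((m - k : ℕ) : ℝ)⁻¹ = ∑ k ∈ range m, ((k + 1 : ℕ) : ℝ)⁻¹ := by
    rw [← Finset.sum_range_reflect]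
    refine Finset.sum_congr rfl fun k hk => ?_
    have := mem_range.1 hk
    congr 2
    omega
  have h9 : ∑ k ∈ range m, ((k + 1 : ℕ) : ℝ)⁻¹ = ((harmonic m : ℚ) : ℝ) := by
    rw [harmonic]; push_cast; rfl
  have h10 := harmonic_le_one_add_log m
  have h11 : Real.log m ≤ Real.log ((m + 1 : ℕ) : ℝ) := by
    rcases Nat.eq_zero_or_pos m with rfl | h
    · simp
    · exact Real.log_le_log (by exact_mod_cast h) (by push_cast; linarith)
  rw [h8, h9]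
  have : ((m + 1 : ℕ) : ℝ) / 2 * (((harmonic m : ℚ) : ℝ) + ((harmonic m : ℚ) : ℝ)) =
      ((m + 1 : ℕ) : ℝ) * ((harmonic m : ℚ) : ℝ) := by ring
  rw [this]
  exact mul_le_mul_of_nonneg_left (by linarith) hm.le

lemma sum_periodic (g : ℕ → ℝ) (M : ℕ) (hg : ∀ x, g (x + M) = g x) (d : ℕ) :
    ∑ k ∈ range (M * d), g k = d * ∑ k ∈ range M, g k := by
  have h1 : ∀ d x, g (M * d + x) = g x := by
    intro d
    induction d with
    | zero => intro x; rw [mul_zero, zero_add]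
    | succ d ih => intro x; rw [show M * (d + 1) + x = (M * d + x) + M by ring, hg, ih]
  induction d with
  | zero => simp
  | succ d ih =>
    rw [mul_add, mul_one, Finset.sum_range_add, ih]
    simp only [h1]
    push_cast
    ring

lemma T2 {L M : ℕ} (hL : 0 < L) {z : ℂ} (hz : IsPrimitiveRoot z M) (h : M ∣ L) :
    ∑ k ∈ range L, 2 / ‖1 - z ^ k‖ ≤ L * (1 + Real.log M) := by
  obtain ⟨d, rfl⟩ := h
  have hM : 0 < M := Nat.pos_of_mul_pos_right hL |> fun h => (by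
    rcases Nat.eq_zero_or_pos M with h0 | h0
    · rw [h0, zero_mul] at hL; omega
    · exact h0)
  rw [sum_periodic (fun k => 2 / ‖1 - z ^ k‖) M
    (fun x => by simp only [pow_add, hz.pow_eq_one, mul_one]) d]
  have := T1 hM hz
  push_cast
  calc (d : ℝ) * ∑ k ∈ range M, 2 / ‖1 - z ^ k‖ ≤ d * (M * (1 + Real.log M)) :=
        mul_le_mul_of_nonneg_left this (by positivity)
    _ = _ := by ring

lemma T3 {N : ℕ} (hN : 0 < N) (m : ℕ) :
    ∑ μ ∈ primitiveRoots (2 * N) ℂ, 2 / ‖1 - (μ ^ 2) ^ m‖ ≤ 2 * N * (1 + Real.log N) := by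
  have hN2 : 0 < 2 * N := by omega
  have : NeZero (2 * N) := ⟨by omega⟩
  have h1 : primitiveRoots (2 * N) ℂ ⊆ Polynomial.nthRootsFinset (2 * N) (1 : ℂ) := by
    intro μ hμ
    rw [Polynomial.mem_nthRootsFinset hN2]
    exact (isPrimitiveRoot_of_mem_primitiveRoots hμ).pow_eq_one
  refine (Finset.sum_le_sum_of_subset_of_nonneg h1 fun _ _ _ => by positivity).trans ?_
  have hζ := prim_one (N := 2 * N)
  rw [← sum_prim hN2 hζ (fun μ => 2 / ‖1 - (μ ^ 2) ^ m‖)]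
  set ζ : ℂ := stdAddChar (1 : ZMod (2 * N)) with hζd
  have h2 : ∀ k : ℕ, ((ζ ^ k) ^ 2) ^ m = (ζ ^ (2 * m)) ^ k := by
    intro k
    rw [← pow_mul, ← pow_mul, ← pow_mul]
    congr 1; ring
  simp only [h2]
  have h3 : (ζ ^ (2 * m)) ^ N = 1 := by
    rw [← pow_mul, show 2 * m * N = 2 * N * m by ring, pow_mul, hζ.pow_eq_one, one_pow]
  have h4 : orderOf (ζ ^ (2 * m)) ∣ N := orderOf_dvd_of_pow_eq_one h3
  have h5 : 0 < orderOf (ζ ^ (2 * m)) := Nat.pos_of_dvd_of_pos h4 hN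
  have h6 := T2 hN2 (IsPrimitiveRoot.orderOf (ζ ^ (2 * m))) (h4.trans (Dvd.intro_left 2 rfl))
  refine h6.trans ?_
  push_cast
  refine mul_le_mul_of_nonneg_left ?_ (by positivity)
  have := Real.log_le_log (x := (orderOf (ζ ^ (2 * m)) : ℝ)) (y := N) (by exact_mod_cast h5)
    (by exact_mod_cast Nat.le_of_dvd hN h4)
  linarith

theorem sum_WW (N : ℕ) [NeZero N] (hN2 : 2 ≤ N) :
    ∑ μ ∈ primitiveRoots (2 * N) ℂ, WW N (μ ^ 2) ≤ 2 * N * Real.log N * (1 + Real.log N) := by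
  have hN : (0 : ℝ) < N := by exact_mod_cast Nat.pos_of_neZero N
  simp only [WW]
  rw [← Finset.mul_sum, Finset.sum_comm]
  have h1 : ∑ h : ZMod N, ∑ μ ∈ primitiveRoots (2 * N) ℂ, |FF h| * (2 / ‖1 - (μ ^ 2) ^ h.val‖) ≤
      ∑ h : ZMod N, |FF h| * (2 * N * (1 + Real.log N)) := by
    refine Finset.sum_le_sum fun h _ => ?_
    rw [← Finset.mul_sum]
    exact mul_le_mul_of_nonneg_left (T3 (Nat.pos_of_neZero N) _) (abs_nonneg _)
  rw [← Finset.sum_mul, FF_abs_sum hN2] at h1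
  calc _ ≤ (N : ℝ)⁻¹ * (N * Real.log N * (2 * N * (1 + Real.log N))) :=
        mul_le_mul_of_nonneg_left h1 (by positivity)
    _ = _ := by field_simp

end

end Pool.Agent.U476.NB
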