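import Pool.Agent.U476.NB.Norm
import Pool.Agent.U476.NB.Sud

/-! Upper bounds at the primitive `2N`-th roots of unity. -/

set_option autoImplicit false

namespace Pool.Agent.U476.NB

open Finset
open Pool.Agent.H550R3.Jones (cjones br brf crossP crossN gen rep)


lemma brf_add (v : ℂ) (a m : ℕ) :
    brf v (a + m) = brf v a * ∏ t ∈ range m, br v ((a : ℤ) + 1 + t) := by
  rw [Pool.Agent.H550R3.Jones.brf, Pool.Agent.H550R3.Jones.brf, Finset.prod_range_add]
  congr 1
  refine Finset.prod_congr rfl fun t _ => ?_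
  congr 1
  push_cast
  ring

section prim

variable {r N : ℕ} {v : ℂ} (hv : IsPrimitiveRoot v (2 * r)) (hr : 2 ≤ r) (hN : N ≤ r)

include hv hr

lemma v_norm : ‖v‖ = 1 := Complex.norm_eq_one_of_pow_eq_one hv.pow_eq_one (by omega)

lemma v_ne : v ≠ 0 := hv.ne_zero (by omega)

lemma q_prim : IsPrimitiveRoot (v ^ 2) r :=
  hv.pow (by omega) rfl

lemma br_norm (k : ℕ) : ‖br v k‖ = ‖1 - (v ^ 2) ^ k‖ := by
  have h0 := v_ne hv hr
  have h1 : br v k = -(v ^ (-(k : ℤ))) * (1 - (v ^ 2) ^ k) := by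
    rw [Pool.Agent.H550R3.Jones.br, ← pow_mul, pow_mul', pow_two, zpow_neg, zpow_natCast]
    field_simp
    ring
  rw [h1, norm_mul, norm_neg, norm_zpow, v_norm hv hr, one_zpow, one_mul]

omit hr in
lemma brf_pos (k : ℕ) (hk : k < r) : 0 < ‖brf v k‖ :=
  norm_pos_iff.2 (brf_ne (N := r) (br_ne_prim hv) k hk)

lemma brf_log [NeZero r] (k : ℕ) (hk : k < r) :
    |Real.log ‖brf v k‖| ≤ WW r (v ^ 2) := by
  have h1 := sudler r hr (v ^ 2) (q_prim hv hr) k hk
  have h2 : Real.log ‖brf v k‖ = ∑ t ∈ range k, Real.log ‖1 - (v ^ 2) ^ (t + 1)‖ := by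
    rw [Pool.Agent.H550R3.Jones.brf, norm_prod, Real.log_prod]
    · refine Finset.sum_congr rfl fun t _ => ?_
      rw [← br_norm hv hr]
      push_cast
      rfl
    · intro t ht
      have ht' := mem_range.1 ht
      have := br_ne_prim hv (t + 1) (by omega) (by omega)
      rw [norm_ne_zero_iff]
      exact_mod_cast this
  rw [h2]
  exact h1

lemma brf_le [NeZero r] (k : ℕ) (hk : k < r) :
    ‖brf v k‖ ≤ Real.exp (WW r (v ^ 2)) := by
  rw [← Real.log_le_iff_le_exp (brf_pos hv k hk)]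
  exact (le_abs_self _).trans (brf_log hv hr k hk)

lemma brf_inv_le [NeZero r] (k : ℕ) (hk : k < r) :
    ‖brf v k‖⁻¹ ≤ Real.exp (WW r (v ^ 2)) := by
  have h0 := brf_pos hv k hk
  rw [← Real.log_le_iff_le_exp (inv_pos.2 h0), Real.log_inv]
  exact (neg_le_abs _).trans (brf_log hv hr k hk)

include hN

lemma fac_le [NeZero r] (p1 q2 q1 m : ℕ) (h1 : p1 < N) (h2 : q2 < N) (h3 : q1 < N)
    (hm : m ≤ q1) :
    ‖brf v p1 / (brf v q2 * brf v m) * ∏ t ∈ range m, br v ((N : ℤ) - q1 + t)‖ ≤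
      Real.exp (WW r (v ^ 2)) ^ 5 := by
  have e1 : ∏ t ∈ range m, br v ((N : ℤ) - q1 + t) =
      brf v ((N - q1 - 1) + m) * (brf v (N - q1 - 1))⁻¹ := by
    have e2 : ∏ t ∈ range m, br v ((N : ℤ) - q1 + t) =
        ∏ t ∈ range m, br v (((N - q1 - 1 : ℕ) : ℤ) + 1 + t) := by
      refine Finset.prod_congr rfl fun t _ => ?_
      congr 1
      omega
    rw [e2, brf_add]
    have := brf_ne (N := r) (br_ne_prim hv) (N - q1 - 1) (by omega)
    field_simp
  rw [e1, div_eq_mul_inv, mul_inv, norm_mul, norm_mul, norm_mul, norm_mul, norm_inv, norm_inv,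
    norm_inv]
  set E := Real.exp (WW r (v ^ 2)) with hE
  have hE0 : 0 ≤ E := (Real.exp_pos _).le
  have a1 := brf_le hv hr p1 (by omega)
  have a2 := brf_inv_le hv hr q2 (by omega)
  have a3 := brf_inv_le hv hr m (by omega)
  have a4 := brf_le hv hr ((N - q1 - 1) + m) (by omega)
  have a5 := brf_inv_le hv hr (N - q1 - 1) (by omega)
  rw [← hE] at a1 a2 a3 a4 a5
  calc ‖brf v p1‖ * (‖brf v q2‖⁻¹ * ‖brf v m‖⁻¹) *
        (‖brf v ((N - q1 - 1) + m)‖ * ‖brf v (N - q1 - 1)‖⁻¹)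
      ≤ E * (E * E) * (E * E) := by gcongr
    _ = E ^ 5 := by ring

lemma XP_le [NeZero r] (p q : Fin N × Fin N) :
    ‖crossP N v p q‖ ≤ if (p.1 : ℕ) + p.2 = q.1 + q.2 then Real.exp (WW r (v ^ 2)) ^ 5 else 0 := by
  rw [Pool.Agent.H550R3.Jones.crossP]
  by_cases hc : (p.1 : ℕ) + p.2 = q.1 + q.2
  · rw [if_pos hc]
    split_ifs with h
    · rw [mul_assoc, norm_mul, norm_mul, norm_zpow, norm_pow, v_norm hv hr, one_zpow, one_pow,
        one_mul, one_mul]
      exact fac_le hv hr hN _ _ _ _ p.1.2 q.2.2 q.1.2 (by omega)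
    · rw [norm_zero]; positivity
  · rw [if_neg hc, if_neg (fun h => hc h.1), norm_zero]

lemma XN_le [NeZero r] (p q : Fin N × Fin N) :
    ‖crossN N v p q‖ ≤ if (p.1 : ℕ) + p.2 = q.1 + q.2 then Real.exp (WW r (v ^ 2)) ^ 5 else 0 := by
  rw [Pool.Agent.H550R3.Jones.crossN]
  by_cases hc : (p.1 : ℕ) + p.2 = q.1 + q.2
  · rw [if_pos hc]
    split_ifs with h
    · rw [mul_assoc, norm_mul, norm_div, norm_mul, norm_zpow, norm_pow, norm_pow, norm_neg,
        norm_one, v_norm hv hr, one_zpow, one_pow, one_pow, one_mul, div_one, one_mul]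
      exact fac_le hv hr hN _ _ _ _ p.2.2 q.1.2 q.2.2 (by omega)
    · rw [norm_zero]; positivity
  · rw [if_neg hc, if_neg (fun h => hc h.1), norm_zero]

end prim

/-! ### column sums -/

lemma col_mul {ι : Type} [Fintype ι] (A B : Matrix ι ι ℂ) (a b : ℝ) (ha : 0 ≤ a)
    (hA : ∀ t, ∑ s, ‖A s t‖ ≤ a) (hB : ∀ t, ∑ s, ‖B s t‖ ≤ b) (t : ι) :
    ∑ s, ‖(A * B) s t‖ ≤ a * b := by
  calc ∑ s, ‖(A * B) s t‖ ≤ ∑ s, ∑ u, ‖A s u‖ * ‖B u t‖ := by
        refine Finset.sum_le_sum fun s _ => ?_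
        rw [Matrix.mul_apply]
        refine (norm_sum_le _ _).trans (le_of_eq ?_)
        exact Finset.sum_congr rfl fun u _ => norm_mul _ _
    _ = ∑ u, (∑ s, ‖A s u‖) * ‖B u t‖ := by
        rw [Finset.sum_comm]
        exact Finset.sum_congr rfl fun u _ => by rw [Finset.sum_mul]
    _ ≤ ∑ u, a * ‖B u t‖ :=
        Finset.sum_le_sum fun u _ => mul_le_mul_of_nonneg_right (hA u) (norm_nonneg _)
    _ = a * ∑ u, ‖B u t‖ := by rw [Finset.mul_sum]
    _ ≤ a * b := mul_le_mul_of_nonneg_left (hB t) ha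

lemma col_cross {N : ℕ} (M : Matrix (Fin N × Fin N) (Fin N × Fin N) ℂ) (E : ℝ) (hE : 0 ≤ E)
    (hM : ∀ p q : Fin N × Fin N,
      ‖M p q‖ ≤ if (p.1 : ℕ) + p.2 = q.1 + q.2 then E else 0) (q : Fin N × Fin N) :
    ∑ p, ‖M p q‖ ≤ N * E := by
  refine (Finset.sum_le_sum fun p _ => hM p q).trans ?_
  rw [← Finset.sum_filter, Finset.sum_const, nsmul_eq_mul]
  refine mul_le_mul_of_nonneg_right ?_ hE
  have h1 : (Finset.univ.filter fun p : Fin N × Fin N => (p.1 : ℕ) + p.2 = q.1 + q.2).card ≤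
      (Finset.univ : Finset (Fin N)).card := by
    refine Finset.card_le_card_of_injOn (fun p => p.1) (fun _ _ => mem_univ _) ?_
    intro a ha b hb h
    simp only [Finset.coe_filter, Finset.mem_univ, true_and, Set.mem_ofPred_eq] at ha hb
    have h : a.1 = b.1 := h
    refine Prod.ext h (Fin.ext ?_)
    have : (a.1 : ℕ) = b.1 := by rw [h]
    omega
  rw [Finset.card_univ, Fintype.card_fin] at h1
  exact_mod_cast h1

lemma col_gen {ι : Type} [Fintype ι] [DecidableEq ι] (M : Matrix (ι × ι) (ι × ι) ℂ) (R : ℝ)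
    (hR : 1 ≤ R) (hM : ∀ q, ∑ p, ‖M p q‖ ≤ R) (n k : ℕ) (t : Fin n → ι) :
    ∑ s, ‖gen M n k s t‖ ≤ R := by
  by_cases h : k + 1 < n
  · have h1 : ∀ s, ‖gen M n k s t‖ =
        if ∀ j : Fin n, (j : ℕ) ≠ k → (j : ℕ) ≠ k + 1 → s j = t j then
          ‖M (s ⟨k, by omega⟩, s ⟨k + 1, h⟩) (t ⟨k, by omega⟩, t ⟨k + 1, h⟩)‖ else 0 := by
      intro s
      rw [Pool.Agent.H550R3.Jones.gen, dif_pos h]
      split_ifs <;> simp
    simp only [h1]
    rw [← Finset.sum_filter]
    refine le_trans ?_ (hM (t ⟨k, by omega⟩, t ⟨k + 1, h⟩))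
    rw [← Finset.sum_image (f := fun p => ‖M p (t ⟨k, by omega⟩, t ⟨k + 1, h⟩)‖)
      (g := fun s : Fin n → ι => (s ⟨k, by omega⟩, s ⟨k + 1, h⟩))]
    · exact Finset.sum_le_sum_of_subset_of_nonneg (Finset.subset_univ _)
        fun _ _ _ => norm_nonneg _
    · intro a ha b hb hab
      simp only [Finset.coe_filter, Finset.mem_univ, true_and, Set.mem_ofPred_eq] at ha hb
      have hab1 := congrArg Prod.fst hab
      have hab2 := congrArg Prod.snd hab
      simp only at hab1 hab2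
      funext j
      by_cases j1 : (j : ℕ) = k
      · have : j = ⟨k, by omega⟩ := Fin.ext j1
        rw [this]; exact hab1
      · by_cases j2 : (j : ℕ) = k + 1
        · have : j = ⟨k + 1, h⟩ := Fin.ext j2
          rw [this]; exact hab2
        · rw [ha j j1 j2, hb j j1 j2]
  · have h1 : ∀ s, ‖gen M n k s t‖ = if s = t then 1 else 0 := by
      intro s
      rw [Pool.Agent.H550R3.Jones.gen, dif_neg h]
      split_ifs <;> simp
    simp only [h1]
    rw [Finset.sum_ite_eq' Finset.univ t]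
    simpa using hR

lemma col_rep {ι : Type} [Fintype ι] [DecidableEq ι] (P Q : Matrix (ι × ι) (ι × ι) ℂ) (R : ℝ)
    (hR : 1 ≤ R) (hP : ∀ q, ∑ p, ‖P p q‖ ≤ R) (hQ : ∀ q, ∑ p, ‖Q p q‖ ≤ R) (n : ℕ)
    (w : List (ℕ × Bool)) : ∀ t, ∑ s, ‖rep P Q n w s t‖ ≤ R ^ w.length := by
  induction w with
  | nil =>
    intro t
    have h1 : ∀ s, ‖rep P Q n [] s t‖ = if s = t then 1 else 0 := by
      intro s
      rw [Pool.Agent.H550R3.Jones.rep, List.map_nil, List.prod_nil, Matrix.one_apply]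
      split_ifs <;> simp
    simp only [h1]
    rw [Finset.sum_ite_eq' Finset.univ t]
    simp
  | cons g w ih =>
    intro t
    have h2 : rep P Q n (g :: w) = gen (if g.2 then P else Q) n g.1 * rep P Q n w := by
      simp [Pool.Agent.H550R3.Jones.rep]
    rw [h2, List.length_cons, pow_succ']
    refine col_mul _ _ R _ (by linarith) ?_ ih t
    intro u
    apply col_gen _ R hR
    split_ifs
    · exact hP
    · exact hQ

theorem jones_le {r N : ℕ} [NeZero r] (hr : 2 ≤ r) (hN0 : 0 < N) (hN : N ≤ r) {v : ℂ}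
    (hv : IsPrimitiveRoot v (2 * r)) (n : ℕ)
    (w : List (ℕ × Bool)) : ‖cjones N n w v‖ ≤
      (N : ℝ) ^ n * (N * Real.exp (WW r (v ^ 2)) ^ 5) ^ w.length := by
  have hW : 0 ≤ WW r (v ^ 2) := by
    rw [WW]; positivity
  have hE : 1 ≤ Real.exp (WW r (v ^ 2)) ^ 5 := one_le_pow₀ (Real.one_le_exp hW)
  have hR : 1 ≤ (N : ℝ) * Real.exp (WW r (v ^ 2)) ^ 5 := by
    have : (1 : ℝ) ≤ N := by exact_mod_cast hN0
    nlinarith
  have hP := col_cross (crossP N v) _ (by positivity) (XP_le hv hr hN)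
  have hQ := col_cross (crossN N v) _ (by positivity) (XN_le hv hr hN)
  have hrep := col_rep (crossP N v) (crossN N v) _ hR hP hQ (n + 1) w
  rw [Pool.Agent.H550R3.Jones.cjones, dif_pos hN0, Pool.Agent.H550R3.Jones.tail]
  refine (norm_sum_le _ _).trans ?_
  have h1 : ∀ s : Fin n → Fin N, ‖(∏ x, v ^ ((N : ℤ) - 1 - 2 * (s x : ℕ))) *
      rep (crossP N v) (crossN N v) (n + 1) w (Fin.cons ⟨0, hN0⟩ s) (Fin.cons ⟨0, hN0⟩ s)‖ ≤
      (N * Real.exp (WW r (v ^ 2)) ^ 5) ^ w.length := by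
    intro s
    rw [norm_mul, norm_prod]
    have h2 : ∏ x, ‖v ^ ((N : ℤ) - 1 - 2 * (s x : ℕ))‖ = 1 :=
      Finset.prod_eq_one fun x _ => by rw [norm_zpow, v_norm hv hr, one_zpow]
    rw [h2, one_mul]
    exact (Finset.single_le_sum (f := fun u => ‖rep (crossP N v) (crossN N v) (n + 1) w u
      (Fin.cons ⟨0, hN0⟩ s)‖) (fun _ _ => norm_nonneg _) (mem_univ _)).trans (hrep _)
  refine (Finset.sum_le_sum fun s _ => h1 s).trans ?_
  rw [Finset.sum_const, Finset.card_univ, Fintype.card_fun, Fintype.card_fin, Fintype.card_fin,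
    nsmul_eq_mul]
  push_cast
  exact le_refl _

lemma log_jones_le {r N : ℕ} [NeZero r] (hr : 2 ≤ r) (hN0 : 0 < N) (hN : N ≤ r) {v : ℂ}
    (hv : IsPrimitiveRoot v (2 * r)) (n : ℕ) (w : List (ℕ × Bool)) (h : cjones N n w v ≠ 0) :
    Real.log ‖cjones N n w v‖ ≤ (n + w.length) * Real.log r + 5 * w.length * WW r (v ^ 2) := by
  have h1 := jones_le hr hN0 hN hv n w
  have hN1 : (0 : ℝ) < N := by exact_mod_cast hN0
  have h2 := Real.log_le_log (norm_pos_iff.2 h) h1
  have hE : (0 : ℝ) < Real.exp (WW r (v ^ 2)) ^ 5 := by positivity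
  rw [Real.log_mul (by positivity) (by positivity), Real.log_pow, Real.log_pow,
    Real.log_mul (by positivity) (by positivity), Real.log_pow, Real.log_exp] at h2
  have h3 : Real.log N ≤ Real.log r := Real.log_le_log hN1 (by exact_mod_cast hN)
  have h4 : (0 : ℝ) ≤ (n : ℝ) := by positivity
  have h5 : (0 : ℝ) ≤ (w.length : ℝ) := by positivity
  push_cast at h2
  nlinarith [mul_le_mul_of_nonneg_left h3 h4, mul_le_mul_of_nonneg_left h3 h5]

lemma totient_le_half (r : ℕ) : (2 * r).totient ≤ r := by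
  rw [Nat.totient_eq_card_coprime]
  have h1 : ((range (2 * r)).filter (fun a => (2 * r).Coprime a)).card ≤ (range r).card := by
    refine Finset.card_le_card_of_injOn (fun k => k / 2) ?_ ?_
    · intro k hk
      simp only [Finset.coe_filter, Finset.mem_range, Set.mem_ofPred_eq, Finset.coe_range,
        Set.mem_Iio] at hk ⊢
      omega
    · intro a ha b hb hab
      simp only [Finset.coe_filter, Finset.mem_range, Set.mem_ofPred_eq] at ha hb
      have ha2 : Nat.Coprime 2 a := Nat.Coprime.coprime_dvd_left (Dvd.intro r rfl) ha.2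
      have hb2 : Nat.Coprime 2 b := Nat.Coprime.coprime_dvd_left (Dvd.intro r rfl) hb.2
      have ha3 : a % 2 = 1 := by
        rcases Nat.mod_two_eq_zero_or_one a with h | h
        · have := Nat.dvd_gcd (dvd_refl 2) (Nat.dvd_of_mod_eq_zero h)
          rw [ha2.gcd_eq_one] at this; omega
        · exact h
      have hb3 : b % 2 = 1 := by
        rcases Nat.mod_two_eq_zero_or_one b with h | h
        · have := Nat.dvd_gcd (dvd_refl 2) (Nat.dvd_of_mod_eq_zero h)
          rw [hb2.gcd_eq_one] at this; omega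
        · exact h
      simp only at hab
      omega
  rwa [Finset.card_range] at h1

/-- The main estimate. -/
theorem main {r N : ℕ} (hr : 2 ≤ r) (hN0 : 0 < N) (hN : N ≤ r) (n : ℕ) (w : List (ℕ × Bool))
    {μ₀ : ℂ} (h₀ : μ₀ ∈ primitiveRoots (2 * r) ℂ) (hne : cjones N n w μ₀ ≠ 0) :
    (∑ μ ∈ primitiveRoots (2 * r) ℂ, |Real.log ‖cjones N n w μ‖| ≤
      2 * ((2 * n + 27 * w.length) * (r * Real.log r ^ 2))) ∧
    ∀ μ ∈ primitiveRoots (2 * r) ℂ,
      Real.exp (-((2 * n + 27 * w.length) * (r * Real.log r ^ 2))) ≤ ‖cjones N n w μ‖ := by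
  have : NeZero r := ⟨by omega⟩
  have hP := one_le_prod r N n w (by omega) hN μ₀ h₀ hne
  have hall : ∀ μ ∈ primitiveRoots (2 * r) ℂ, cjones N n w μ ≠ 0 := by
    intro μ hμ h0
    rw [Finset.prod_eq_zero hμ (by rw [h0, norm_zero])] at hP
    norm_num at hP
  have hsum : 0 ≤ ∑ μ ∈ primitiveRoots (2 * r) ℂ, Real.log ‖cjones N n w μ‖ := by
    rw [← Real.log_prod (fun μ hμ => norm_ne_zero_iff.2 (hall μ hμ))]
    exact Real.log_nonneg hP
  set U : ℂ → ℝ := fun μ => (n + w.length) * Real.log r + 5 * w.length * WW r (μ ^ 2) with hU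
  have hlog2 : (0.6931471803 : ℝ) < Real.log r :=
    Real.log_two_gt_d9.trans_le (Real.log_le_log (by norm_num) (by exact_mod_cast hr))
  have hWn : ∀ μ : ℂ, 0 ≤ WW r (μ ^ 2) := fun μ => by rw [WW]; positivity
  have hU0 : ∀ μ, 0 ≤ U μ := by
    intro μ
    have := hWn μ
    simp only [hU]
    positivity
  have hle : ∀ μ ∈ primitiveRoots (2 * r) ℂ, Real.log ‖cjones N n w μ‖ ≤ U μ := fun μ hμ =>
    log_jones_le hr hN0 hN (isPrimitiveRoot_of_mem_primitiveRoots hμ) n w (hall μ hμ)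
  have hcard : ((primitiveRoots (2 * r) ℂ).card : ℝ) ≤ r := by
    rw [Complex.card_primitiveRoots]
    exact_mod_cast totient_le_half r
  have hr0 : (0 : ℝ) < r := by positivity
  have hUs : ∑ μ ∈ primitiveRoots (2 * r) ℂ, U μ ≤
      (2 * n + 27 * w.length) * (r * Real.log r ^ 2) := by
    simp only [hU]
    rw [Finset.sum_add_distrib, Finset.sum_const, nsmul_eq_mul, ← Finset.mul_sum]
    have h1 := sum_WW r hr
    have hL : 0 < Real.log r := by linarith
    have h2 : ((primitiveRoots (2 * r) ℂ).card : ℝ) * ((n + w.length) * Real.log r) ≤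
        r * ((n + w.length) * Real.log r) := mul_le_mul_of_nonneg_right hcard (by positivity)
    have h3 : 5 * (w.length : ℝ) * ∑ μ ∈ primitiveRoots (2 * r) ℂ, WW r (μ ^ 2) ≤
        5 * w.length * (2 * r * Real.log r * (1 + Real.log r)) :=
      mul_le_mul_of_nonneg_left h1 (by positivity)
    have h4 : r * ((n + w.length) * Real.log r) ≤
        (3 / 2) * (n + w.length) * (r * Real.log r ^ 2) := by
      have : (1 : ℝ) ≤ 3 / 2 * Real.log r := by linarith
      have h5 : 0 ≤ r * ((n + w.length) * Real.log r) := by positivity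
      calc r * ((n + w.length) * Real.log r) = r * ((n + w.length) * Real.log r) * 1 := by ring
        _ ≤ r * ((n + w.length) * Real.log r) * (3 / 2 * Real.log r) :=
          mul_le_mul_of_nonneg_left this h5
        _ = _ := by ring
    have h5 : 5 * (w.length : ℝ) * (2 * r * Real.log r * (1 + Real.log r)) ≤
        25 * w.length * (r * Real.log r ^ 2) := by
      have : 1 + Real.log r ≤ 5 / 2 * Real.log r := by linarith
      have h6 : 0 ≤ 5 * (w.length : ℝ) * (2 * r * Real.log r) := by positivity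
      calc 5 * (w.length : ℝ) * (2 * r * Real.log r * (1 + Real.log r)) =
          5 * (w.length : ℝ) * (2 * r * Real.log r) * (1 + Real.log r) := by ring
        _ ≤ 5 * (w.length : ℝ) * (2 * r * Real.log r) * (5 / 2 * Real.log r) :=
          mul_le_mul_of_nonneg_left this h6
        _ = _ := by ring
    have h7 : 0 ≤ (n : ℝ) * (r * Real.log r ^ 2) := by positivity
    have h8 : 0 ≤ (w.length : ℝ) * (r * Real.log r ^ 2) := by positivity
    nlinarith
  constructor
  · have h1 : ∀ μ ∈ primitiveRoots (2 * r) ℂ, |Real.log ‖cjones N n w μ‖| ≤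
        2 * U μ - Real.log ‖cjones N n w μ‖ := by
      intro μ hμ
      have h2 := hle μ hμ
      have h3 := hU0 μ
      rw [abs_le]
      constructor <;> linarith
    refine (Finset.sum_le_sum h1).trans ?_
    rw [Finset.sum_sub_distrib, ← Finset.mul_sum]
    linarith
  · intro μ hμ
    rw [← Real.le_log_iff_exp_le (norm_pos_iff.2 (hall μ hμ))]
    rw [← Finset.add_sum_erase _ _ hμ] at hsum
    have h2 : ∑ x ∈ (primitiveRoots (2 * r) ℂ).erase μ, Real.log ‖cjones N n w x‖ ≤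
        ∑ x ∈ (primitiveRoots (2 * r) ℂ).erase μ, U x :=
      Finset.sum_le_sum fun x hx => hle x (Finset.mem_of_mem_erase hx)
    have h3 : ∑ x ∈ (primitiveRoots (2 * r) ℂ).erase μ, U x ≤
        ∑ x ∈ primitiveRoots (2 * r) ℂ, U x :=
      Finset.sum_le_sum_of_subset_of_nonneg (Finset.erase_subset _ _) fun x _ _ => hU0 x
    linarith

end Pool.Agent.U476.NB
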