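import Pool.Agent.U476.NB.Div2
import Pool.Agent.U476.NB.Up

/-! The exceptional primes of a colour `m`. -/

set_option autoImplicit false

namespace Pool.Agent.U476.NB

open Finset
open Pool.Agent.H550R3.Jones (cjones br brf crossP crossN gen rep)

lemma pow_dvd_of_integral {m n : ℕ} (w : List (ℕ × Bool)) {p : ℕ} (hp : 0 < p) (M : ℤ)
    (hM : (M : ℂ) = ∏ μ ∈ primitiveRoots (2 * m) ℂ, cjones m n w μ)
    (h : ∀ μ ∈ primitiveRoots (2 * m) ℂ, IsIntegral ℤ (cjones m n w μ / p)) :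
    (p : ℤ) ^ (2 * m).totient ∣ M := by
  have h1 : IsIntegral ℤ (∏ μ ∈ primitiveRoots (2 * m) ℂ, cjones m n w μ / p) :=
    IsIntegral.prod _ h
  have hp0 : (p : ℂ) ≠ 0 := by exact_mod_cast hp.ne'
  have hpQ : (p : ℚ) ≠ 0 := by exact_mod_cast hp.ne'
  rw [Finset.prod_div_distrib, ← hM, Finset.prod_const, Complex.card_primitiveRoots] at h1
  have h2 : (M : ℂ) / (p : ℂ) ^ (2 * m).totient =
      algebraMap ℚ ℂ ((M : ℚ) / (p : ℚ) ^ (2 * m).totient) := by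
    simp
  rw [h2, isIntegral_algebraMap_iff (algebraMap ℚ ℂ).injective] at h1
  obtain ⟨c, hc⟩ := IsIntegrallyClosed.isIntegral_iff.1 h1
  refine ⟨c, ?_⟩
  have h3 : (c : ℚ) = (M : ℚ) / (p : ℚ) ^ (2 * m).totient := hc
  rw [eq_div_iff (pow_ne_zero _ hpQ)] at h3
  have h4 : ((c * (p : ℤ) ^ (2 * m).totient : ℤ) : ℚ) = M := by push_cast; exact h3
  have h5 : c * (p : ℤ) ^ (2 * m).totient = M := by exact_mod_cast h4
  rw [← h5, mul_comm]

/-- `p` is exceptional for the colour `m`: it divides the invariant of colour `m`. -/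
def Exc (m n : ℕ) (w : List (ℕ × Bool)) (p : ℕ) : Prop :=
  p.Prime ∧ ∀ μ ∈ primitiveRoots (2 * m) ℂ, IsIntegral ℤ (cjones m n w μ / p)

theorem exc_primes {m n : ℕ} (hm : 2 ≤ m) (w : List (ℕ × Bool)) {μ₀ : ℂ}
    (h₀ : μ₀ ∈ primitiveRoots (2 * m) ℂ) (hne : cjones m n w μ₀ ≠ 0) (F : Finset ℕ)
    (hF : ∀ p ∈ F, Exc m n w p) :
    (2 * m).totient * ∑ p ∈ F, Real.log p ≤
      2 * ((2 * n + 27 * w.length) * (m * Real.log m ^ 2)) := by
  obtain ⟨M, h1, h2⟩ := conj_prod m m n w (by omega) le_rfl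
  have hM0 : M ≠ 0 := h2 μ₀ h₀ hne
  have hdvd : ∏ p ∈ F, (p : ℤ) ^ (2 * m).totient ∣ M := by
    refine Finset.prod_dvd_of_coprime ?_ fun p hp =>
      pow_dvd_of_integral w (hF p hp).1.pos M h1 (hF p hp).2
    intro a ha b hb hab
    have : Nat.Coprime a b := (Nat.coprime_primes (hF a ha).1 (hF b hb).1).2 hab
    exact (Nat.isCoprime_iff_coprime.2 this).pow
  have hle : ((∏ p ∈ F, (p : ℤ) ^ (2 * m).totient : ℤ) : ℝ) ≤ |(M : ℝ)| := by
    have h3 : |∏ p ∈ F, (p : ℤ) ^ (2 * m).totient| ≤ |M| :=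
      Int.le_of_dvd (abs_pos.2 hM0) ((abs_dvd_abs _ _).2 hdvd)
    have h4 : ∏ p ∈ F, (p : ℤ) ^ (2 * m).totient ≤ |M| := (le_abs_self _).trans h3
    exact_mod_cast h4
  have hpos : ∀ p ∈ F, (0 : ℝ) < p := fun p hp => by exact_mod_cast (hF p hp).1.pos
  have h5 : Real.log ((∏ p ∈ F, (p : ℤ) ^ (2 * m).totient : ℤ) : ℝ) =
      (2 * m).totient * ∑ p ∈ F, Real.log p := by
    push_cast
    rw [Real.log_prod (fun p hp => (pow_pos (hpos p hp) _).ne'), Finset.mul_sum]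
    exact Finset.sum_congr rfl fun p _ => Real.log_pow _ _
  have h6 : (0 : ℝ) < ((∏ p ∈ F, (p : ℤ) ^ (2 * m).totient : ℤ) : ℝ) := by
    push_cast
    exact Finset.prod_pos fun p hp => pow_pos (hpos p hp) _
  have h7 := Real.log_le_log h6 hle
  rw [h5] at h7
  have hmain := main hm (by omega : 0 < m) le_rfl n w h₀ hne
  have hall : ∀ μ ∈ primitiveRoots (2 * m) ℂ, cjones m n w μ ≠ 0 := by
    intro μ hμ h0
    have := hmain.2 μ hμ
    rw [h0, norm_zero] at this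
    exact absurd this (not_le.2 (Real.exp_pos _))
  have h8 : Real.log |(M : ℝ)| = ∑ μ ∈ primitiveRoots (2 * m) ℂ, Real.log ‖cjones m n w μ‖ := by
    rw [← Real.log_prod (fun μ hμ => norm_ne_zero_iff.2 (hall μ hμ)), ← norm_prod, ← h1]
    simp
  rw [h8] at h7
  refine h7.trans (le_trans (Finset.sum_le_sum fun μ _ => le_abs_self _) hmain.1)

/-- A zero of colour `m p ^ a` makes `p` exceptional for `m`. -/
theorem exc_of_zero {p m a n : ℕ} (hp : p.Prime) (hp2 : p ≠ 2) (hm : 0 < m)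
    (hpm : Nat.Coprime p m) (w : List (ℕ × Bool))
    (hw : ∀ k : Fin (n + 1), ∃ i : ℕ, (perm (n + 1) w ^ i) 0 = k)
    (μ₀ : ℂ) (hμ₀ : μ₀ ∈ primitiveRoots (2 * (m * p ^ a)) ℂ)
    (h0 : cjones (m * p ^ a) n w μ₀ = 0) : Exc m n w p :=
  ⟨hp, fun μ hμ => div_int hp hp2 hm hpm w hw μ₀ hμ₀ h0 μ hμ⟩

end Pool.Agent.U476.NB
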