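import Mathlib

/-! The finite Fourier transform of `log |1 - q ^ r|`. -/

set_option autoImplicit false

namespace Pool.Agent.U476.NB

open Finset ZMod

noncomputable section

variable {N : ℕ} [NeZero N]

def ss (r : ZMod N) : ℝ := ‖1 - stdAddChar r‖

def ff (r : ZMod N) : ℝ := if r = 0 then -Real.log N else Real.log (ss r)

def CC (r : ZMod N) : ℝ := (stdAddChar r).re

def FF (h : ZMod N) : ℝ := ∑ s : ZMod N, ff s * CC (h * s)

lemma sum_zmod {M : Type} [AddCommMonoid M] (g : ZMod N → M) :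
    ∑ s : ZMod N, g s = ∑ k ∈ range N, g (k : ZMod N) := by
  symm
  refine Finset.sum_bij' (fun (k : ℕ) _ => (k : ZMod N)) (fun (s : ZMod N) _ => s.val)
    ?_ ?_ ?_ ?_ ?_
  · intro a _; exact mem_univ _
  · intro a _; exact mem_range.2 (ZMod.val_lt a)
  · intro a ha; exact ZMod.val_cast_of_lt (mem_range.1 ha)
  · intro a _; exact ZMod.natCast_zmod_val a
  · intro a _; rfl

lemma char_neg (r : ZMod N) : stdAddChar (-r) = (starRingEnd ℂ) (stdAddChar r) :=
  AddChar.map_neg_eq_conj _ _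

lemma char_nat (r : ZMod N) (k : ℕ) : stdAddChar ((k : ZMod N) * r) = stdAddChar r ^ k := by
  rw [← nsmul_eq_mul, AddChar.map_nsmul_eq_pow]

lemma char_norm (r : ZMod N) : ‖stdAddChar r‖ = 1 := AddChar.norm_apply _ _

lemma char_eq_one {r : ZMod N} (h : stdAddChar r = 1) : r = 0 := by
  have := injective_stdAddChar (N := N)
  apply this
  rw [h, AddChar.map_zero_eq_one]

lemma ss_neg (r : ZMod N) : ss (-r) = ss r := by
  rw [ss, ss, char_neg, ← Complex.norm_conj (1 - stdAddChar r), map_sub, map_one]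

lemma ss_pos {r : ZMod N} (h : r ≠ 0) : 0 < ss r := by
  rw [ss, norm_pos_iff, sub_ne_zero]
  intro h1
  exact h (char_eq_one h1.symm)

lemma ff_neg (r : ZMod N) : ff (-r) = ff r := by
  simp only [ff, neg_eq_zero, ss_neg]

lemma CC_neg (r : ZMod N) : CC (-r) = CC r := by
  rw [CC, CC, char_neg, Complex.conj_re]

lemma CC_zero : CC (0 : ZMod N) = 1 := by
  rw [CC, AddChar.map_zero_eq_one, Complex.one_re]

lemma CC_le (r : ZMod N) : CC r ≤ 1 := by
  rw [CC, ← char_norm r]
  exact Complex.re_le_norm _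

lemma CC_lt {r : ZMod N} (h : r ≠ 0) : CC r < 1 := by
  refine lt_of_le_of_ne (CC_le r) fun h1 => h (char_eq_one ?_)
  have h2 : (stdAddChar r).re ^ 2 + (stdAddChar r).im ^ 2 = 1 := by
    have := char_norm r
    rw [← Complex.normSq_add_mul_I, Complex.re_add_im, Complex.normSq_eq_norm_sq, this]
    norm_num
  rw [CC] at h1
  rw [h1] at h2
  refine Complex.ext h1 ?_
  rw [Complex.one_im]
  have : (stdAddChar r).im ^ 2 = 0 := by linarith
  exact pow_eq_zero_iff (two_ne_zero) |>.1 this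

lemma CC_add_sub (x y : ZMod N) : CC (x + y) + CC (x - y) = 2 * CC x * CC y := by
  rw [CC, CC, CC, CC, sub_eq_add_neg, AddChar.map_add_eq_mul, AddChar.map_add_eq_mul, char_neg,
    Complex.mul_re, Complex.mul_re, Complex.conj_re, Complex.conj_im]
  ring

lemma CC_sum (r : ZMod N) : ∑ h : ZMod N, CC (h * r) = if r = 0 then (N : ℝ) else 0 := by
  have h1 := AddChar.sum_mulShift (ψ := (stdAddChar : AddChar (ZMod N) ℂ)) r
    (isPrimitive_stdAddChar N)
  have h2 := congrArg Complex.re h1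
  rw [Complex.re_sum] at h2
  simp only [CC]
  rw [h2, ZMod.card]
  split_ifs <;> simp

/-- inversion -/
lemma FF_inv (r : ZMod N) : ∑ h : ZMod N, FF h * CC (h * r) = N * ff r := by
  have h1 : ∀ h s : ZMod N, ff s * CC (h * s) * CC (h * r) =
      ff s / 2 * (CC (h * (s + r)) + CC (h * (s - r))) := by
    intro h s
    have := CC_add_sub (h * s) (h * r)
    rw [← mul_add h, ← mul_sub h] at this
    rw [this]
    ring
  simp only [FF, Finset.sum_mul, h1]
  rw [Finset.sum_comm]
  have h2 : ∀ s : ZMod N, ∑ h : ZMod N, ff s / 2 * (CC (h * (s + r)) + CC (h * (s - r))) =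
      (if s = -r then (N : ℝ) / 2 * ff s else 0) + (if s = r then (N : ℝ) / 2 * ff s else 0) := by
    intro s
    rw [← Finset.mul_sum, Finset.sum_add_distrib, CC_sum, CC_sum]
    simp only [add_eq_zero_iff_eq_neg, sub_eq_zero]
    split_ifs <;> ring
  simp only [h2, Finset.sum_add_distrib, Finset.sum_ite_eq', mem_univ, if_true, ff_neg]
  ring

lemma prim_one : IsPrimitiveRoot (stdAddChar (1 : ZMod N)) N := by
  refine IsPrimitiveRoot.mk_of_lt _ (Nat.pos_of_neZero N) ?_ ?_
  · rw [← AddChar.map_nsmul_eq_pow, nsmul_eq_mul, ZMod.natCast_self, zero_mul,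
      AddChar.map_zero_eq_one]
  · intro l hl hlN h
    rw [← AddChar.map_nsmul_eq_pow, nsmul_eq_mul, mul_one] at h
    have h1 := char_eq_one h
    rw [ZMod.natCast_eq_zero_iff] at h1
    exact absurd (Nat.le_of_dvd hl h1) (by omega)

lemma FF_zero (hN : 2 ≤ N) : FF (0 : ZMod N) = 0 := by
  obtain ⟨n, rfl⟩ : ∃ n, N = n + 1 := ⟨N - 1, by omega⟩
  have h1 := IsPrimitiveRoot.prod_one_sub_pow_eq_order (prim_one (N := n + 1))
  have h2 : ∏ k ∈ range n, ss ((k + 1 : ℕ) : ZMod (n + 1)) = ((n + 1 : ℕ) : ℝ) := by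
    have h3 := congrArg norm h1
    rw [norm_prod] at h3
    have h4 : ∀ k : ℕ, ss ((k + 1 : ℕ) : ZMod (n + 1)) =
        ‖1 - stdAddChar (1 : ZMod (n + 1)) ^ (k + 1)‖ := by
      intro k
      rw [ss, ← char_nat, mul_one]
    simp only [h4, h3]
    rw [← Nat.cast_one, ← Nat.cast_add, Complex.norm_natCast]
  have h5 : ∀ k ∈ range n, ((k + 1 : ℕ) : ZMod (n + 1)) ≠ 0 := by
    intro k hk h
    rw [ZMod.natCast_eq_zero_iff] at h
    have := Nat.le_of_dvd (by omega) h
    have := mem_range.1 hk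
    omega
  rw [FF]
  simp only [zero_mul, CC_zero, mul_one]
  rw [sum_zmod, Finset.sum_range_succ']
  have h6 : ∑ k ∈ range n, ff ((k + 1 : ℕ) : ZMod (n + 1)) = Real.log ((n + 1 : ℕ) : ℝ) := by
    rw [← h2, Real.log_prod (fun k hk => (ss_pos (h5 k hk)).ne')]
    refine Finset.sum_congr rfl fun k hk => ?_
    rw [ff, if_neg (h5 k hk)]
  rw [h6, Nat.cast_zero, ff, if_pos rfl]
  ring

lemma ss_eq (r : ZMod N) : ss r = 2 * Real.sin (Real.pi * r.val / N) := by
  have hN : (0 : ℝ) < N := by exact_mod_cast Nat.pos_of_neZero N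
  have h1 : (stdAddChar r : ℂ) = Complex.exp (Complex.I * ((2 * Real.pi * r.val / N : ℝ) : ℂ)) := by
    have h2 := stdAddChar_coe (N := N) (r.val : ℤ)
    rw [Int.cast_natCast, ZMod.natCast_zmod_val] at h2
    rw [h2]
    congr 1
    push_cast
    ring
  rw [ss, norm_sub_rev, h1, Complex.norm_exp_I_mul_ofReal_sub_one, Real.norm_eq_abs]
  have h3 : 2 * Real.pi * r.val / N / 2 = Real.pi * r.val / N := by ring
  rw [h3, abs_of_nonneg]
  have h4 : (r.val : ℝ) ≤ N := by exact_mod_cast (ZMod.val_lt r).le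
  have h5 : Real.pi * r.val / N ≤ Real.pi := by
    rw [div_le_iff₀ hN]
    exact mul_le_mul_of_nonneg_left h4 Real.pi_pos.le
  have := Real.sin_nonneg_of_nonneg_of_le_pi (by positivity) h5
  linarith

lemma sin_ge (N m : ℕ) (hm : 0 < m) (hmN : m < N) :
    2 * (min (m : ℝ) (N - m)) / N ≤ Real.sin (Real.pi * m / N) := by
  have hN : (0 : ℝ) < N := by exact_mod_cast (by omega : 0 < N)
  have key : ∀ x : ℝ, 0 ≤ x → x ≤ N / 2 → 2 * x / N ≤ Real.sin (Real.pi * x / N) := by
    intro x h0 h1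
    have h2 : Real.pi * x / N ≤ Real.pi / 2 := by
      rw [div_le_iff₀ hN]
      nlinarith [Real.pi_pos]
    have h3 := Real.mul_le_sin (x := Real.pi * x / N) (by positivity) h2
    have h4 : 2 / Real.pi * (Real.pi * x / N) = 2 * x / N := by
      field_simp
    rwa [h4] at h3
  have hmN' : (m : ℝ) < N := by exact_mod_cast hmN
  rcases le_total (m : ℝ) (N - m) with h | h
  · rw [min_eq_left h]
    exact key m (by positivity) (by linarith)
  · rw [min_eq_right h]
    have h1 := key (N - m) (by linarith) (by linarith)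
    have h2 : Real.pi * (N - m) / N = Real.pi - Real.pi * m / N := by
      field_simp
    rwa [h2, Real.sin_pi_sub] at h1

lemma ss_ge {r : ZMod N} (h : r ≠ 0) : 4 / (N : ℝ) ≤ ss r := by
  have hN : (0 : ℝ) < N := by exact_mod_cast Nat.pos_of_neZero N
  have h0 : 0 < r.val := Nat.pos_of_ne_zero fun h1 => h ((ZMod.val_eq_zero r).1 h1)
  have h1 := sin_ge N r.val h0 (ZMod.val_lt r)
  rw [ss_eq]
  have h2 : (1 : ℝ) ≤ min (r.val : ℝ) (N - r.val) := by
    refine le_min (by exact_mod_cast h0) ?_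
    have : ((r.val + 1 : ℕ) : ℝ) ≤ N := by exact_mod_cast ZMod.val_lt r
    push_cast at this
    linarith
  have h3 : 4 / (N : ℝ) ≤ 2 * (2 * (min (r.val : ℝ) (N - r.val)) / N) := by
    rw [div_le_iff₀ hN]
    have : 2 * (2 * (min (r.val : ℝ) (N - r.val)) / N) * N = 4 * min (r.val : ℝ) (N - r.val) := by
      field_simp
      ring
    rw [this]
    linarith
  linarith

lemma ss_one_le (hN2 : 2 ≤ N) {r : ZMod N} (h : r ≠ 0) : ss (1 : ZMod N) ≤ ss r := by
  have hN : (0 : ℝ) < N := by exact_mod_cast Nat.pos_of_neZero N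
  have h0 : 0 < r.val := Nat.pos_of_ne_zero fun h1 => h ((ZMod.val_eq_zero r).1 h1)
  have h1 : (1 : ZMod N).val = 1 := by
    have : Fact (1 < N) := ⟨by omega⟩
    exact ZMod.val_one N
  have hr : (r.val : ℝ) + 1 ≤ N := by exact_mod_cast ZMod.val_lt r
  have h2 : (1 : ℝ) ≤ r.val := by exact_mod_cast h0
  have hp := Real.pi_pos
  have hN2' : (2 : ℝ) ≤ N := by exact_mod_cast hN2
  rw [ss_eq, ss_eq, h1]
  refine mul_le_mul_of_nonneg_left ?_ (by norm_num)
  have key : ∀ x : ℝ, 1 ≤ x → x ≤ N / 2 →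
      Real.sin (Real.pi * (1 : ℕ) / N) ≤ Real.sin (Real.pi * x / N) := by
    intro x h3 h4
    apply Real.sin_le_sin_of_le_of_le_pi_div_two
    · have : (0 : ℝ) ≤ Real.pi * (1 : ℕ) / N := by positivity
      linarith
    · rw [div_le_iff₀ hN]; nlinarith
    · rw [div_le_div_iff_of_pos_right hN]
      push_cast
      nlinarith
  rcases le_total (r.val : ℝ) (N / 2) with h | h
  · exact key _ h2 h
  · have h5 := key (N - r.val) (by linarith) (by linarith)
    have h6 : Real.pi * (N - r.val) / N = Real.pi - Real.pi * r.val / N := by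
      field_simp
    rwa [h6, Real.sin_pi_sub] at h5

/-- `ss (r + 1) ss (r - 1) = |ss r ^ 2 - ss 1 ^ 2|` -/
lemma ss_mul (r : ZMod N) :
    ss (r + 1) * ss (r - 1) = |ss r ^ 2 - ss (1 : ZMod N) ^ 2| := by
  have hz := char_norm r
  have hw := char_norm (1 : ZMod N)
  have e1 : ∀ z : ℂ, ‖z‖ = 1 → z * (starRingEnd ℂ) z = 1 := by
    intro z h
    rw [Complex.mul_conj, Complex.normSq_eq_norm_sq, h]
    norm_num
  have e2 : ∀ z : ℂ, ‖z‖ = 1 → ((‖1 - z‖ ^ 2 : ℝ) : ℂ) = 2 - z - (starRingEnd ℂ) z := by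
    intro z h
    rw [← Complex.normSq_eq_norm_sq, ← Complex.mul_conj, map_sub, map_one]
    linear_combination e1 z h
  have h1 : (1 - stdAddChar (r + 1)) * (1 - stdAddChar (r - 1)) =
      (stdAddChar r : ℂ) * (((ss (1 : ZMod N) ^ 2 - ss r ^ 2 : ℝ)) : ℂ) := by
    rw [Complex.ofReal_sub, ss, ss, e2 _ hz, e2 _ hw, sub_eq_add_neg r 1,
      AddChar.map_add_eq_mul, AddChar.map_add_eq_mul, char_neg]
    linear_combination (stdAddChar r : ℂ) ^ 2 * e1 _ hw - e1 _ hz
  have h2 := congrArg norm h1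
  rw [norm_mul, norm_mul, hz, one_mul, Complex.norm_real, Real.norm_eq_abs, abs_sub_comm] at h2
  exact h2

lemma ff_conc (hN2 : 2 ≤ N) {r : ZMod N} (h : r ≠ 0) : ff (r + 1) + ff (r - 1) ≤ 2 * ff r := by
  have hN : (0 : ℝ) < N := by exact_mod_cast Nat.pos_of_neZero N
  have h10 : (1 : ZMod N) ≠ 0 := by
    have : Fact (1 < N) := ⟨by omega⟩
    exact one_ne_zero
  have key : ∀ x : ZMod N, ff x = Real.log (if x = 0 then (N : ℝ)⁻¹ else ss x) := by
    intro x
    rw [ff]
    split_ifs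
    · rw [Real.log_inv]
    · rfl
  have hr := ss_pos h
  have hs1 := ss_pos h10
  have hge : (N : ℝ)⁻¹ ≤ ss (1 : ZMod N) / 4 := by
    have := ss_ge h10
    rw [le_div_iff₀ (by norm_num)]
    calc (N : ℝ)⁻¹ * 4 = 4 / N := by ring
      _ ≤ _ := this
  have hle := ss_one_le hN2 h
  have hpos : ∀ x : ZMod N, 0 < (if x = 0 then (N : ℝ)⁻¹ else ss x) := by
    intro x
    split_ifs with hx
    · positivity
    · exact ss_pos hx
  rw [key, key, ff, if_neg h, ← Real.log_mul (hpos _).ne' (hpos _).ne', two_mul,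
    ← Real.log_mul hr.ne' hr.ne']
  refine Real.log_le_log (mul_pos (hpos _) (hpos _)) ?_
  have htwo : ss ((1 : ZMod N) + 1) ≤ 2 * ss (1 : ZMod N) := by
    have e : (1 : ℂ) - stdAddChar ((1 : ZMod N) + 1) =
        (1 - stdAddChar (1 : ZMod N)) * (1 + stdAddChar (1 : ZMod N)) := by
      rw [AddChar.map_add_eq_mul]; ring
    rw [ss, e, norm_mul, mul_comm]
    refine mul_le_mul_of_nonneg_right ?_ (norm_nonneg _)
    refine (norm_add_le _ _).trans ?_
    rw [char_norm, norm_one]
    norm_num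
  split_ifs with h1 h2 h2
  · -- both zero
    have := mul_self_le_mul_self (by positivity) (hge.trans (by linarith : _ ≤ ss r))
    exact this
  · -- r = -1
    have hr1 : r = -1 := eq_neg_of_add_eq_zero_left h1
    have e1 : ss (r - 1) = ss ((1 : ZMod N) + 1) := by
      rw [hr1, ← ss_neg]; congr 1; ring
    have e2 : ss r = ss (1 : ZMod N) := by rw [hr1, ss_neg]
    rw [e1, e2]
    have := mul_le_mul hge htwo (ss_pos (by rw [hr1] at h2; intro h3; apply h2
                                            rw [show (-1 : ZMod N) - 1 = -(1 + 1) by ring, h3,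
                                              neg_zero])).le (by positivity)
    nlinarith
  · have hr1 : r = 1 := sub_eq_zero.1 h2
    rw [hr1] at h1 ⊢
    have := mul_le_mul htwo hge (by positivity) (by positivity)
    nlinarith
  · rw [ss_mul, abs_le]
    constructor <;> nlinarith

lemma FF_nonpos (hN2 : 2 ≤ N) {h : ZMod N} (hh : h ≠ 0) : FF h ≤ 0 := by
  have hD0 : ∑ r : ZMod N, (ff (r + 1) + ff (r - 1) - 2 * ff r) = 0 := by
    rw [Finset.sum_sub_distrib, Finset.sum_add_distrib, ← Finset.mul_sum,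
      Equiv.sum_comp (Equiv.addRight (1 : ZMod N)) ff |> fun h => (by simpa using h :
        ∑ r : ZMod N, ff (r + 1) = ∑ r, ff r),
      Equiv.sum_comp (Equiv.subRight (1 : ZMod N)) ff |> fun h => (by simpa using h :
        ∑ r : ZMod N, ff (r - 1) = ∑ r, ff r)]
    ring
  have hD1 : ∑ r : ZMod N, (ff (r + 1) + ff (r - 1) - 2 * ff r) * CC (h * r) =
      2 * (CC h - 1) * FF h := by
    have a1 : ∑ r : ZMod N, ff (r + 1) * CC (h * r) = ∑ r : ZMod N, ff r * CC (h * r - h) := by
      rw [← Equiv.sum_comp (Equiv.addRight (1 : ZMod N)) (fun r => ff r * CC (h * r - h))]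
      refine Finset.sum_congr rfl fun r _ => ?_
      simp only [Equiv.coe_addRight]
      congr 2
      ring
    have a2 : ∑ r : ZMod N, ff (r - 1) * CC (h * r) = ∑ r : ZMod N, ff r * CC (h * r + h) := by
      rw [← Equiv.sum_comp (Equiv.subRight (1 : ZMod N)) (fun r => ff r * CC (h * r + h))]
      refine Finset.sum_congr rfl fun r _ => ?_
      simp only [Equiv.subRight_apply]
      congr 2
      ring
    simp only [sub_mul, add_mul, Finset.sum_sub_distrib, Finset.sum_add_distrib]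
    rw [a1, a2, ← Finset.sum_add_distrib, ← Finset.sum_sub_distrib, FF, Finset.mul_sum]
    refine Finset.sum_congr rfl fun r _ => ?_
    linear_combination ff r * CC_add_sub (h * r) h
  have hD2 : ∑ r : ZMod N, (ff (r + 1) + ff (r - 1) - 2 * ff r) * (CC (h * r) - 1) =
      2 * (CC h - 1) * FF h := by
    simp only [mul_sub, mul_one, Finset.sum_sub_distrib] at hD0 hD1 ⊢
    linarith
  have hD3 : 0 ≤ 2 * (CC h - 1) * FF h := by
    rw [← hD2]
    refine Finset.sum_nonneg fun r _ => ?_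
    rcases eq_or_ne r 0 with rfl | hr
    · rw [mul_zero, CC_zero, sub_self, mul_zero]
    · have := ff_conc hN2 hr
      have := CC_le (h * r)
      nlinarith
  have := CC_lt hh
  by_contra hF
  push Not at hF
  nlinarith

lemma FF_abs_sum (hN2 : 2 ≤ N) : ∑ h : ZMod N, |FF h| = N * Real.log N := by
  have h1 : ∀ h : ZMod N, |FF h| = -FF h := by
    intro h
    apply abs_of_nonpos
    rcases eq_or_ne h 0 with rfl | hh
    · exact (FF_zero hN2).le
    · exact FF_nonpos hN2 hh
  have h2 := FF_inv (0 : ZMod N)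
  simp only [mul_zero, CC_zero, mul_one] at h2
  simp only [h1, Finset.sum_neg_distrib, h2]
  rw [ff, if_pos rfl]
  ring

end

end Pool.Agent.U476.NB
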