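import Pool.Agent.H550R3.Jones.Stmts

/-! Coloured Jones polynomials over a commutative ring with a unit `v`. -/

set_option autoImplicit false

namespace Pool.Agent.U476.NB

open Matrix Finset

variable {A : Type} [CommRing A] {B : Type} [CommRing B]

/-- `{n} = v ^ n - v ^ (-n)` -/
def gbr (v : Aˣ) (n : ℤ) : A := ((v ^ n : Aˣ) : A) - ((v ^ (-n) : Aˣ) : A)

/-- Gaussian binomial coefficients. -/
def gb (v : Aˣ) : ℕ → ℕ → A
  | _, 0 => 1
  | 0, _ + 1 => 0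
  | a + 1, b + 1 => ((v ^ ((b : ℤ) + 1) : Aˣ) : A) * gb v a (b + 1) +
      ((v ^ (-((a : ℤ) - b)) : Aˣ) : A) * gb v a b

def gP (N : ℕ) (v : Aˣ) : Matrix (Fin N × Fin N) (Fin N × Fin N) A :=
  fun p q => if (p.1 : ℕ) + p.2 = q.1 + q.2 ∧ (q.2 : ℕ) ≤ p.1 then
    ((v ^ (-((N : ℤ) - 1) * (1 + (q.1 : ℕ) + (q.2 : ℕ)) + 2 * (p.1 : ℕ) * (p.2 : ℕ)) : Aˣ) : A) *
      (v : A) ^ (((p.1 : ℕ) - q.2) * ((p.1 : ℕ) - q.2 - 1) / 2) *
      gb v p.1 ((p.1 : ℕ) - q.2) *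
      ∏ t ∈ range ((p.1 : ℕ) - q.2), gbr v ((N : ℤ) - (q.1 : ℕ) + t)
    else 0

def gN (N : ℕ) (v : Aˣ) : Matrix (Fin N × Fin N) (Fin N × Fin N) A :=
  fun p q => if (p.1 : ℕ) + p.2 = q.1 + q.2 ∧ (q.1 : ℕ) ≤ p.2 then
    (-1) ^ ((p.2 : ℕ) - q.1) *
      ((v ^ (((N : ℤ) - 1) * (1 + (q.1 : ℕ) + (q.2 : ℕ)) - 2 * (q.1 : ℕ) * (q.2 : ℕ)) : Aˣ) : A) *
      ((v⁻¹ : Aˣ) : A) ^ (((p.2 : ℕ) - q.1) * ((p.2 : ℕ) - q.1 - 1) / 2) *
      gb v p.2 ((p.2 : ℕ) - q.1) *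
      ∏ t ∈ range ((p.2 : ℕ) - q.1), gbr v ((N : ℤ) - (q.2 : ℕ) + t)
    else 0

def ggen {ι : Type} [DecidableEq ι] (M : Matrix (ι × ι) (ι × ι) A) (n k : ℕ) :
    Matrix (Fin n → ι) (Fin n → ι) A :=
  fun s t => if h : k + 1 < n then
    (if ∀ j : Fin n, (j : ℕ) ≠ k → (j : ℕ) ≠ k + 1 → s j = t j then
      M (s ⟨k, by omega⟩, s ⟨k + 1, h⟩) (t ⟨k, by omega⟩, t ⟨k + 1, h⟩) else 0)
    else (if s = t then 1 else 0)

def grep {ι : Type} [Fintype ι] [DecidableEq ι] (P Q : Matrix (ι × ι) (ι × ι) A) (n : ℕ)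
    (w : List (ℕ × Bool)) : Matrix (Fin n → ι) (Fin n → ι) A :=
  (w.map fun g => ggen (if g.2 then P else Q) n g.1).prod

def gtail {ι : Type} [Fintype ι] (k : ι → A) (n : ℕ)
    (M : Matrix (Fin (n + 1) → ι) (Fin (n + 1) → ι) A) : Matrix ι ι A :=
  fun i j => ∑ s : Fin n → ι, (∏ x, k (s x)) * M (Fin.cons i s) (Fin.cons j s)

/-- The coloured Jones polynomial over a ring. -/
def cj (N n : ℕ) (w : List (ℕ × Bool)) (v : Aˣ) : A :=
  if h : 0 < N then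
    gtail (fun x : Fin N => ((v ^ ((N : ℤ) - 1 - 2 * (x : ℕ)) : Aˣ) : A)) n
      (grep (gP N v) (gN N v) (n + 1) w) ⟨0, h⟩ ⟨0, h⟩ else 0

/-! ### functoriality -/

lemma map_zp (φ : A →+* B) (v : Aˣ) (n : ℤ) :
    φ ((v ^ n : Aˣ) : A) = (((Units.map (φ : A →* B) v) ^ n : Bˣ) : B) := by
  rw [← map_zpow]; rfl

lemma map_gbr (φ : A →+* B) (v : Aˣ) (n : ℤ) :
    φ (gbr v n) = gbr (Units.map (φ : A →* B) v) n := by
  rw [gbr, gbr, map_sub, map_zp, map_zp]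

lemma map_gb (φ : A →+* B) (v : Aˣ) : ∀ a b : ℕ,
    φ (gb v a b) = gb (Units.map (φ : A →* B) v) a b
  | _, 0 => by simp [gb]
  | 0, _ + 1 => by simp [gb]
  | a + 1, b + 1 => by
      rw [gb, gb, map_add, map_mul, map_mul, map_zp, map_zp, map_gb φ v a (b + 1), map_gb φ v a b]

lemma map_gP (φ : A →+* B) (N : ℕ) (v : Aˣ) :
    (gP N v).map φ = gP N (Units.map (φ : A →* B) v) := by
  ext p q
  rw [Matrix.map_apply, gP, gP]
  split_ifs
  · rw [map_mul, map_mul, map_mul, map_zp, map_pow, map_gb, map_prod]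
    simp only [map_gbr]
    rfl
  · exact map_zero φ

lemma map_gN (φ : A →+* B) (N : ℕ) (v : Aˣ) :
    (gN N v).map φ = gN N (Units.map (φ : A →* B) v) := by
  ext p q
  rw [Matrix.map_apply, gN, gN]
  split_ifs
  · rw [map_mul, map_mul, map_mul, map_mul, map_zp, map_pow, map_pow, map_gb, map_prod, map_neg,
      map_one]
    simp only [map_gbr]
    rfl
  · exact map_zero φ

lemma map_ggen {ι : Type} [DecidableEq ι] (φ : A →+* B) (M : Matrix (ι × ι) (ι × ι) A)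
    (n k : ℕ) : (ggen M n k).map φ = ggen (M.map φ) n k := by
  ext s t
  rw [Matrix.map_apply, ggen, ggen]
  split_ifs <;> simp

lemma map_grep {ι : Type} [Fintype ι] [DecidableEq ι] (φ : A →+* B)
    (P Q : Matrix (ι × ι) (ι × ι) A) (n : ℕ) (w : List (ℕ × Bool)) :
    (grep P Q n w).map φ = grep (P.map φ) (Q.map φ) n w := by
  induction w with
  | nil => simp [grep]
  | cons g w ih =>
    have h1 : ∀ (P Q : Matrix (ι × ι) (ι × ι) A), grep P Q n (g :: w) =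
      ggen (if g.2 then P else Q) n g.1 * grep P Q n w := fun P Q => by simp [grep]
    have h2 : ∀ (P Q : Matrix (ι × ι) (ι × ι) B), grep P Q n (g :: w) =
      ggen (if g.2 then P else Q) n g.1 * grep P Q n w := fun P Q => by simp [grep]
    rw [h1, h2, Matrix.map_mul, ih, map_ggen]
    split_ifs <;> rfl

lemma map_cj (φ : A →+* B) (N n : ℕ) (w : List (ℕ × Bool)) (v : Aˣ) :
    φ (cj N n w v) = cj N n w (Units.map (φ : A →* B) v) := by
  rw [cj, cj]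
  split_ifs with h
  · rw [gtail, gtail, map_sum]
    refine Finset.sum_congr rfl fun s _ => ?_
    rw [map_mul, map_prod, ← map_gP, ← map_gN, ← map_grep, Matrix.map_apply]
    simp only [map_zp]
  · exact map_zero φ

/-! ### comparison over `ℂ` -/

lemma gbr_coe (v : ℂˣ) (n : ℤ) : gbr v n = Pool.Agent.H550R3.Jones.br (v : ℂ) n := by
  rw [gbr, Pool.Agent.H550R3.Jones.br, Units.val_zpow_eq_zpow_val, Units.val_zpow_eq_zpow_val]

lemma gb_fac (v : Aˣ) : ∀ a b : ℕ, gb v a b * ∏ j ∈ range b, gbr v ((j : ℤ) + 1) =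
    ∏ t ∈ range b, gbr v ((a : ℤ) - t)
  | _, 0 => by simp [gb]
  | 0, b + 1 => by
      have h : ∏ t ∈ range (b + 1), gbr v (((0 : ℕ) : ℤ) - t) = 0 :=
        Finset.prod_eq_zero (i := 0) (by simp) (by simp [gbr])
      rw [h, gb, zero_mul]
  | a + 1, b + 1 => by
      have h1 := gb_fac v a (b + 1)
      have h2 := gb_fac v a b
      have e1 : ∏ t ∈ range (b + 1), gbr v (((a + 1 : ℕ) : ℤ) - t) =
          gbr v ((a : ℤ) + 1) * ∏ t ∈ range b, gbr v ((a : ℤ) - t) := by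
        have z0 : (((a + 1 : ℕ) : ℤ) - ((0 : ℕ) : ℤ)) = (a : ℤ) + 1 := by push_cast; ring
        have z1 : ∀ t : ℕ, (((a + 1 : ℕ) : ℤ) - ((t + 1 : ℕ) : ℤ)) = (a : ℤ) - t := by
          intro t; push_cast; ring
        rw [Finset.prod_range_succ', z0, mul_comm (gbr v ((a : ℤ) + 1))]
        simp only [z1]
      rw [e1, gb, add_mul, mul_assoc, mul_assoc, h1, Finset.prod_range_succ _ b,
        Finset.prod_range_succ _ b, ← mul_assoc (gb v a b), h2]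
      have e2 : gbr v ((a : ℤ) + 1) = ((v ^ ((b : ℤ) + 1) : Aˣ) : A) * gbr v ((a : ℤ) - b) +
          ((v ^ (-((a : ℤ) - b)) : Aˣ) : A) * gbr v ((b : ℤ) + 1) := by
        simp only [gbr, mul_sub, ← Units.val_mul, ← _root_.zpow_add]
        have a1 : (b : ℤ) + 1 + (a - b) = a + 1 := by ring
        have a2 : (b : ℤ) + 1 + -(a - b) = -(a - b) + (b + 1) := by ring
        have a3 : -((a : ℤ) - b) + -(b + 1) = -(a + 1) := by ring
        rw [a1, a2, a3]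
        ring
      rw [e2]
      ring

lemma brf_ne {v : ℂ} {N : ℕ} (h : ∀ k : ℕ, 0 < k → k < N →
    Pool.Agent.H550R3.Jones.br v k ≠ 0) (a : ℕ) (ha : a < N) :
    Pool.Agent.H550R3.Jones.brf v a ≠ 0 := by
  rw [Pool.Agent.H550R3.Jones.brf]
  refine Finset.prod_ne_zero_iff.2 fun j hj => ?_
  have := h (j + 1) (by omega) (by have := Finset.mem_range.1 hj; omega)
  exact_mod_cast this

lemma gb_eq (v : ℂˣ) {N : ℕ} (h : ∀ k : ℕ, 0 < k → k < N →
    Pool.Agent.H550R3.Jones.br (v : ℂ) k ≠ 0) (a b : ℕ) (ha : a < N) (hb : b ≤ a) :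
    gb v a b = Pool.Agent.H550R3.Jones.brf (v : ℂ) a /
      (Pool.Agent.H550R3.Jones.brf (v : ℂ) (a - b) * Pool.Agent.H550R3.Jones.brf (v : ℂ) b) := by
  have h1 := gb_fac v a b
  have h2 : ∏ j ∈ range b, gbr v ((j : ℤ) + 1) = Pool.Agent.H550R3.Jones.brf (v : ℂ) b := by
    rw [Pool.Agent.H550R3.Jones.brf]
    exact Finset.prod_congr rfl fun j _ => gbr_coe v _
  have h3 : Pool.Agent.H550R3.Jones.brf (v : ℂ) a = Pool.Agent.H550R3.Jones.brf (v : ℂ) (a - b) *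
      ∏ t ∈ range b, gbr v ((a : ℤ) - t) := by
    obtain ⟨c, rfl⟩ := Nat.exists_eq_add_of_le' hb
    rw [Nat.add_sub_cancel, Pool.Agent.H550R3.Jones.brf, Pool.Agent.H550R3.Jones.brf,
      Finset.prod_range_add]
    congr 1
    rw [← Finset.prod_range_reflect]
    refine Finset.prod_congr rfl fun t ht => ?_
    have := Finset.mem_range.1 ht
    rw [gbr_coe]
    congr 1
    push_cast [Nat.cast_sub (show t ≤ b - 1 by omega), Nat.cast_sub (show 1 ≤ b by omega)]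
    ring
  rw [h2] at h1
  rw [h3, ← h1]
  have n1 := brf_ne h b (by omega)
  have n2 := brf_ne h (a - b) (by omega)
  field_simp

lemma gP_eq (v : ℂˣ) {N : ℕ} (h : ∀ k : ℕ, 0 < k → k < N →
    Pool.Agent.H550R3.Jones.br (v : ℂ) k ≠ 0) :
    gP N v = Pool.Agent.H550R3.Jones.crossP N (v : ℂ) := by
  ext p q
  rw [gP, Pool.Agent.H550R3.Jones.crossP]
  split_ifs with hc
  · rw [gb_eq v h _ _ p.1.2 (Nat.sub_le _ _), Nat.sub_sub_self hc.2, Units.val_zpow_eq_zpow_val]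
    simp only [gbr_coe]
  · rfl

lemma gN_eq (v : ℂˣ) {N : ℕ} (h : ∀ k : ℕ, 0 < k → k < N →
    Pool.Agent.H550R3.Jones.br (v : ℂ) k ≠ 0) :
    gN N v = Pool.Agent.H550R3.Jones.crossN N (v : ℂ) := by
  ext p q
  rw [gN, Pool.Agent.H550R3.Jones.crossN]
  split_ifs with hc
  · rw [gb_eq v h _ _ p.2.2 (Nat.sub_le _ _), Nat.sub_sub_self hc.2, Units.val_zpow_eq_zpow_val,
      Units.val_inv_eq_inv_val, inv_pow]
    simp only [gbr_coe, div_eq_mul_inv]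
  · rfl

lemma cj_eq (v : ℂˣ) {N : ℕ} (h : ∀ k : ℕ, 0 < k → k < N →
    Pool.Agent.H550R3.Jones.br (v : ℂ) k ≠ 0) (n : ℕ) (w : List (ℕ × Bool)) :
    cj N n w v = Pool.Agent.H550R3.Jones.cjones N n w (v : ℂ) := by
  rw [cj, Pool.Agent.H550R3.Jones.cjones, gP_eq v h, gN_eq v h]
  split_ifs with hN
  · rw [gtail, Pool.Agent.H550R3.Jones.tail]
    refine Finset.sum_congr rfl fun s _ => ?_
    congr 1
    refine Finset.prod_congr rfl fun x _ => ?_
    rw [Units.val_zpow_eq_zpow_val]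
  · rfl

end Pool.Agent.U476.NB
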