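import Pool.Agent.U476.NB.Gen

/-! The product over the Galois conjugates is an integer. -/

set_option autoImplicit false

namespace Pool.Agent.U476.NB

open Finset NumberField
open Pool.Agent.H550R3.Jones (cjones br brf crossP crossN gen rep)


lemma br_ne_prim {r : ℕ} {μ : ℂ} (h : IsPrimitiveRoot μ (2 * r)) (k : ℕ) (hk : 0 < k)
    (hkr : k < r) : br μ k ≠ 0 := by
  have h0 : μ ≠ 0 := h.ne_zero (by omega)
  intro hb
  rw [Pool.Agent.H550R3.Jones.br, sub_eq_zero] at hb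
  have h1 : μ ^ (2 * k) = 1 := by
    have : μ ^ ((k : ℤ) + k) = 1 := by
      rw [zpow_add₀ h0]
      nth_rw 2 [hb]
      rw [← zpow_add₀ h0]
      simp
    have e : ((2 * k : ℕ) : ℤ) = k + k := by push_cast; ring
    rw [← zpow_natCast, e, this]
  have h2 := h.pow_ne_one_of_pos_of_lt (l := 2 * k) (by omega) (by omega)
  exact h2 h1

section aux

variable {r : ℕ} (hr : 0 < r) {K : Type} [Field K] [NumberField K] {ζ : K}
  (hζ : IsPrimitiveRoot ζ (2 * r))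

/-- The unit of the ring of integers. -/
noncomputable def uu [NeZero (2 * r)] (hζ : IsPrimitiveRoot ζ (2 * r)) : (𝓞 K)ˣ :=
  (hζ.toInteger_isPrimitiveRoot.isUnit (NeZero.ne _)).unit

include hζ

lemma emb [NeZero (2 * r)] (N n : ℕ) (hN : N ≤ r) (w : List (ℕ × Bool)) (σ : K →ₐ[ℚ] ℂ) :
    σ ((cj N n w (uu hζ) : 𝓞 K) : K) = cjones N n w (σ ζ) := by
  have h1 : σ ((cj N n w (uu hζ) : 𝓞 K) : K) =
    ((σ : K →+* ℂ).comp (algebraMap (𝓞 K) K)) (cj N n w (uu hζ)) := rfl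
  rw [h1, map_cj]
  have h2 : IsPrimitiveRoot (σ ζ) (2 * r) := hζ.map_of_injective σ.toRingHom.injective
  have h3 : ((Units.map (((σ : K →+* ℂ).comp (algebraMap (𝓞 K) K) : 𝓞 K →+* ℂ) :
      𝓞 K →* ℂ) (uu hζ) : ℂˣ) : ℂ) = σ ζ := by
    rw [Units.coe_map]
    change σ (((uu hζ : (𝓞 K)ˣ) : 𝓞 K) : K) = σ ζ
    have hu : ((uu hζ : (𝓞 K)ˣ) : 𝓞 K) = hζ.toInteger := IsUnit.unit_spec _
    rw [hu]
    rfl
  rw [cj_eq _ (N := N) (by rw [h3]; exact fun k h0 hk => br_ne_prim h2 k h0 (by omega)), h3]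

end aux

theorem norm_aux (r N n : ℕ) (w : List (ℕ × Bool)) (hr : 0 < r) (hN : N ≤ r) (K : Type) [Field K]
    [NumberField K] [NeZero (2 * r)] [IsCyclotomicExtension {2 * r} ℚ K] :
    ∃ M : ℤ, (M : ℂ) = ∏ μ ∈ primitiveRoots (2 * r) ℂ, cjones N n w μ ∧
      ∀ μ ∈ primitiveRoots (2 * r) ℂ, cjones N n w μ ≠ 0 → M ≠ 0 := by
  have hζ : IsPrimitiveRoot (IsCyclotomicExtension.zeta (2 * r) ℚ K) (2 * r) :=
    IsCyclotomicExtension.zeta_spec (2 * r) ℚ K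
  set ζ := IsCyclotomicExtension.zeta (2 * r) ℚ K with hζd
  let X : 𝓞 K := cj N n w (uu hζ)
  have hirr : Irreducible (Polynomial.cyclotomic (2 * r) ℚ) :=
    Polynomial.cyclotomic.irreducible_rat (by omega)
  have hσ : ∀ σ : K →ₐ[ℚ] ℂ, σ (X : K) = cjones N n w (σ ζ) := emb hζ N n hN w
  have hprod : (algebraMap ℚ ℂ) (Algebra.norm ℚ (X : K)) =
      ∏ μ ∈ primitiveRoots (2 * r) ℂ, cjones N n w μ := by
    rw [Algebra.norm_eq_prod_embeddings ℚ ℂ (X : K)]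
    rw [← Finset.prod_coe_sort (primitiveRoots (2 * r) ℂ)]
    refine Fintype.prod_equiv (hζ.embeddingsEquivPrimitiveRoots ℂ hirr) _ _ fun σ => ?_
    rw [hσ σ, IsPrimitiveRoot.embeddingsEquivPrimitiveRoots_apply_coe]
  refine ⟨Algebra.norm ℤ X, ?_, ?_⟩
  · rw [← hprod, ← Algebra.coe_norm_int X]
    simp
  · intro μ hμ hne h0
    have h1 : Algebra.norm ℚ (X : K) = 0 := by
      rw [← Algebra.coe_norm_int X, h0]; simp
    rw [h1, map_zero] at hprod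
    have h2 : (X : K) = 0 := Algebra.norm_eq_zero_iff.1 h1
    obtain ⟨σ, hs⟩ := (hζ.embeddingsEquivPrimitiveRoots ℂ hirr).surjective ⟨μ, hμ⟩
    have h3 : σ ζ = μ := by
      have := congrArg Subtype.val hs
      rwa [IsPrimitiveRoot.embeddingsEquivPrimitiveRoots_apply_coe] at this
    apply hne
    rw [← h3, ← hσ, h2, map_zero]

lemma cyc_inst (r : ℕ) (hr : 0 < r) : @IsCyclotomicExtension {2 * r} ℚ
    (CyclotomicField (2 * r) ℚ) _ _ DivisionRing.toRatAlgebra := by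
  have : NeZero (2 * r) := ⟨by omega⟩
  have h2 : @IsCyclotomicExtension {2 * r} ℚ (CyclotomicField (2 * r) ℚ) _ _
      (CyclotomicField.algebra (2 * r) ℚ) := inferInstance
  convert h2
  exact Subsingleton.elim _ _

theorem conj_prod (r N n : ℕ) (w : List (ℕ × Bool)) (hr : 0 < r) (hN : N ≤ r) :
    ∃ M : ℤ, (M : ℂ) = ∏ μ ∈ primitiveRoots (2 * r) ℂ, cjones N n w μ ∧
      ∀ μ ∈ primitiveRoots (2 * r) ℂ, cjones N n w μ ≠ 0 → M ≠ 0 := by
  have : NeZero (2 * r) := ⟨by omega⟩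
  exact @norm_aux r N n w hr hN (CyclotomicField (2 * r) ℚ) _ _ _ (cyc_inst r hr)

theorem one_le_prod (r N n : ℕ) (w : List (ℕ × Bool)) (hr : 0 < r) (hN : N ≤ r) (μ : ℂ)
    (hμ : μ ∈ primitiveRoots (2 * r) ℂ) (h : cjones N n w μ ≠ 0) :
    1 ≤ ∏ μ ∈ primitiveRoots (2 * r) ℂ, ‖cjones N n w μ‖ := by
  obtain ⟨M, h1, h2⟩ := conj_prod r N n w hr hN
  rw [← norm_prod, ← h1]
  have h3 : (1 : ℝ) ≤ |(M : ℝ)| := by
    have := Int.one_le_abs (h2 μ hμ h)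
    exact_mod_cast this
  simpa using h3

end Pool.Agent.U476.NB
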