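import Pool.Agent.U476.NB.Exc
import Pool.Agent.U476.NB.Dens4

/-! Polynomial relations between the invariants of several knots. -/

set_option autoImplicit false

namespace Pool.Agent.U476.NB

open Finset NumberField
open Pool.Agent.H550R3.Jones (cjones br brf crossP crossN gen rep)

section rel

variable {s : ℕ} (kn : Fin s → ℕ × List (ℕ × Bool)) (P : MvPolynomial (Option (Fin s)) ℤ)

/-- the values over a ring -/
def gv {A : Type} [CommRing A] (N : ℕ) (u : Aˣ) : Option (Fin s) → A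
  | none => (u : A) ^ 2
  | some i => cj N (kn i).1 (kn i).2 u

/-- the value of the polynomial over a ring -/
noncomputable def GG {A : Type} [CommRing A] (N : ℕ) (u : Aˣ) : A :=
  MvPolynomial.aeval (gv kn N u) P

/-- the values over `ℂ` -/
noncomputable def cv (N : ℕ) (v : ℂ) : Option (Fin s) → ℂ
  | none => v ^ 2
  | some i => cjones N (kn i).1 (kn i).2 v

/-- the value of the polynomial over `ℂ` -/
noncomputable def GC (N : ℕ) (v : ℂ) : ℂ := MvPolynomial.aeval (cv kn N v) P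

lemma map_aev {A B : Type} [CommRing A] [CommRing B] (φ : A →+* B) (f : Option (Fin s) → A) :
    φ (MvPolynomial.aeval f P) = MvPolynomial.aeval (fun o => φ (f o)) P := by
  rw [MvPolynomial.map_aeval, MvPolynomial.aeval_def, MvPolynomial.coe_eval₂Hom]
  congr 1
  exact RingHom.ext_int _ _

lemma map_GG {A B : Type} [CommRing A] [CommRing B] (φ : A →+* B) (N : ℕ) (u : Aˣ) :
    φ (GG kn P N u) = GG kn P N (Units.map (φ : A →* B) u) := by
  have h : (fun o => φ (gv kn N u o)) = gv kn N (Units.map (φ : A →* B) u) := by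
    funext o
    cases o with
    | none => simp [gv]
    | some i => rw [gv, gv, map_cj]
  rw [GG, GG, map_aev, h]

lemma GG_eq (v : ℂˣ) {N : ℕ} (h : ∀ k : ℕ, 0 < k → k < N →
    Pool.Agent.H550R3.Jones.br (v : ℂ) k ≠ 0) : GG kn P N v = GC kn P N (v : ℂ) := by
  have h1 : gv kn N v = cv kn N (v : ℂ) := by
    funext o
    cases o with
    | none => rfl
    | some i => rw [gv, cv, cj_eq v h]
  rw [GG, GC, h1]


/-- all the closures are knots -/
def Kn : Prop := ∀ i : Fin s, ∀ k : Fin ((kn i).1 + 1), ∃ j : ℕ,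
  (perm ((kn i).1 + 1) (kn i).2 ^ j) 0 = k

variable {kn}

theorem key' {O : Type} [CommRing O] {p m a : ℕ} (hw : Kn kn) (hp : p.Prime) (hp2 : p ≠ 2)
    (hm : 0 < m) (hpm : Nat.Coprime p m)
    (u ω η : Oˣ) (hu : u ^ (m * p ^ a) = -1) (hω : ω ^ m = -1) (hη : η ^ p ^ a = 1)
    (huω : ω = u * η)
    (hdvd : ∀ k : ℕ, 0 < k → k < m → ∃ c : O, (1 - (ω : O) ^ (2 * k)) * c = m)
    (h0 : GG kn P (m * p ^ a) u = 0) : (p : O) ∣ GG kn P m ω := by
  -- nilpotent modulo `p`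
  have hrad : GG kn P m ω ∈ (Ideal.span {(p : O)}).radical := by
    set I := (Ideal.span {(p : O)}).radical with hI
    set π := Ideal.Quotient.mk I with hπ
    have hp0 : ((p : ℕ) : O ⧸ I) = 0 := by
      rw [← map_natCast π, Ideal.Quotient.eq_zero_iff_mem]
      exact Ideal.le_radical (Ideal.mem_span_singleton_self _)
    set β : (O ⧸ I)ˣ := Units.map (π : O →* O ⧸ I) ω with hβ
    have hη1 : Units.map (π : O →* O ⧸ I) η = 1 := by
      apply Units.ext
      rw [Units.coe_map, Units.val_one]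
      have h1 : (η : O) ^ p ^ a = 1 := by
        rw [← Units.val_pow_eq_pow_val, hη, Units.val_one]
      have h2 := nilp_one hp hp2 a (η : O) h1
      have h3 : π (η : O) - 1 = 0 := by
        rw [← map_one π, ← map_sub, Ideal.Quotient.eq_zero_iff_mem]
        exact h2
      exact sub_eq_zero.1 h3
    have hβu : Units.map (π : O →* O ⧸ I) u = β := by
      rw [hβ, huω, map_mul, hη1, mul_one]
    have hβm : β ^ m = -1 := by
      rw [hβ, ← map_pow, hω]
      apply Units.ext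
      simp
    have hβN : β ^ (m * p ^ a) = -1 := by
      rw [← hβu, ← map_pow, hu]
      apply Units.ext
      simp
    have hle : m ≤ m * p ^ a := Nat.le_mul_of_pos_right m (pow_pos hp.pos a)
    have hpar : β ^ (m * p ^ a - m) = 1 := by
      have h1 : β ^ (m * p ^ a - m) * β ^ m = β ^ (m * p ^ a) := by
        rw [← pow_add]; congr 1; omega
      rw [hβm, hβN] at h1
      calc β ^ (m * p ^ a - m) = β ^ (m * p ^ a - m) * -1 * -1 := by
            rw [mul_assoc]; simp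
        _ = 1 := by rw [h1]; simp
    have hmu : IsUnit ((m : ℕ) : O ⧸ I) := isUnit_natCast_of_coprime hpm hp0
    have hun : ∀ k : ℕ, 0 < k → k < m → IsUnit (gbr β k) := by
      intro k hk hkm
      obtain ⟨c, hc⟩ := hdvd k hk hkm
      have h1 : (1 - (β : O ⧸ I) ^ (2 * k)) * π c = m := by
        have h2 := congrArg π hc
        rw [map_mul, map_sub, map_one, map_pow, map_natCast] at h2
        exact h2
      have h2 : IsUnit (1 - (β : O ⧸ I) ^ (2 * k)) := by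
        rw [← h1] at hmu
        exact isUnit_of_mul_isUnit_left hmu
      have h3 : gbr β k = -((β ^ (-(k : ℤ)) : (O ⧸ I)ˣ) : O ⧸ I) *
          (1 - (β : O ⧸ I) ^ (2 * k)) := by
        rw [gbr]
        have h4 : (β : O ⧸ I) ^ (2 * k) = ((β ^ (2 * (k : ℤ)) : (O ⧸ I)ˣ) : O ⧸ I) := by
          rw [← Units.val_pow_eq_pow_val]
          congr 1
        rw [h4, mul_sub, mul_one, neg_mul, ← Units.val_mul, ← zpow_add]
        have h5 : -(k : ℤ) + 2 * k = k := by ring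
        rw [h5]
        ring
      rw [h3]
      exact ((Units.isUnit _).neg).mul h2
    have h1 : GG kn P (m * p ^ a) β = GG kn P m β := by
      have h2 : gv kn (m * p ^ a) β = gv kn m β := by
        funext o
        cases o with
        | none => rfl
        | some i =>
          exact cj_cls m (m * p ^ a) hm hle β hβN hβm hpar (Dvd.intro _ rfl) hun (kn i).1
            (kn i).2 (hw i)
      rw [GG, GG, h2]
    have h2 := map_GG kn P π (m * p ^ a) u
    have h3 := map_GG kn P π m ω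
    rw [hβu, h0, map_zero] at h2
    rw [← hβ, ← h1, ← h2] at h3
    exact Ideal.Quotient.eq_zero_iff_mem.1 h3
  -- reduced modulo `p`
  obtain ⟨s', hs⟩ := Ideal.mem_radical_iff.1 hrad
  rw [← Ideal.mem_span_singleton]
  set J := Ideal.span {(p : O)} with hJ
  rcases subsingleton_or_nontrivial (O ⧸ J) with hsub | hnt
  · exact Ideal.Quotient.eq_zero_iff_mem.1 (Subsingleton.elim _ _)
  have hp0 : ((p : ℕ) : O ⧸ J) = 0 := by
    rw [← map_natCast (Ideal.Quotient.mk J), Ideal.Quotient.eq_zero_iff_mem]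
    exact Ideal.mem_span_singleton_self _
  have : Fact p.Prime := ⟨hp⟩
  have hchar : CharP (O ⧸ J) p := (CharP.charP_iff_prime_eq_zero hp).2 hp0
  set f := (2 * m).totient with hf
  have hf0 : 0 < f := Nat.totient_pos.2 (by omega)
  have hcop : Nat.Coprime p (2 * m) := by
    refine Nat.Coprime.mul_right ?_ hpm
    exact (Nat.coprime_primes hp Nat.prime_two).2 hp2
  have hmod : p ^ f ≡ 1 [MOD 2 * m] := Nat.ModEq.pow_totient hcop
  have hω2 : ω ^ (2 * m) = 1 := by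
    rw [mul_comm, pow_mul, hω]; simp
  have hωf : ω ^ p ^ f = ω := by
    have h1 : 1 ≤ p ^ f := Nat.one_le_pow _ _ hp.pos
    obtain ⟨c, hc⟩ := (Nat.modEq_iff_dvd' h1).1 hmod.symm
    have h2 : p ^ f = 2 * m * c + 1 := by omega
    rw [h2, pow_succ, pow_mul, hω2, one_pow, one_mul]
  set π := Ideal.Quotient.mk J with hπ
  set F : O →+* O ⧸ J := (iterateFrobenius (O ⧸ J) p f).comp π with hF
  have hFω : Units.map (F : O →* O ⧸ J) ω = Units.map (π : O →* O ⧸ J) ω := by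
    apply Units.ext
    rw [Units.coe_map, Units.coe_map]
    change (π (ω : O)) ^ p ^ f = π (ω : O)
    rw [← map_pow, ← Units.val_pow_eq_pow_val, hωf]
  have h1 : F (GG kn P m ω) = π (GG kn P m ω) := by
    rw [map_GG, map_GG, hFω]
  have h2 : (π (GG kn P m ω)) ^ p ^ f = π (GG kn P m ω) := h1
  have h3 : ∀ k : ℕ, (π (GG kn P m ω)) ^ (p ^ f) ^ k = π (GG kn P m ω) := by
    intro k
    induction k with
    | zero => rw [pow_zero, pow_one]
    | succ k ih => rw [pow_succ, pow_mul, ih, h2]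
  have h4 : (π (GG kn P m ω)) ^ s' = 0 := by
    rw [← map_pow, Ideal.Quotient.eq_zero_iff_mem]
    exact hs
  have h5 : s' ≤ (p ^ f) ^ s' := by
    have : 1 < p ^ f := Nat.one_lt_pow (by omega) hp.one_lt
    exact (Nat.lt_pow_self this).le
  have h6 : π (GG kn P m ω) = 0 := by
    rw [← h3 s']
    obtain ⟨d, hd⟩ := Nat.exists_eq_add_of_le h5
    rw [hd, pow_add, h4, zero_mul]
  exact Ideal.Quotient.eq_zero_iff_mem.1 h6

lemma emb2' {K : Type} [Field K] [NumberField K] (ω : (𝓞 K)ˣ) (m : ℕ)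
    (σ : K →ₐ[ℚ] ℂ) (h2 : IsPrimitiveRoot (σ ((ω : 𝓞 K) : K)) (2 * m)) :
    σ ((GG kn P m ω : 𝓞 K) : K) = GC kn P m (σ ((ω : 𝓞 K) : K)) := by
  have h1 : σ ((GG kn P m ω : 𝓞 K) : K) =
    ((σ : K →+* ℂ).comp (algebraMap (𝓞 K) K)) (GG kn P m ω) := rfl
  rw [h1, map_GG]
  have h3 : ((Units.map (((σ : K →+* ℂ).comp (algebraMap (𝓞 K) K) : 𝓞 K →+* ℂ) :
      𝓞 K →* ℂ) ω : ℂˣ) : ℂ) = σ ((ω : 𝓞 K) : K) := rfl
  rw [GG_eq _ _ _ (N := m) (by rw [h3]; exact fun k h0 hk => br_ne_prim h2 k h0 hk), h3]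

theorem div_aux' {p m a : ℕ} (hw : Kn kn) (hp : p.Prime) (hp2 : p ≠ 2) (hm : 0 < m)
    (hpm : Nat.Coprime p m)
    (K : Type) [Field K] [NumberField K] [NeZero (2 * (m * p ^ a))]
    [IsCyclotomicExtension {2 * (m * p ^ a)} ℚ K] (μ₀ : ℂ)
    (hμ₀ : μ₀ ∈ primitiveRoots (2 * (m * p ^ a)) ℂ) (h0 : GC kn P (m * p ^ a) μ₀ = 0) (μ : ℂ)
    (hμ : μ ∈ primitiveRoots (2 * m) ℂ) : IsIntegral ℤ (GC kn P m μ / p) := by
  have hζ : IsPrimitiveRoot (IsCyclotomicExtension.zeta (2 * (m * p ^ a)) ℚ K)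
      (2 * (m * p ^ a)) := IsCyclotomicExtension.zeta_spec (2 * (m * p ^ a)) ℚ K
  set ζ := IsCyclotomicExtension.zeta (2 * (m * p ^ a)) ℚ K with hζd
  have hirr : Irreducible (Polynomial.cyclotomic (2 * (m * p ^ a)) ℚ) :=
    Polynomial.cyclotomic.irreducible_rat (Nat.pos_of_neZero _)
  have hpa : 0 < p ^ a := pow_pos hp.pos a
  have hemb : ∀ ξ ∈ primitiveRoots (2 * (m * p ^ a)) ℂ, ∃ σ : K →ₐ[ℚ] ℂ, σ ζ = ξ := by
    intro ξ hξ
    obtain ⟨σ, hs⟩ := (hζ.embeddingsEquivPrimitiveRoots ℂ hirr).surjective ⟨ξ, hξ⟩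
    refine ⟨σ, ?_⟩
    have := congrArg Subtype.val hs
    rwa [IsPrimitiveRoot.embeddingsEquivPrimitiveRoots_apply_coe] at this
  set u : (𝓞 K)ˣ := uu hζ with hud
  have hu1 : ((u : (𝓞 K)ˣ) : 𝓞 K) = hζ.toInteger := IsUnit.unit_spec _
  have hup : IsPrimitiveRoot ((u : (𝓞 K)ˣ) : 𝓞 K) (2 * (m * p ^ a)) := by
    rw [hu1]; exact hζ.toInteger_isPrimitiveRoot
  have hup' : IsPrimitiveRoot u (2 * (m * p ^ a)) := IsPrimitiveRoot.coe_units_iff.1 hup
  -- the zero in the ring of integers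
  have hz : GG kn P (m * p ^ a) u = 0 := by
    obtain ⟨σ, hσ⟩ := hemb μ₀ hμ₀
    have hσu : σ ((u : 𝓞 K) : K) = μ₀ := by rw [← hσ, hu1]; rfl
    have h1 := emb2' P (kn := kn) u (m * p ^ a) σ (by
      rw [hσu]; exact isPrimitiveRoot_of_mem_primitiveRoots hμ₀)
    rw [hσu, h0] at h1
    have h2 := (map_eq_zero_iff σ.toRingHom σ.toRingHom.injective).1 h1
    exact_mod_cast h2
  have hcop : Nat.Coprime (p ^ a) (2 * m) := by
    refine Nat.Coprime.pow_left a (Nat.Coprime.mul_right ?_ hpm)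
    exact (Nat.coprime_primes hp Nat.prime_two).2 hp2
  obtain ⟨x, -, hx⟩ := Nat.exists_mul_mod_eq_one_of_coprime hcop (by omega : 1 < 2 * m)
  have hxc : Nat.Coprime x (2 * m) := (coprime_of_mod hx).coprime_mul_left
  have hxodd : Odd x := by
    exact Nat.coprime_two_right.1 hxc.coprime_mul_right_right
  have h2r : 2 * (m * p ^ a) = p ^ a * (2 * m) := by ring
  have hωp : IsPrimitiveRoot (u ^ (p ^ a * x)) (2 * m) := by
    rw [pow_mul]
    exact (hup'.pow (Nat.pos_of_neZero _) h2r).pow_of_coprime x hxc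
  have hur : u ^ (m * p ^ a) = -1 := by
    have h1 : ((u : 𝓞 K)) ^ (m * p ^ a) = -1 := by
      have h2 : ((u : 𝓞 K) ^ (m * p ^ a) - 1) * ((u : 𝓞 K) ^ (m * p ^ a) + 1) = 0 := by
        have := hup.pow_eq_one
        rw [two_mul, pow_add] at this
        linear_combination this
      rcases mul_eq_zero.1 h2 with h | h
      · have h3 : 0 < m * p ^ a := Nat.mul_pos hm hpa
        exact absurd (sub_eq_zero.1 h) (hup.pow_ne_one_of_pos_of_lt (by omega) (by omega))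
      · exact eq_neg_of_add_eq_zero_left h
    apply Units.ext
    rw [Units.val_pow_eq_pow_val, h1]
    simp
  have hω : (u ^ (p ^ a * x)) ^ m = -1 := by
    rw [← pow_mul, show p ^ a * x * m = (m * p ^ a) * x by ring, pow_mul, hur]
    exact hxodd.neg_one_pow
  obtain ⟨c, hc⟩ : ∃ c, p ^ a * x = 2 * m * c + 1 :=
    ⟨p ^ a * x / (2 * m), by have := Nat.div_add_mod (p ^ a * x) (2 * m); omega⟩
  have hη : (u ^ (2 * m * c)) ^ p ^ a = 1 := by
    rw [← pow_mul, show 2 * m * c * p ^ a = 2 * (m * p ^ a) * c by ring, pow_mul,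
      hup'.pow_eq_one, one_pow]
  have huω : u ^ (p ^ a * x) = u * u ^ (2 * m * c) := by
    rw [hc, pow_succ']
  have hdvd : ∀ k : ℕ, 0 < k → k < m → ∃ c : 𝓞 K,
      (1 - ((u ^ (p ^ a * x) : (𝓞 K)ˣ) : 𝓞 K) ^ (2 * k)) * c = m := by
    intro k hk hkm
    obtain ⟨l, rfl⟩ : ∃ l, m = l + 1 := ⟨m - 1, by omega⟩
    have h1 : IsPrimitiveRoot (((u ^ (p ^ a * x) : (𝓞 K)ˣ) : 𝓞 K) ^ 2) (l + 1) :=
      (IsPrimitiveRoot.coe_units_iff.2 hωp).pow (by omega) rfl
    have h2 := IsPrimitiveRoot.prod_one_sub_pow_eq_order h1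
    have h3 : (1 - (((u ^ (p ^ a * x) : (𝓞 K)ˣ) : 𝓞 K) ^ 2) ^ (k - 1 + 1)) ∣
        ∏ k ∈ range l, (1 - (((u ^ (p ^ a * x) : (𝓞 K)ˣ) : 𝓞 K) ^ 2) ^ (k + 1)) :=
      Finset.dvd_prod_of_mem _ (mem_range.2 (by omega))
    obtain ⟨c, hc⟩ := h3
    refine ⟨c, ?_⟩
    rw [h2, show k - 1 + 1 = k by omega, ← pow_mul] at hc
    rw [← hc]
    push_cast
    rfl
  obtain ⟨z, hz2⟩ := key' P hw hp hp2 hm hpm u (u ^ (p ^ a * x)) (u ^ (2 * m * c)) hur hω hη huω
    hdvd hz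
  -- the embedding
  have hξ := Complex.isPrimitiveRoot_exp (2 * (m * p ^ a)) (NeZero.ne _)
  set ξ := Complex.exp (2 * Real.pi * Complex.I / ((2 * (m * p ^ a) : ℕ) : ℂ)) with hξd
  have hρ : IsPrimitiveRoot (ξ ^ (p ^ a * x)) (2 * m) := by
    rw [pow_mul]
    exact (hξ.pow (Nat.pos_of_neZero _) h2r).pow_of_coprime x hxc
  have hμ' := isPrimitiveRoot_of_mem_primitiveRoots hμ
  have : NeZero (2 * m) := ⟨by omega⟩
  obtain ⟨j, hj, hjc, hjμ⟩ := hρ.isPrimitiveRoot_iff.1 hμ'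
  obtain ⟨j', hj'1, hj'2⟩ := Nat.chineseRemainder hcop.symm j 1
  have hj'c : Nat.Coprime j' (2 * (m * p ^ a)) := by
    rw [h2r]
    refine Nat.Coprime.mul_right ?_ ?_
    · have : Nat.gcd j' (p ^ a) = Nat.gcd 1 (p ^ a) := hj'2.gcd_eq
      rw [Nat.Coprime, this, Nat.gcd_one_left]
    · have : Nat.gcd j' (2 * m) = Nat.gcd j (2 * m) := hj'1.gcd_eq
      rw [Nat.Coprime, this, hjc.gcd_eq_one]
  have hξ' : ξ ^ j' ∈ primitiveRoots (2 * (m * p ^ a)) ℂ := by
    rw [mem_primitiveRoots (Nat.pos_of_neZero _)]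
    exact hξ.pow_of_coprime j' hj'c
  obtain ⟨σ, hσ⟩ := hemb _ hξ'
  have hσω : σ (((u ^ (p ^ a * x) : (𝓞 K)ˣ) : 𝓞 K) : K) = μ := by
    have h1 : (((u ^ (p ^ a * x) : (𝓞 K)ˣ) : 𝓞 K) : K) = ζ ^ (p ^ a * x) := by
      rw [Units.val_pow_eq_pow_val, hu1]
      change (algebraMap (𝓞 K) K) (hζ.toInteger ^ (p ^ a * x)) = ζ ^ (p ^ a * x)
      rw [map_pow]
      rfl
    rw [h1, map_pow, hσ, ← pow_mul, mul_comm, pow_mul, ← hjμ]
    have h2 := (hρ.pow_eq_one)
    have h3 : ∀ i : ℕ, (ξ ^ (p ^ a * x)) ^ i = (ξ ^ (p ^ a * x)) ^ (i % (2 * m)) := by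
      intro i
      conv_lhs => rw [← Nat.div_add_mod i (2 * m), pow_add, pow_mul, h2, one_pow, one_mul]
    rw [h3 j', h3 j, hj'1]
  have h4 := emb2' P (kn := kn) (u ^ (p ^ a * x)) m σ (by rw [hσω]; exact hμ')
  rw [hσω, hz2] at h4
  rw [← h4]
  have hp0 : (p : ℂ) ≠ 0 := by exact_mod_cast hp.ne_zero
  have h5 : σ ((((p : 𝓞 K) * z : 𝓞 K)) : K) / p = σ (z : K) := by
    have e : (((p : 𝓞 K) * z : 𝓞 K) : K) = (p : K) * (z : K) := by
      change (algebraMap (𝓞 K) K) ((p : 𝓞 K) * z) = (p : K) * (z : K)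
      rw [map_mul, map_natCast]
    rw [e, map_mul, map_natCast]
    field_simp
  rw [h5]
  exact (RingOfIntegers.isIntegral_coe z).map (σ.restrictScalars ℤ)

/-- If the value of colour `m p ^ a` vanishes then `p` divides the value of colour `m`. -/
theorem div_int' {p m a : ℕ} (hw : Kn kn) (hp : p.Prime) (hp2 : p ≠ 2) (hm : 0 < m)
    (hpm : Nat.Coprime p m) (μ₀ : ℂ) (hμ₀ : μ₀ ∈ primitiveRoots (2 * (m * p ^ a)) ℂ)
    (h0 : GC kn P (m * p ^ a) μ₀ = 0) (μ : ℂ)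
    (hμ : μ ∈ primitiveRoots (2 * m) ℂ) : IsIntegral ℤ (GC kn P m μ / p) := by
  have h1 : 0 < m * p ^ a := Nat.mul_pos hm (pow_pos hp.pos a)
  have : NeZero (2 * (m * p ^ a)) := ⟨by omega⟩
  exact @div_aux' s kn P p m a hw hp hp2 hm hpm (CyclotomicField (2 * (m * p ^ a)) ℚ) _ _ _
    (cyc_inst (m * p ^ a) h1) μ₀ hμ₀ h0 μ hμ

theorem norm_aux' (r : ℕ) (hr : 0 < r) (K : Type) [Field K]
    [NumberField K] [NeZero (2 * r)] [IsCyclotomicExtension {2 * r} ℚ K] :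
    ∃ M : ℤ, (M : ℂ) = ∏ μ ∈ primitiveRoots (2 * r) ℂ, GC kn P r μ ∧
      ∀ μ ∈ primitiveRoots (2 * r) ℂ, GC kn P r μ ≠ 0 → M ≠ 0 := by
  have hζ : IsPrimitiveRoot (IsCyclotomicExtension.zeta (2 * r) ℚ K) (2 * r) :=
    IsCyclotomicExtension.zeta_spec (2 * r) ℚ K
  set ζ := IsCyclotomicExtension.zeta (2 * r) ℚ K with hζd
  let X : 𝓞 K := GG kn P r (uu hζ)
  have hirr : Irreducible (Polynomial.cyclotomic (2 * r) ℚ) :=
    Polynomial.cyclotomic.irreducible_rat (by omega)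
  have hσ : ∀ σ : K →ₐ[ℚ] ℂ, σ (X : K) = GC kn P r (σ ζ) := by
    intro σ
    have hu : ((uu hζ : (𝓞 K)ˣ) : 𝓞 K) = hζ.toInteger := IsUnit.unit_spec _
    have h1 : σ (((uu hζ : (𝓞 K)ˣ) : 𝓞 K) : K) = σ ζ := by rw [hu]; rfl
    have h2 := emb2' P (kn := kn) (uu hζ) r σ (by
      rw [h1]; exact hζ.map_of_injective σ.toRingHom.injective)
    rw [h1] at h2
    exact h2
  have hprod : (algebraMap ℚ ℂ) (Algebra.norm ℚ (X : K)) =
      ∏ μ ∈ primitiveRoots (2 * r) ℂ, GC kn P r μ := by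
    rw [Algebra.norm_eq_prod_embeddings ℚ ℂ (X : K)]
    rw [← Finset.prod_coe_sort (primitiveRoots (2 * r) ℂ)]
    refine Fintype.prod_equiv (hζ.embeddingsEquivPrimitiveRoots ℂ hirr) _ _ fun σ => ?_
    rw [hσ σ, IsPrimitiveRoot.embeddingsEquivPrimitiveRoots_apply_coe]
  refine ⟨Algebra.norm ℤ X, ?_, ?_⟩
  · rw [← hprod, ← Algebra.coe_norm_int X]
    simp
  · intro μ hμ hne h0
    have h1 : Algebra.norm ℚ (X : K) = 0 := by
      rw [← Algebra.coe_norm_int X, h0]; simp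
    rw [h1, map_zero] at hprod
    have h2 : (X : K) = 0 := Algebra.norm_eq_zero_iff.1 h1
    obtain ⟨σ, hs⟩ := (hζ.embeddingsEquivPrimitiveRoots ℂ hirr).surjective ⟨μ, hμ⟩
    have h3 : σ ζ = μ := by
      have := congrArg Subtype.val hs
      rwa [IsPrimitiveRoot.embeddingsEquivPrimitiveRoots_apply_coe] at this
    apply hne
    rw [← h3, ← hσ, h2, map_zero]

theorem conj_prod' (r : ℕ) (hr : 0 < r) :
    ∃ M : ℤ, (M : ℂ) = ∏ μ ∈ primitiveRoots (2 * r) ℂ, GC kn P r μ ∧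
      ∀ μ ∈ primitiveRoots (2 * r) ℂ, GC kn P r μ ≠ 0 → M ≠ 0 := by
  have : NeZero (2 * r) := ⟨by omega⟩
  exact @norm_aux' s kn P r hr (CyclotomicField (2 * r) ℚ) _ _ _ (cyc_inst r hr)

end rel

end Pool.Agent.U476.NB
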