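import Pool.Agent.U476.NB.Rel

/-! Bounds for polynomials in the invariants of several knots, exceptional primes. -/

set_option autoImplicit false

namespace Pool.Agent.U476.NB

open Finset NumberField
open Pool.Agent.H550R3.Jones (cjones br brf crossP crossN gen rep)

section rel

variable {s : ℕ} (kn : Fin s → ℕ × List (ℕ × Bool)) (P : MvPolynomial (Option (Fin s)) ℤ)

lemma aev_le (f : Option (Fin s) → ℂ) {B : ℝ} (hB : 1 ≤ B) (hf : ∀ o, ‖f o‖ ≤ B) :
    ‖MvPolynomial.aeval f P‖ ≤ (∑ d ∈ P.support, |((P.coeff d : ℤ) : ℝ)|) * B ^ P.totalDegree := by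
  rw [MvPolynomial.aeval_def, MvPolynomial.eval₂_eq', Finset.sum_mul]
  refine (norm_sum_le _ _).trans (Finset.sum_le_sum fun d hd => ?_)
  rw [norm_mul, norm_prod]
  have h1 : ‖(algebraMap ℤ ℂ) (P.coeff d)‖ = |((P.coeff d : ℤ) : ℝ)| := by
    simp
  rw [h1]
  refine mul_le_mul_of_nonneg_left ?_ (abs_nonneg _)
  have h2 : ∏ i, ‖f i ^ d i‖ ≤ ∏ i, B ^ d i := by
    refine Finset.prod_le_prod (fun _ _ => norm_nonneg _) fun i _ => ?_
    rw [norm_pow]
    exact pow_le_pow_left₀ (norm_nonneg _) (hf i) _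
  refine h2.trans ?_
  rw [Finset.prod_pow_eq_pow_sum]
  refine pow_le_pow_right₀ hB ?_
  have h3 := MvPolynomial.le_totalDegree hd
  rw [Finsupp.sum_fintype _ _ (fun _ => rfl)] at h3
  exact h3

/-- the constants -/
noncomputable def A1 : ℝ := Real.log (1 + ∑ d ∈ P.support, |((P.coeff d : ℤ) : ℝ)|)

lemma A1_nonneg : 0 ≤ A1 P := by
  rw [A1]
  refine Real.log_nonneg ?_
  have : 0 ≤ ∑ d ∈ P.support, |((P.coeff d : ℤ) : ℝ)| := Finset.sum_nonneg fun _ _ => abs_nonneg _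
  linarith

noncomputable def G0 : ℝ :=
  3 * A1 P + P.totalDegree * ∑ i, (2 * ((kn i).1 : ℝ) + 27 * (kn i).2.length)

lemma G0_nonneg : 0 ≤ G0 kn P := by
  have := A1_nonneg P
  rw [G0]
  positivity

noncomputable def UU (r : ℕ) [NeZero r] (v : ℂ) (i : Fin s) : ℝ :=
  ((kn i).1 + (kn i).2.length) * Real.log r + 5 * (kn i).2.length * WW r (v ^ 2)

lemma UU_nonneg (r : ℕ) [NeZero r] (v : ℂ) (i : Fin s) : 0 ≤ UU kn r v i := by
  have h1 : 0 ≤ WW r (v ^ 2) := by rw [WW]; positivity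
  have h2 : 0 ≤ Real.log r := Real.log_natCast_nonneg r
  rw [UU]
  positivity

lemma GC_log_le {r : ℕ} [NeZero r] (hr : 2 ≤ r) {v : ℂ}
    (hv : IsPrimitiveRoot v (2 * r)) (h : GC kn P r v ≠ 0) :
    Real.log ‖GC kn P r v‖ ≤ A1 P + P.totalDegree * ∑ i, UU kn r v i := by
  have hU : 0 ≤ ∑ i, UU kn r v i := Finset.sum_nonneg fun i _ => UU_nonneg kn r v i
  have hB : 1 ≤ Real.exp (∑ i, UU kn r v i) := Real.one_le_exp hU
  have hf : ∀ o, ‖cv kn r v o‖ ≤ Real.exp (∑ i, UU kn r v i) := by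
    intro o
    cases o with
    | none =>
      rw [cv, norm_pow, v_norm hv hr, one_pow]
      exact hB
    | some i =>
      rw [cv]
      by_cases h0 : cjones r (kn i).1 (kn i).2 v = 0
      · rw [h0, norm_zero]; positivity
      · rw [← Real.log_le_iff_le_exp (norm_pos_iff.2 h0)]
        refine (log_jones_le hr (by omega) le_rfl hv (kn i).1 (kn i).2 h0).trans ?_
        exact Finset.single_le_sum (f := fun i => UU kn r v i) (fun i _ => UU_nonneg kn r v i)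
          (mem_univ i)
  have h1 := aev_le P (cv kn r v) hB hf
  have hA : 0 ≤ ∑ d ∈ P.support, |((P.coeff d : ℤ) : ℝ)| := Finset.sum_nonneg fun _ _ => abs_nonneg _
  have h2 : ‖GC kn P r v‖ ≤ (1 + ∑ d ∈ P.support, |((P.coeff d : ℤ) : ℝ)|) *
      Real.exp (∑ i, UU kn r v i) ^ P.totalDegree := by
    refine h1.trans (mul_le_mul_of_nonneg_right (by linarith) (by positivity))
  have h3 := Real.log_le_log (norm_pos_iff.2 h) h2
  rw [Real.log_mul (by positivity) (by positivity), Real.log_pow, Real.log_exp] at h3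
  exact h3

lemma sum_UU {r : ℕ} [NeZero r] (hr : 2 ≤ r) (i : Fin s) :
    ∑ μ ∈ primitiveRoots (2 * r) ℂ, UU kn r μ i ≤
      (2 * ((kn i).1 : ℝ) + 27 * (kn i).2.length) * (r * Real.log r ^ 2) := by
  have hlog2 : (0.6931471803 : ℝ) < Real.log r :=
    Real.log_two_gt_d9.trans_le (Real.log_le_log (by norm_num) (by exact_mod_cast hr))
  have hcard : ((primitiveRoots (2 * r) ℂ).card : ℝ) ≤ r := by
    rw [Complex.card_primitiveRoots]
    exact_mod_cast totient_le_half r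
  have hr0 : (0 : ℝ) < r := by positivity
  set n : ℕ := (kn i).1 with hn
  set w := (kn i).2 with hw
  simp only [UU, ← hn, ← hw]
  rw [Finset.sum_add_distrib, Finset.sum_const, nsmul_eq_mul, ← Finset.mul_sum]
  have h1 := sum_WW r hr
  have hL : 0 < Real.log r := by linarith
  have h2 : ((primitiveRoots (2 * r) ℂ).card : ℝ) * ((n + w.length) * Real.log r) ≤
      r * ((n + w.length) * Real.log r) := mul_le_mul_of_nonneg_right hcard (by positivity)
  have h3 : 5 * (w.length : ℝ) * ∑ μ ∈ primitiveRoots (2 * r) ℂ, WW r (μ ^ 2) ≤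
      5 * w.length * (2 * r * Real.log r * (1 + Real.log r)) :=
    mul_le_mul_of_nonneg_left h1 (by positivity)
  have h4 : r * ((n + w.length) * Real.log r) ≤
      (3 / 2) * (n + w.length) * (r * Real.log r ^ 2) := by
    have : (1 : ℝ) ≤ 3 / 2 * Real.log r := by linarith
    have h5 : 0 ≤ r * ((n + w.length) * Real.log r) := by positivity
    calc r * ((n + w.length) * Real.log r) = r * ((n + w.length) * Real.log r) * 1 := by ring
      _ ≤ r * ((n + w.length) * Real.log r) * (3 / 2 * Real.log r) :=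
        mul_le_mul_of_nonneg_left this h5
      _ = _ := by ring
  have h5 : 5 * (w.length : ℝ) * (2 * r * Real.log r * (1 + Real.log r)) ≤
      25 * w.length * (r * Real.log r ^ 2) := by
    have : 1 + Real.log r ≤ 5 / 2 * Real.log r := by linarith
    have h6 : 0 ≤ 5 * (w.length : ℝ) * (2 * r * Real.log r) := by positivity
    calc 5 * (w.length : ℝ) * (2 * r * Real.log r * (1 + Real.log r)) =
        5 * (w.length : ℝ) * (2 * r * Real.log r) * (1 + Real.log r) := by ring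
      _ ≤ 5 * (w.length : ℝ) * (2 * r * Real.log r) * (5 / 2 * Real.log r) :=
        mul_le_mul_of_nonneg_left this h6
      _ = _ := by ring
  have h7 : 0 ≤ (n : ℝ) * (r * Real.log r ^ 2) := by positivity
  have h8 : 0 ≤ (w.length : ℝ) * (r * Real.log r ^ 2) := by positivity
  nlinarith

lemma sum_bd {r : ℕ} [NeZero r] (hr : 2 ≤ r) :
    ∑ μ ∈ primitiveRoots (2 * r) ℂ, (A1 P + P.totalDegree * ∑ i, UU kn r μ i) ≤
      G0 kn P * (r * Real.log r ^ 2) := by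
  have hlog2 : (0.6931471803 : ℝ) < Real.log r :=
    Real.log_two_gt_d9.trans_le (Real.log_le_log (by norm_num) (by exact_mod_cast hr))
  have hcard : ((primitiveRoots (2 * r) ℂ).card : ℝ) ≤ r := by
    rw [Complex.card_primitiveRoots]
    exact_mod_cast totient_le_half r
  have hA := A1_nonneg P
  have hr0 : (0 : ℝ) < r := by positivity
  rw [Finset.sum_add_distrib, Finset.sum_const, nsmul_eq_mul, ← Finset.mul_sum, Finset.sum_comm,
    G0, add_mul]
  refine add_le_add ?_ ?_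
  · have h1 : (1 : ℝ) ≤ 3 * Real.log r ^ 2 := by nlinarith
    have h2 : ((primitiveRoots (2 * r) ℂ).card : ℝ) * A1 P ≤ r * A1 P :=
      mul_le_mul_of_nonneg_right hcard hA
    have h3 : 0 ≤ r * A1 P := by positivity
    nlinarith [mul_le_mul_of_nonneg_left h1 h3]
  · rw [mul_assoc, Finset.sum_mul]
    exact mul_le_mul_of_nonneg_left (Finset.sum_le_sum fun i _ => sum_UU kn hr i)
      (Nat.cast_nonneg _)

/-- The main estimate. -/
theorem rel_main {r : ℕ} (hr : 2 ≤ r)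
    {μ₀ : ℂ} (h₀ : μ₀ ∈ primitiveRoots (2 * r) ℂ) (hne : GC kn P r μ₀ ≠ 0) :
    (∀ μ ∈ primitiveRoots (2 * r) ℂ, GC kn P r μ ≠ 0) ∧
    (∑ μ ∈ primitiveRoots (2 * r) ℂ, Real.log ‖GC kn P r μ‖ ≤
      G0 kn P * (r * Real.log r ^ 2)) ∧
    ∀ μ ∈ primitiveRoots (2 * r) ℂ,
      Real.exp (-(G0 kn P * (r * Real.log r ^ 2))) ≤ ‖GC kn P r μ‖ := by
  have : NeZero r := ⟨by omega⟩
  obtain ⟨M, hM1, hM2⟩ := conj_prod' P (kn := kn) r (by omega)
  have hM := hM2 μ₀ h₀ hne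
  have hP : 1 ≤ ∏ μ ∈ primitiveRoots (2 * r) ℂ, ‖GC kn P r μ‖ := by
    rw [← norm_prod, ← hM1]
    have h3 : (1 : ℝ) ≤ |(M : ℝ)| := by
      have := Int.one_le_abs hM
      exact_mod_cast this
    simpa using h3
  have hall : ∀ μ ∈ primitiveRoots (2 * r) ℂ, GC kn P r μ ≠ 0 := by
    intro μ hμ h0
    rw [Finset.prod_eq_zero hμ (by rw [h0, norm_zero])] at hP
    norm_num at hP
  have hsum : 0 ≤ ∑ μ ∈ primitiveRoots (2 * r) ℂ, Real.log ‖GC kn P r μ‖ := by
    rw [← Real.log_prod (fun μ hμ => norm_ne_zero_iff.2 (hall μ hμ))]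
    exact Real.log_nonneg hP
  have hle : ∀ μ ∈ primitiveRoots (2 * r) ℂ, Real.log ‖GC kn P r μ‖ ≤
      A1 P + P.totalDegree * ∑ i, UU kn r μ i := fun μ hμ =>
    GC_log_le kn P hr (isPrimitiveRoot_of_mem_primitiveRoots hμ) (hall μ hμ)
  have hU0 : ∀ μ : ℂ, 0 ≤ A1 P + P.totalDegree * ∑ i, UU kn r μ i := by
    intro μ
    have h1 := A1_nonneg P
    have h2 : 0 ≤ ∑ i, UU kn r μ i := Finset.sum_nonneg fun i _ => UU_nonneg kn r μ i
    positivity
  have hUs := sum_bd kn P hr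
  refine ⟨hall, (Finset.sum_le_sum hle).trans hUs, fun μ hμ => ?_⟩
  rw [← Real.le_log_iff_exp_le (norm_pos_iff.2 (hall μ hμ))]
  rw [← Finset.add_sum_erase _ _ hμ] at hsum
  have h2 : ∑ x ∈ (primitiveRoots (2 * r) ℂ).erase μ, Real.log ‖GC kn P r x‖ ≤
      ∑ x ∈ (primitiveRoots (2 * r) ℂ).erase μ, (A1 P + P.totalDegree * ∑ i, UU kn r x i) :=
    Finset.sum_le_sum fun x hx => hle x (Finset.mem_of_mem_erase hx)
  have h3 : ∑ x ∈ (primitiveRoots (2 * r) ℂ).erase μ,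
      (A1 P + P.totalDegree * ∑ i, UU kn r x i) ≤
      ∑ x ∈ primitiveRoots (2 * r) ℂ, (A1 P + P.totalDegree * ∑ i, UU kn r x i) :=
    Finset.sum_le_sum_of_subset_of_nonneg (Finset.erase_subset _ _) fun x _ _ => hU0 x
  linarith

lemma pow_dvd' {r : ℕ} {p : ℕ} (hp : 0 < p) (M : ℤ)
    (hM : (M : ℂ) = ∏ μ ∈ primitiveRoots (2 * r) ℂ, GC kn P r μ)
    (h : ∀ μ ∈ primitiveRoots (2 * r) ℂ, IsIntegral ℤ (GC kn P r μ / p)) :
    (p : ℤ) ^ (2 * r).totient ∣ M := by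
  have h1 : IsIntegral ℤ (∏ μ ∈ primitiveRoots (2 * r) ℂ, GC kn P r μ / p) :=
    IsIntegral.prod _ h
  have hp0 : (p : ℂ) ≠ 0 := by exact_mod_cast hp.ne'
  have hpQ : (p : ℚ) ≠ 0 := by exact_mod_cast hp.ne'
  rw [Finset.prod_div_distrib, ← hM, Finset.prod_const, Complex.card_primitiveRoots] at h1
  have h2 : (M : ℂ) / (p : ℂ) ^ (2 * r).totient =
      algebraMap ℚ ℂ ((M : ℚ) / (p : ℚ) ^ (2 * r).totient) := by
    simp
  rw [h2, isIntegral_algebraMap_iff (algebraMap ℚ ℂ).injective] at h1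
  obtain ⟨c, hc⟩ := IsIntegrallyClosed.isIntegral_iff.1 h1
  refine ⟨c, ?_⟩
  have h3 : (c : ℚ) = (M : ℚ) / (p : ℚ) ^ (2 * r).totient := hc
  rw [eq_div_iff (pow_ne_zero _ hpQ)] at h3
  have h4 : ((c * (p : ℤ) ^ (2 * r).totient : ℤ) : ℚ) = M := by push_cast; exact h3
  have h5 : c * (p : ℤ) ^ (2 * r).totient = M := by exact_mod_cast h4
  rw [← h5, mul_comm]

/-- `p` divides the value of colour `r`. -/
def ExcR (r : ℕ) (p : ℕ) : Prop :=
  ∀ μ ∈ primitiveRoots (2 * r) ℂ, IsIntegral ℤ (GC kn P r μ / p)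

theorem excR_primes {r : ℕ} (hr : 2 ≤ r) {μ₀ : ℂ}
    (h₀ : μ₀ ∈ primitiveRoots (2 * r) ℂ) (hne : GC kn P r μ₀ ≠ 0) (F : Finset ℕ)
    (hF : ∀ p ∈ F, p.Prime ∧ ExcR kn P r p) :
    (2 * r).totient * ∑ p ∈ F, Real.log p ≤ G0 kn P * (r * Real.log r ^ 2) := by
  obtain ⟨M, h1, h2⟩ := conj_prod' P (kn := kn) r (by omega)
  have hM0 : M ≠ 0 := h2 μ₀ h₀ hne
  have hdvd : ∏ p ∈ F, (p : ℤ) ^ (2 * r).totient ∣ M := by
    refine Finset.prod_dvd_of_coprime ?_ fun p hp =>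
      pow_dvd' kn P (hF p hp).1.pos M h1 (hF p hp).2
    intro a ha b hb hab
    have : Nat.Coprime a b := (Nat.coprime_primes (hF a ha).1 (hF b hb).1).2 hab
    exact (Nat.isCoprime_iff_coprime.2 this).pow
  have hle : ((∏ p ∈ F, (p : ℤ) ^ (2 * r).totient : ℤ) : ℝ) ≤ |(M : ℝ)| := by
    have h3 : |∏ p ∈ F, (p : ℤ) ^ (2 * r).totient| ≤ |M| :=
      Int.le_of_dvd (abs_pos.2 hM0) ((abs_dvd_abs _ _).2 hdvd)
    have h4 : ∏ p ∈ F, (p : ℤ) ^ (2 * r).totient ≤ |M| := (le_abs_self _).trans h3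
    exact_mod_cast h4
  have hpos : ∀ p ∈ F, (0 : ℝ) < p := fun p hp => by exact_mod_cast (hF p hp).1.pos
  have h5 : Real.log ((∏ p ∈ F, (p : ℤ) ^ (2 * r).totient : ℤ) : ℝ) =
      (2 * r).totient * ∑ p ∈ F, Real.log p := by
    push_cast
    rw [Real.log_prod (fun p hp => (pow_pos (hpos p hp) _).ne'), Finset.mul_sum]
    exact Finset.sum_congr rfl fun p _ => Real.log_pow _ _
  have h6 : (0 : ℝ) < ((∏ p ∈ F, (p : ℤ) ^ (2 * r).totient : ℤ) : ℝ) := by
    push_cast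
    exact Finset.prod_pos fun p hp => pow_pos (hpos p hp) _
  have h7 := Real.log_le_log h6 hle
  rw [h5] at h7
  obtain ⟨hall, hsum, -⟩ := rel_main kn P hr h₀ hne
  have h8 : Real.log |(M : ℝ)| = ∑ μ ∈ primitiveRoots (2 * r) ℂ, Real.log ‖GC kn P r μ‖ := by
    rw [← Real.log_prod (fun μ hμ => norm_ne_zero_iff.2 (hall μ hμ)), ← norm_prod, ← h1]
    simp
  rw [h8] at h7
  exact h7.trans hsum

end rel

end Pool.Agent.U476.NB
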